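import Pool.Agent.Helper34.GV.Stm
import Pool.Graph.R_seed8.Y662.GJ.Core
import Pool.Graph.R_seed8.Y812.GJ.L2
import Pool.Graph.R_seed8.Helper112.MultLS
import Pool.Graph.R_seed8.TH935.LP.L1

set_option autoImplicit false

/-! Few characters have a large sum: `k`-th powers. -/

namespace Pool.Agent.Helper34.GV

open Finset
open Pool.Agent.Y662.GJ (power cv cv_bound cv_sum)

/-- the coefficients of the power do not depend on the character -/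
lemma cnt_power (X : ℕ) (a : ℕ → ℂ) (ℓ : ℝ) (hℓ : 0 ≤ ℓ)
    (ha : ∀ m ∈ Icc 1 X, ‖a m‖ ≤ ℓ * (m.divisors.card : ℝ)) (j : ℕ) :
    ∃ w : ℕ → ℂ, (∀ n ∈ Icc 1 (X ^ (j + 1)), ‖w n‖ ≤ ℓ ^ (j + 1) * (n.divisors.card : ℝ) ^ (2 * j + 1)) ∧
      ∀ (q : ℕ) (χ : DirichletCharacter ℂ q), (∑ m ∈ Icc 1 X, a m * χ (m : ZMod q)) ^ (j + 1) =
        ∑ n ∈ Icc 1 (X ^ (j + 1)), w n * χ (n : ZMod q) := by
  induction j with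
  | zero => exact ⟨a, by simpa using ha, by simp⟩
  | succ j ih =>
    obtain ⟨w, hw, hw2⟩ := ih
    refine ⟨cv (X ^ (j + 1)) X w a, ?_, ?_⟩
    · intro n hn
      have := cv_bound (X ^ (j + 1)) X (2 * j + 1) 1 w a (ℓ ^ (j + 1)) ℓ
        (by positivity) hℓ hw (by simpa using ha) n (Finset.mem_Icc.mp hn).1
      calc ‖cv (X ^ (j + 1)) X w a n‖ ≤ _ := this
        _ = _ := by rw [← pow_succ, show 2 * j + 1 + 1 + 1 = 2 * (j + 1) + 1 by ring]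
    · intro q χ
      rw [pow_succ, hw2, cv_sum, ← pow_succ]

/-- the mean square of the coefficients of the power -/
lemma cnt_sq (X : ℕ) (ℓ : ℝ) (hX : 1 ≤ X) (hℓ : 1 + Real.log X ≤ ℓ) (j : ℕ) (w : ℕ → ℂ)
    (hw : ∀ n ∈ Icc 1 (X ^ (j + 1)), ‖w n‖ ≤ ℓ ^ (j + 1) * (n.divisors.card : ℝ) ^ (2 * j + 1)) :
    ∑ n ∈ Icc 1 (X ^ (j + 1)), ‖w n‖ ^ 2 ≤
      (X : ℝ) ^ (j + 1) * (((j + 1 : ℕ) : ℝ) * ℓ) ^ (2 ^ (2 * (2 * j + 1)) + 2 * (j + 1)) := by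
  have hlog : 0 ≤ Real.log X := Real.log_nonneg (by exact_mod_cast hX)
  have hℓ1 : 1 ≤ ℓ := by linarith
  have hℓ0 : 0 ≤ ℓ := by linarith
  have hj1 : (1 : ℝ) ≤ ((j + 1 : ℕ) : ℝ) := by exact_mod_cast (by omega : 1 ≤ j + 1)
  have hτ := Pool.Agent.TH935.LD.tau_pow_sum (2 * (2 * j + 1)) (X ^ (j + 1))
  obtain ⟨k, hk⟩ : ∃ k : ℕ, k = 2 ^ (2 * (2 * j + 1)) := ⟨_, rfl⟩
  rw [← hk] at hτ ⊢
  calc ∑ n ∈ Icc 1 (X ^ (j + 1)), ‖w n‖ ^ 2 ≤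
      ∑ n ∈ Icc 1 (X ^ (j + 1)), ℓ ^ (2 * (j + 1)) * (n.divisors.card : ℝ) ^ (2 * (2 * j + 1)) := by
        refine Finset.sum_le_sum fun n hn => ?_
        calc ‖w n‖ ^ 2 ≤ (ℓ ^ (j + 1) * (n.divisors.card : ℝ) ^ (2 * j + 1)) ^ 2 :=
              pow_le_pow_left₀ (norm_nonneg _) (hw n hn) _
          _ = _ := by rw [mul_pow, ← pow_mul, ← pow_mul, mul_comm (j + 1), mul_comm (2 * j + 1)]
    _ = ℓ ^ (2 * (j + 1)) * ∑ n ∈ Icc 1 (X ^ (j + 1)), (n.divisors.card : ℝ) ^ (2 * (2 * j + 1)) := by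
        rw [Finset.mul_sum]
    _ ≤ ℓ ^ (2 * (j + 1)) * (((X ^ (j + 1) : ℕ) : ℝ) * (1 + Real.log ((X ^ (j + 1) : ℕ) : ℝ)) ^ k) :=
        mul_le_mul_of_nonneg_left hτ (by positivity)
    _ ≤ (((j + 1 : ℕ) : ℝ) * ℓ) ^ (2 * (j + 1)) *
        ((X : ℝ) ^ (j + 1) * (((j + 1 : ℕ) : ℝ) * ℓ) ^ k) := by
        rw [Nat.cast_pow, Real.log_pow]
        have e1 : 1 + ((j + 1 : ℕ) : ℝ) * Real.log X ≤ ((j + 1 : ℕ) : ℝ) * ℓ := by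
          have := mul_le_mul_of_nonneg_left hℓ (by positivity : (0 : ℝ) ≤ ((j + 1 : ℕ) : ℝ))
          linarith
        have e0 : 0 ≤ 1 + ((j + 1 : ℕ) : ℝ) * Real.log X := by positivity
        have e2 := pow_le_pow_left₀ e0 e1 k
        refine mul_le_mul (pow_le_pow_left₀ hℓ0 (le_mul_of_one_le_left hℓ0 hj1) _)
          (mul_le_mul_of_nonneg_left e2 (by positivity)) (by positivity) (by positivity)
    _ = _ := by rw [pow_add]; ring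

/-- **CNT**. -/
theorem cnt : CntStm := by
  intro k hk
  obtain ⟨j, rfl⟩ : ∃ j, k = j + 1 := ⟨k - 1, by omega⟩
  refine ⟨2 ^ (2 * (2 * j + 1)) + 2 * (j + 1), ?_⟩
  intro q X _ a ℓ T hX hℓ hT ha S hS
  have hlog : 0 ≤ Real.log X := Real.log_nonneg (by exact_mod_cast hX)
  have hℓ0 : 0 ≤ ℓ := by linarith
  obtain ⟨w, hw, hw2⟩ := cnt_power X a ℓ hℓ0 ha j
  have h2 := cnt_sq X ℓ hX hℓ j w hw
  have hL := (Pool.Agent.Y812.GJ.l2 q (X ^ (j + 1)) w).1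
  have h1 : (S.card : ℝ) * T ^ (2 * (j + 1)) ≤
      ∑ χ : DirichletCharacter ℂ q, ‖∑ n ∈ Icc 1 (X ^ (j + 1)), w n * χ (n : ZMod q)‖ ^ 2 := by
    calc (S.card : ℝ) * T ^ (2 * (j + 1)) = ∑ χ ∈ S, T ^ (2 * (j + 1)) := by
          rw [Finset.sum_const, nsmul_eq_mul]
      _ ≤ ∑ χ ∈ S, ‖∑ n ∈ Icc 1 (X ^ (j + 1)), w n * χ (n : ZMod q)‖ ^ 2 := by
          refine Finset.sum_le_sum fun χ hχ => ?_
          rw [← hw2, norm_pow, ← pow_mul, mul_comm 2]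
          exact pow_le_pow_left₀ hT.le (hS χ hχ).le _
      _ ≤ _ := Finset.sum_le_sum_of_subset_of_nonneg (Finset.subset_univ _)
          (fun _ _ _ => by positivity)
  calc (S.card : ℝ) * T ^ (2 * (j + 1)) ≤ _ := h1
    _ ≤ (((X ^ (j + 1) : ℕ) : ℝ) + q) * ∑ n ∈ Icc 1 (X ^ (j + 1)), ‖w n‖ ^ 2 := hL
    _ ≤ (((X ^ (j + 1) : ℕ) : ℝ) + q) * ((X : ℝ) ^ (j + 1) *
        (((j + 1 : ℕ) : ℝ) * ℓ) ^ (2 ^ (2 * (2 * j + 1)) + 2 * (j + 1))) :=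
        mul_le_mul_of_nonneg_left h2 (by positivity)
    _ = _ := by rw [Nat.cast_pow, mul_assoc]

lemma cnt_ls_sub (Q Z : ℕ) (w : ℕ → ℂ) (Ψ : Finset (Σ f : ℕ, DirichletCharacter ℂ f))
    (hΨ : ∀ ψ ∈ Ψ, 1 ≤ ψ.1 ∧ ψ.1 ≤ Q ∧ ψ.2.IsPrimitive) :
    ∑ ψ ∈ Ψ, ‖∑ n ∈ Icc 1 Z, w n * ψ.2 (n : ZMod ψ.1)‖ ^ 2 ≤
      6 * (Z + (Q : ℝ) ^ 2) * ∑ n ∈ Icc 1 Z, ‖w n‖ ^ 2 := by
  classical
  refine le_trans ?_ (Pool.Agent.Helper112.mult_large_sieve Z Q w)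
  have h1 : Ψ ⊆ (Icc 1 Q).sigma (fun f => (univ : Finset (DirichletCharacter ℂ f)).filter
      (fun χ => χ.IsPrimitive)) := by
    intro ψ hψ
    obtain ⟨e1, e2, e3⟩ := hΨ ψ hψ
    rw [mem_sigma]
    exact ⟨mem_Icc.2 ⟨e1, e2⟩, mem_filter.2 ⟨mem_univ _, e3⟩⟩
  refine (sum_le_sum_of_subset_of_nonneg h1 fun _ _ _ => sq_nonneg _).trans ?_
  rw [sum_sigma]
  refine sum_le_sum fun f hf => ?_
  rw [mem_Icc] at hf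
  have h2 : (1 : ℝ) ≤ (f : ℝ) / (Nat.totient f : ℝ) := by
    have h3 : 0 < Nat.totient f := Nat.totient_pos.2 hf.1
    rw [le_div_iff₀ (by exact_mod_cast h3), one_mul]
    exact_mod_cast Nat.totient_le f
  have h3 : 0 ≤ ∑ χ ∈ (univ : Finset (DirichletCharacter ℂ f)).filter (fun χ => χ.IsPrimitive),
      ‖∑ n ∈ Icc 1 Z, w n * χ (n : ZMod f)‖ ^ 2 := sum_nonneg fun _ _ => sq_nonneg _
  calc _ = 1 * ∑ χ ∈ (univ : Finset (DirichletCharacter ℂ f)).filter (fun χ => χ.IsPrimitive),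
      ‖∑ n ∈ Icc 1 Z, w n * χ (n : ZMod f)‖ ^ 2 := (one_mul _).symm
    _ ≤ _ := mul_le_mul_of_nonneg_right h2 h3

/-- **CNTP**. -/
theorem cntP : CntPStm := by
  intro k hk
  obtain ⟨j, rfl⟩ : ∃ j, k = j + 1 := ⟨k - 1, by omega⟩
  refine ⟨2 ^ (2 * (2 * j + 1)) + 2 * (j + 1), ?_⟩
  intro Q X a ℓ T hX hℓ hT ha Ψ hΨ
  have hlog : 0 ≤ Real.log X := Real.log_nonneg (by exact_mod_cast hX)
  have hℓ0 : 0 ≤ ℓ := by linarith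
  obtain ⟨w, hw, hw2⟩ := cnt_power X a ℓ hℓ0 ha j
  have h2 := cnt_sq X ℓ hX hℓ j w hw
  have h1 : (Ψ.card : ℝ) * T ^ (2 * (j + 1)) ≤
      ∑ ψ ∈ Ψ, ‖∑ n ∈ Icc 1 (X ^ (j + 1)), w n * ψ.2 (n : ZMod ψ.1)‖ ^ 2 := by
    calc (Ψ.card : ℝ) * T ^ (2 * (j + 1)) = ∑ ψ ∈ Ψ, T ^ (2 * (j + 1)) := by
          rw [Finset.sum_const, nsmul_eq_mul]
      _ ≤ ∑ ψ ∈ Ψ, ‖∑ n ∈ Icc 1 (X ^ (j + 1)), w n * ψ.2 (n : ZMod ψ.1)‖ ^ 2 := by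
          refine Finset.sum_le_sum fun ψ hψ => ?_
          rw [← hw2, norm_pow, ← pow_mul, mul_comm 2]
          exact pow_le_pow_left₀ hT.le (hΨ ψ hψ).2.2.2.le _
  calc (Ψ.card : ℝ) * T ^ (2 * (j + 1)) ≤ _ := h1
    _ ≤ 6 * (((X ^ (j + 1) : ℕ) : ℝ) + (Q : ℝ) ^ 2) * ∑ n ∈ Icc 1 (X ^ (j + 1)), ‖w n‖ ^ 2 :=
        cnt_ls_sub Q _ w Ψ fun ψ hψ => ⟨(hΨ ψ hψ).1, (hΨ ψ hψ).2.1, (hΨ ψ hψ).2.2.1⟩
    _ ≤ 6 * (((X ^ (j + 1) : ℕ) : ℝ) + (Q : ℝ) ^ 2) * ((X : ℝ) ^ (j + 1) *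
        (((j + 1 : ℕ) : ℝ) * ℓ) ^ (2 ^ (2 * (2 * j + 1)) + 2 * (j + 1))) :=
        mul_le_mul_of_nonneg_left h2 (by positivity)
    _ = _ := by rw [Nat.cast_pow, ← mul_assoc]

end Pool.Agent.Helper34.GV
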