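import Pool.Agent.Helper34.GV.Stm
import Pool.Graph.R_seed8.H373R2.T7.LamMaj
import Pool.Graph.R_seed8.R453.GS.Apg1

/-!
Project GV (helper34), job APG (helper51): the function `gr` in arithmetic progressions to small moduli.
-/

set_option autoImplicit false

namespace Pool.Agent.Helper34.GV

open Finset Filter Topology

/-- the rough numbers in a class -/
noncomputable def RR (N r c y : ℕ) : Finset ℕ :=
  (Icc 1 y).filter (fun n => n ≡ c [MOD r] ∧ ∀ p ∈ n.primeFactors, ZZ N < p)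

/-- the large prime factors -/
noncomputable def hd (N n : ℕ) : ℝ := ∑ p ∈ n.primeFactors.filter (fun p => YY N < p), Real.log p

/-- repeated prime factors -/
noncomputable def ex (n : ℕ) : ℝ := ∑ p ∈ n.primeFactors, ((n.factorization p : ℝ) - 1) * Real.log p

/-- the primes for a cofactor -/
noncomputable def AA (N r c y m : ℕ) : Finset ℕ :=
  (Ioc (YY N) (y / m)).filter (fun p => p.Prime ∧ m * p ≡ c [MOD r])

lemma log_fact {n : ℕ} (hn : n ≠ 0) : Real.log n = ∑ p ∈ n.primeFactors, (n.factorization p : ℝ) * Real.log p := by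
  conv_lhs => rw [← Nat.prod_factorization_pow_eq_self hn]
  rw [Finsupp.prod, Nat.support_factorization]
  push_cast
  rw [Real.log_prod]
  · apply sum_congr rfl
    intro p _
    rw [Real.log_pow]
  · intro p hp
    have := (Nat.prime_of_mem_primeFactors hp).pos
    positivity

lemma ex_nonneg (n : ℕ) : 0 ≤ ex n := by
  unfold ex
  apply sum_nonneg
  intro p hp
  have h1 : 1 ≤ n.factorization p := by
    have h := Nat.mem_primeFactors.1 hp
    exact h.1.factorization_pos_of_dvd h.2.2 h.2.1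
  have h2 : (1 : ℝ) ≤ n.factorization p := by exact_mod_cast h1
  exact mul_nonneg (by linarith) (Real.log_natCast_nonneg p)

lemma ex_sqf {n : ℕ} (h : Squarefree n) : ex n = 0 := by
  unfold ex
  apply sum_eq_zero
  intro p hp
  have h1 := Nat.mem_primeFactors.1 hp
  have h2 : n.factorization p ≤ 1 := h.natFactorization_le_one p
  have h3 : 0 < n.factorization p := h1.1.factorization_pos_of_dvd h1.2.2 h1.2.1
  have h4 : n.factorization p = 1 := by omega
  rw [h4]
  simp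

lemma gr_rough {N n : ℕ} (hn : n ≠ 0) (h : ∀ p ∈ n.primeFactors, ZZ N < p) : gr N n = hd N n + ex n := by
  unfold gr hd ex
  rw [if_pos h, log_fact hn, ← sum_sub_distrib, sum_filter, ← sum_add_distrib]
  apply sum_congr rfl
  intro p hp
  have h1 := Nat.mem_primeFactors.1 hp
  have h2 := h p hp
  unfold lp
  by_cases h3 : p ≤ YY N
  · rw [if_pos ⟨h1.1, h2, h3⟩, if_neg (by omega)]
    ring
  · rw [if_neg (fun h => h3 h.2.2), if_pos (by omega)]
    ring

lemma hd_nonneg (N n : ℕ) : 0 ≤ hd N n := sum_nonneg fun _ _ => Real.log_natCast_nonneg _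

lemma ex_le (n : ℕ) : ex n ≤ Real.log n := by
  rcases Nat.eq_zero_or_pos n with h | h
  · rw [h]; simp [ex]
  rw [log_fact h.ne']
  unfold ex
  apply sum_le_sum
  intro p _
  have := Real.log_natCast_nonneg p
  nlinarith

lemma ex_sum {N r c y : ℕ} (hZ : 1 ≤ ZZ N) (hy : y ≤ N) :
    ∑ n ∈ RR N r c y, ex n ≤ (N : ℝ) / ZZ N * Real.log N := by
  have hZr : (0 : ℝ) < ZZ N := by exact_mod_cast hZ
  have hyr : (y : ℝ) ≤ N := by exact_mod_cast hy
  have hlog : 0 ≤ Real.log N := Real.log_natCast_nonneg N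
  have h1 : ∑ n ∈ RR N r c y, ex n ≤ ∑ n ∈ (RR N r c y).filter (fun n => ¬ Squarefree n), Real.log N := by
    rw [sum_filter]
    apply sum_le_sum
    intro n hn
    unfold RR at hn
    rw [mem_filter, mem_Icc] at hn
    by_cases hs : Squarefree n
    · rw [if_neg (not_not.2 hs), ex_sqf hs]
    · rw [if_pos hs]
      refine (ex_le n).trans ?_
      apply Real.log_le_log (by exact_mod_cast hn.1.1)
      exact_mod_cast hn.1.2.trans hy
  refine h1.trans ?_
  rw [sum_const, nsmul_eq_mul]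
  apply mul_le_mul_of_nonneg_right _ hlog
  have h2 : (RR N r c y).filter (fun n => ¬ Squarefree n) ⊆
      (Ioc (ZZ N) y).biUnion (fun d => (Ioc 0 y).filter (fun n => d ^ 2 ∣ n)) := by
    intro n hn
    unfold RR at hn
    rw [mem_filter, mem_filter, mem_Icc] at hn
    obtain ⟨⟨⟨h3, h4⟩, h5, h6⟩, h7⟩ := hn
    rw [Nat.squarefree_iff_prime_squarefree] at h7
    push Not at h7
    obtain ⟨p, hp, hpd⟩ := h7
    have hpn : p ∣ n := (Dvd.intro _ rfl).trans hpd
    rw [mem_biUnion]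
    refine ⟨p, ?_, ?_⟩
    · rw [mem_Ioc]
      exact ⟨h6 p (Nat.mem_primeFactors.2 ⟨hp, hpn, by omega⟩), (Nat.le_of_dvd (by omega) hpn).trans h4⟩
    · rw [mem_filter, mem_Ioc, sq]
      exact ⟨⟨by omega, h4⟩, hpd⟩
  have h3 : ((((RR N r c y).filter (fun n => ¬ Squarefree n)).card : ℕ) : ℝ) ≤
      ∑ d ∈ Ioc (ZZ N) y, (y : ℝ) * ((d : ℝ) ^ 2)⁻¹ := by
    refine le_trans (Nat.cast_le.2 ((card_le_card h2).trans card_biUnion_le)) ?_
    push_cast
    apply sum_le_sum
    intro d _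
    rw [Nat.Ioc_filter_dvd_card_eq_div]
    refine Nat.cast_div_le.trans ?_
    push_cast
    rw [div_eq_mul_inv]
  refine h3.trans ?_
  rw [← mul_sum]
  rcases le_or_gt (ZZ N) y with h4 | h4
  · have h5 := sum_Ioc_inv_sq_le_sub (α := ℝ) (k := ZZ N) (n := y) (by omega) h4
    have h6 : (0 : ℝ) ≤ (y : ℝ)⁻¹ := by positivity
    have h7 : ∑ d ∈ Ioc (ZZ N) y, ((d : ℝ) ^ 2)⁻¹ ≤ (ZZ N : ℝ)⁻¹ := by linarith
    rw [div_eq_mul_inv]
    apply mul_le_mul hyr h7 (sum_nonneg fun _ _ => by positivity) (by positivity)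
  · rw [Ioc_eq_empty (by omega)]
    simp only [sum_empty, mul_zero]
    positivity

lemma hd_sum {N r c y : ℕ} (hZY : ZZ N ≤ YY N) :
    ∑ n ∈ RR N r c y, hd N n = ∑ m ∈ mm N y, ∑ p ∈ AA N r c y m, Real.log p := by
  unfold hd
  rw [sum_sigma', sum_sigma']
  apply sum_bij' (fun x _ => (⟨x.1 / x.2, x.2⟩ : Σ _ : ℕ, ℕ)) (fun x _ => (⟨x.1 * x.2, x.2⟩ : Σ _ : ℕ, ℕ))
  · rintro ⟨n, p⟩ h
    simp only [mem_sigma] at h ⊢
    obtain ⟨h1, h2⟩ := h
    unfold RR at h1
    rw [mem_filter, mem_Icc] at h1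
    rw [mem_filter, Nat.mem_primeFactors] at h2
    obtain ⟨⟨h3, h4⟩, h5, h6⟩ := h1
    obtain ⟨⟨hp, ⟨m, rfl⟩, hn0⟩, hpY⟩ := h2
    have hdiv : p * m / p = m := Nat.mul_div_cancel_left m hp.pos
    rw [hdiv]
    have hm0 : 0 < m := Nat.pos_of_ne_zero (fun h => hn0 (by rw [h, mul_zero]))
    have hmy : m ≤ y := le_trans (Nat.le_mul_of_pos_left m hp.pos) h4
    constructor
    · unfold mm
      rw [mem_filter, mem_Icc]
      refine ⟨⟨hm0, hmy⟩, fun q hq => h6 q ?_, ?_⟩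
      · rw [Nat.primeFactors_mul hp.ne_zero hm0.ne', mem_union]
        exact Or.inr hq
      · refine lt_of_lt_of_le ?_ h4
        rw [mul_comm p m]
        exact Nat.mul_lt_mul_of_pos_left hpY hm0
    · unfold AA
      rw [mem_filter, mem_Ioc]
      refine ⟨⟨hpY, ?_⟩, hp, ?_⟩
      · rw [Nat.le_div_iff_mul_le hm0]
        exact h4
      · rw [mul_comm]
        exact h5
  · rintro ⟨m, p⟩ h
    simp only [mem_sigma] at h ⊢
    obtain ⟨h1, h2⟩ := h
    unfold mm at h1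
    unfold AA at h2
    rw [mem_filter, mem_Icc] at h1
    rw [mem_filter, mem_Ioc] at h2
    obtain ⟨⟨h3, h4⟩, h5, h6⟩ := h1
    obtain ⟨⟨h7, h8⟩, hp, h9⟩ := h2
    have hm0 : m ≠ 0 := by omega
    constructor
    · unfold RR
      rw [mem_filter, mem_Icc]
      refine ⟨⟨Nat.mul_pos h3 hp.pos, ?_⟩, h9, ?_⟩
      · rw [Nat.le_div_iff_mul_le h3] at h8
        rw [mul_comm]
        exact h8
      · intro q hq
        rw [Nat.primeFactors_mul hm0 hp.ne_zero, hp.primeFactors, mem_union, mem_singleton] at hq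
        rcases hq with hq | hq
        · exact h5 q hq
        · rw [hq]; omega
    · rw [mem_filter, Nat.mem_primeFactors]
      exact ⟨⟨hp, Dvd.intro_left _ rfl, Nat.mul_ne_zero hm0 hp.ne_zero⟩, h7⟩
  · rintro ⟨n, p⟩ h
    simp only [mem_sigma] at h
    rw [mem_filter, Nat.mem_primeFactors] at h
    have : n / p * p = n := Nat.div_mul_cancel h.2.1.2.1
    simp only [this]
  · rintro ⟨m, p⟩ h
    simp only [mem_sigma] at h
    unfold AA at h
    rw [mem_filter] at h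
    have : m * p / p = m := Nat.mul_div_cancel m h.2.2.1.pos
    simp only [this]
  · rintro ⟨n, p⟩ _
    rfl

lemma gr_sum {N r c y : ℕ} (hZY : ZZ N ≤ YY N) :
    ∑ n ∈ (Icc 1 y).filter (fun n => n ≡ c [MOD r]), gr N n =
      ∑ m ∈ mm N y, ∑ p ∈ AA N r c y m, Real.log p + ∑ n ∈ RR N r c y, ex n := by
  rw [← hd_sum hZY, ← sum_add_distrib]
  have h1 : RR N r c y = ((Icc 1 y).filter (fun n => n ≡ c [MOD r])).filter (fun n => ∀ p ∈ n.primeFactors, ZZ N < p) := by
    unfold RR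
    rw [filter_filter]
  rw [h1, sum_filter (s := (Icc 1 y).filter (fun n => n ≡ c [MOD r]))]
  apply sum_congr rfl
  intro n hn
  rw [mem_filter, mem_Icc] at hn
  split_ifs with h
  · exact gr_rough (by omega) h
  · unfold gr
    rw [if_neg h]

/-- the sum of the density -/
lemma Wt_sum {N y : ℕ} (hY : 1 ≤ YY N) :
    ∑ n ∈ Icc 1 y, Wt N n = ∑ m ∈ mm N y, ((y : ℝ) / m - YY N) := by
  unfold Wt
  rw [sum_comm' (t' := mm N y) (s' := fun m => Ioc (m * YY N) y)]
  · apply sum_congr rfl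
    intro m hm
    unfold mm at hm
    rw [mem_filter, mem_Icc] at hm
    have hm0 : (0 : ℝ) < m := by exact_mod_cast hm.1.1
    rw [sum_const, Nat.card_Ioc, nsmul_eq_mul, Nat.cast_sub hm.2.2.le]
    push_cast
    field_simp
  · intro n m
    unfold mm
    simp only [mem_filter, mem_Icc, mem_Ioc]
    constructor
    · rintro ⟨⟨h1, h2⟩, ⟨h3, h4⟩, h5, h6⟩
      exact ⟨⟨h6, h2⟩, ⟨h3, h4.trans h2⟩, h5, lt_of_lt_of_le h6 h2⟩
    · rintro ⟨⟨h1, h2⟩, ⟨h3, h4⟩, h5, h6⟩
      have h7 : m ≤ m * YY N := Nat.le_mul_of_pos_right m hY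
      exact ⟨⟨by omega, h2⟩, ⟨h3, by omega⟩, h5, h1⟩

lemma mm_card {N y : ℕ} (hY : 1 ≤ YY N) (hy : y ≤ N) : ((mm N y).card : ℝ) ≤ N / YY N := by
  have h1 : mm N y ⊆ Icc 1 (N / YY N) := by
    intro m hm
    unfold mm at hm
    rw [mem_filter, mem_Icc] at hm
    rw [mem_Icc]
    refine ⟨hm.1.1, ?_⟩
    rw [Nat.le_div_iff_mul_le hY]
    omega
  have h2 := card_le_card h1
  rw [Nat.card_Icc, Nat.add_sub_cancel] at h2
  refine le_trans ?_ Nat.cast_div_le
  exact_mod_cast h2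

lemma mm_inv {N y : ℕ} (hy : y ≤ N) : ∑ m ∈ mm N y, 1 / (m : ℝ) ≤ 1 + Real.log N := by
  have h1 : ∑ m ∈ mm N y, 1 / (m : ℝ) ≤ ∑ m ∈ Icc 1 N, 1 / (m : ℝ) := by
    apply sum_le_sum_of_subset_of_nonneg
    · intro m hm
      unfold mm at hm
      rw [mem_filter, mem_Icc] at hm
      rw [mem_Icc]
      omega
    · intro _ _ _; positivity
  refine h1.trans ?_
  have h2 := harmonic_le_one_add_log N
  rw [harmonic_eq_sum_Icc] at h2
  push_cast at h2
  simp only [one_div]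
  exact h2

/-- the prime powers contribute little -/
lemma npr {X : ℕ} (hX : 1 ≤ X) (s : Finset ℕ) (hs : s ⊆ Ioc 0 X) :
    |∑ n ∈ s, ArithmeticFunction.vonMangoldt n - ∑ p ∈ s.filter Nat.Prime, Real.log p| ≤
      2 * √(X : ℝ) * Real.log X := by
  have h0 : ∀ n : ℕ, 0 ≤ ArithmeticFunction.vonMangoldt n - (if n.Prime then Real.log n else 0) := by
    intro n
    split_ifs with h
    · rw [ArithmeticFunction.vonMangoldt_apply_prime h]; simp
    · have := ArithmeticFunction.vonMangoldt_nonneg (n := n)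
      linarith
  have h1 : ∑ n ∈ s, ArithmeticFunction.vonMangoldt n - ∑ p ∈ s.filter Nat.Prime, Real.log p =
      ∑ n ∈ s, (ArithmeticFunction.vonMangoldt n - (if n.Prime then Real.log n else 0)) := by
    rw [sum_sub_distrib, sum_filter]
  rw [h1, abs_of_nonneg (sum_nonneg fun n _ => h0 n)]
  have h2 := sum_le_sum_of_subset_of_nonneg hs (fun n _ _ => h0 n)
  refine h2.trans ?_
  have h3 := Chebyshev.psi_sub_theta_le (x := (X : ℝ)) (by exact_mod_cast hX)
  refine le_trans (le_of_eq ?_) h3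
  unfold Chebyshev.psi Chebyshev.theta
  rw [Nat.floor_natCast, sum_sub_distrib, sum_filter]

lemma cls {K U' N0 N r c y m : ℕ}
    (hlam : ∀ M : ℕ, N0 ≤ M → ∀ q : ℕ, 1 ≤ q → (q : ℝ) ≤ Real.log M ^ (K + 1) → ∀ c y : ℕ, y ≤ M →
      |∑ n ∈ (Icc 1 y).filter (fun n => n ≡ c [MOD q]), ArithmeticFunction.vonMangoldt n -
      (if c.Coprime q then (y : ℝ) / (Nat.totient q : ℝ) else 0)| ≤ M / Real.log M ^ U')
    (hY0 : N0 ≤ YY N) (hY1 : 1 ≤ YY N) (hL1 : 1 ≤ Real.log N) (hL : Real.log N / 4 ≤ Real.log (YY N))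
    (hK : 4 ^ (K + 1) ≤ Real.log N)
    (hr : 1 ≤ r) (hrL : (r : ℝ) ≤ Real.log N ^ K) (hrZ : r ≤ ZZ N) (hc : c.Coprime r) (hy : y ≤ N)
    (hm : m ∈ mm N y) :
    |∑ p ∈ AA N r c y m, Real.log p - ((y : ℝ) / m - YY N) / (Nat.totient r : ℝ)| ≤
      (1 / (m : ℝ)) * (2 * 4 ^ U' * N / Real.log N ^ U' + 2 * N / √(YY N : ℝ) * Real.log N) + 1 := by
  unfold mm at hm
  rw [mem_filter, mem_Icc] at hm
  obtain ⟨⟨hm1, hm2⟩, hm3, hm4⟩ := hm
  have hmr : (0 : ℝ) < m := by exact_mod_cast hm1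
  have hmc : m.Coprime r := by
    by_contra hcon
    obtain ⟨l, hl, hlm, hlr⟩ := Nat.Prime.not_coprime_iff_dvd.1 hcon
    have h6 := hm3 l (Nat.mem_primeFactors.2 ⟨hl, hlm, by omega⟩)
    have h7 := Nat.le_of_dvd (by omega) hlr
    omega
  obtain ⟨c', hc', hinv⟩ := Pool.Agent.R453.GS.inv_class hr hmc hc
  have hYX : YY N ≤ y / m := by
    rw [Nat.le_div_iff_mul_le hm1, mul_comm]
    exact hm4.le
  have hXM : y / m ≤ N / m := Nat.div_le_div_right hy
  have hYM : YY N ≤ N / m := hYX.trans hXM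
  set M := N / m with hM
  set X := y / m with hXd
  have hM1 : 1 ≤ M := by omega
  have hMr : (M : ℝ) ≤ N / m := Nat.cast_div_le
  have hlogM : Real.log N / 4 ≤ Real.log M :=
    hL.trans (Real.log_le_log (by exact_mod_cast hY1) (by exact_mod_cast hYM))
  have hlogM0 : 0 < Real.log M := by linarith
  have hrM : (r : ℝ) ≤ Real.log M ^ (K + 1) := by
    calc (r : ℝ) ≤ Real.log N ^ K := hrL
      _ ≤ (4 * Real.log M) ^ K := by
          apply pow_le_pow_left₀ (by linarith)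
          linarith
      _ = 4 ^ K * Real.log M ^ K := mul_pow _ _ _
      _ ≤ Real.log M * Real.log M ^ K := by
          apply mul_le_mul_of_nonneg_right _ (by positivity)
          rw [pow_succ] at hK
          linarith
      _ = _ := by ring
  have h1 := hlam M (hY0.trans hYM) r hr hrM c' X hXM
  have h2 := hlam M (hY0.trans hYM) r hr hrM c' (YY N) hYM
  rw [if_pos hc'] at h1 h2
  have h3 := npr (X := X) (by omega) ((Ioc (YY N) X).filter (fun n => n ≡ c' [MOD r])) (by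
    intro n hn
    rw [mem_filter, mem_Ioc] at hn
    rw [mem_Ioc]
    omega)
  have h4 : ((Ioc (YY N) X).filter (fun n => n ≡ c' [MOD r])).filter Nat.Prime = AA N r c y m := by
    unfold AA
    rw [filter_filter]
    apply filter_congr
    intro p _
    rw [hinv p, and_comm]
  rw [h4] at h3
  have h5 : ∑ n ∈ (Icc 1 X).filter (fun n => n ≡ c' [MOD r]), ArithmeticFunction.vonMangoldt n =
      ∑ n ∈ (Icc 1 (YY N)).filter (fun n => n ≡ c' [MOD r]), ArithmeticFunction.vonMangoldt n +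
      ∑ n ∈ (Ioc (YY N) X).filter (fun n => n ≡ c' [MOD r]), ArithmeticFunction.vonMangoldt n := by
    rw [← sum_union]
    · congr 1
      rw [← filter_union]
      congr 1
      ext n
      simp only [mem_union, mem_Icc, mem_Ioc]
      omega
    · rw [disjoint_left]
      intro n hn hn2
      rw [mem_filter, mem_Icc] at hn
      rw [mem_filter, mem_Ioc] at hn2
      omega
  have hφ : (1 : ℝ) ≤ (Nat.totient r : ℝ) := by exact_mod_cast Nat.totient_pos.2 hr
  have h6 : |(X : ℝ) / (Nat.totient r : ℝ) - ((y : ℝ) / m) / (Nat.totient r : ℝ)| ≤ 1 := by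
    rw [← sub_div, abs_div, abs_of_pos (show (0 : ℝ) < (Nat.totient r : ℝ) by linarith)]
    refine (div_le_self (abs_nonneg _) hφ).trans ?_
    have h7 : (X : ℝ) ≤ y / m := Nat.cast_div_le
    have h8 : (y : ℝ) / m ≤ X + 1 := by
      rw [div_le_iff₀ hmr]
      have h9 := (Nat.lt_mul_div_succ y hm1).le
      have h10 : (y : ℝ) ≤ m * (X + 1) := by exact_mod_cast h9
      linarith
    rw [abs_le]
    constructor <;> linarith
  have h7 : (M : ℝ) / Real.log M ^ U' ≤ (1 / (m : ℝ)) * (4 ^ U' * N / Real.log N ^ U') := by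
    calc (M : ℝ) / Real.log M ^ U' ≤ (N / m) / (Real.log N / 4) ^ U' := by
          apply div_le_div₀ (by positivity) hMr (by positivity)
          exact pow_le_pow_left₀ (by positivity) hlogM _
      _ = _ := by
          rw [div_pow]; field_simp
  have hYr : (0 : ℝ) < YY N := by exact_mod_cast hY1
  have hX1 : (1 : ℝ) ≤ X := by exact_mod_cast (show 1 ≤ X by omega)
  have hXN : (X : ℝ) ≤ N / m := le_trans (by exact_mod_cast hXM) hMr
  have h8 : 2 * √(X : ℝ) * Real.log X ≤ (1 / (m : ℝ)) * (2 * N / √(YY N : ℝ) * Real.log N) := by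
    have h9 : √(X : ℝ) ≤ (N / m) / √(YY N : ℝ) := by
      rw [le_div_iff₀ (Real.sqrt_pos.2 hYr)]
      calc √(X : ℝ) * √(YY N : ℝ) ≤ √(X : ℝ) * √(X : ℝ) := by
            apply mul_le_mul_of_nonneg_left _ (Real.sqrt_nonneg _)
            exact Real.sqrt_le_sqrt (by exact_mod_cast hYX)
        _ = X := Real.mul_self_sqrt (by linarith)
        _ ≤ _ := hXN
    have h10 : Real.log X ≤ Real.log N := by
      apply Real.log_le_log (by linarith)
      refine hXN.trans (div_le_self (Nat.cast_nonneg _) (by exact_mod_cast hm1))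
    have h11 : 0 ≤ Real.log X := Real.log_nonneg hX1
    calc 2 * √(X : ℝ) * Real.log X ≤ 2 * ((N / m) / √(YY N : ℝ)) * Real.log N := by
          apply mul_le_mul _ h10 h11 (by positivity)
          linarith
      _ = _ := by ring
  have h12 : ∑ p ∈ AA N r c y m, Real.log p - ((y : ℝ) / m - YY N) / (Nat.totient r : ℝ) =
      -(∑ n ∈ (Ioc (YY N) X).filter (fun n => n ≡ c' [MOD r]), ArithmeticFunction.vonMangoldt n -
        ∑ p ∈ AA N r c y m, Real.log p) +
      (∑ n ∈ (Icc 1 X).filter (fun n => n ≡ c' [MOD r]), ArithmeticFunction.vonMangoldt n -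
        (X : ℝ) / (Nat.totient r : ℝ)) -
      (∑ n ∈ (Icc 1 (YY N)).filter (fun n => n ≡ c' [MOD r]), ArithmeticFunction.vonMangoldt n -
        (YY N : ℝ) / (Nat.totient r : ℝ)) +
      ((X : ℝ) / (Nat.totient r : ℝ) - ((y : ℝ) / m) / (Nat.totient r : ℝ)) := by
    rw [h5]
    ring
  rw [h12]
  rw [abs_le] at h1 h2 h3 h6 ⊢
  have h13 : (1 / (m : ℝ)) * (2 * 4 ^ U' * N / Real.log N ^ U' + 2 * N / √(YY N : ℝ) * Real.log N) =
      2 * ((1 / (m : ℝ)) * (4 ^ U' * N / Real.log N ^ U')) +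
        (1 / (m : ℝ)) * (2 * N / √(YY N : ℝ) * Real.log N) := by ring
  rw [h13]
  constructor <;> linarith [h1.1, h1.2, h2.1, h2.2, h3.1, h3.2, h6.1, h6.2]

lemma ev_pow (k : ℕ) (C s : ℝ) (hs : 0 < s) :
    ∃ N₀ : ℕ, ∀ N : ℕ, N₀ ≤ N → C * Real.log N ^ k ≤ (N : ℝ) ^ s := by
  have h1 := isLittleO_log_rpow_rpow_atTop (s := s) (k : ℝ) hs
  have h2 := (h1.const_mul_left C).comp_tendsto tendsto_natCast_atTop_atTop
  have h3 := h2.bound (show (0 : ℝ) < 1 by norm_num)
  obtain ⟨N₀, hN⟩ := Filter.eventually_atTop.1 h3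
  refine ⟨N₀, fun N h => ?_⟩
  have h4 := hN N h
  simp only [Function.comp_apply, one_mul, Real.rpow_natCast, Real.norm_eq_abs] at h4
  rw [abs_of_nonneg (a := (N : ℝ) ^ s) (by positivity)] at h4
  exact (le_abs_self _).trans h4

lemma params (K U N0 : ℕ) : ∃ N₀ : ℕ, ∀ N : ℕ, N₀ ≤ N →
    1 ≤ Real.log N ∧ (4 : ℝ) ^ (K + 1) ≤ Real.log N ∧ (4 : ℝ) ^ (U + 5) ≤ Real.log N ∧
    Real.log N ^ K ≤ ZZ N ∧ 4 * Real.log N ^ (U + 1) ≤ ZZ N ∧
    256 * Real.log N ^ (2 * U + 4) ≤ YY N ∧ N0 ≤ YY N ∧ ZZ N ≤ YY N ∧ Real.log N / 4 ≤ Real.log (YY N) := by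
  obtain ⟨n1, h1⟩ := Pool.Agent.H373R2.T7.ev_L' (1 + 4 ^ (K + 1) + 4 ^ (U + 5))
  obtain ⟨n2, h2⟩ := ev_pow K 2 (1 / 5) (by norm_num)
  obtain ⟨n3, h3⟩ := ev_pow (U + 1) 8 (1 / 5) (by norm_num)
  obtain ⟨n4, h4⟩ := ev_pow (2 * U + 4) 512 (499 / 1000) (by norm_num)
  obtain ⟨n5, h5⟩ := ev_pow 0 (N0 + 1) (499 / 1000) (by norm_num)
  obtain ⟨n6, h6⟩ := ev_pow 0 2 (249 / 1000) (by norm_num)
  refine ⟨n1 + n2 + n3 + n4 + n5 + n6 + 1, fun N hN => ?_⟩
  have a1 := h1 N (by omega)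
  have a2 := h2 N (by omega)
  have a3 := h3 N (by omega)
  have a4 := h4 N (by omega)
  have a5 := h5 N (by omega)
  have a6 := h6 N (by omega)
  rw [pow_zero, mul_one] at a5 a6
  have hN1 : (1 : ℝ) ≤ N := by exact_mod_cast (show 1 ≤ N by omega)
  have hN0 : (0 : ℝ) < N := by linarith
  have hL1 : 1 ≤ Real.log N := by
    have : (0 : ℝ) < 4 ^ (K + 1) := by positivity
    have : (0 : ℝ) < 4 ^ (U + 5) := by positivity
    linarith
  have hZ : (N : ℝ) ^ (1 / 5 : ℝ) < ZZ N + 1 := Nat.lt_floor_add_one _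
  have hY : (N : ℝ) ^ (499 / 1000 : ℝ) < YY N + 1 := Nat.lt_floor_add_one _
  have p1 : 1 ≤ Real.log N ^ K := one_le_pow₀ hL1
  have p2 : 1 ≤ Real.log N ^ (U + 1) := one_le_pow₀ hL1
  have p3 : 1 ≤ Real.log N ^ (2 * U + 4) := one_le_pow₀ hL1
  refine ⟨hL1, ?_, ?_, by linarith, by linarith, by linarith, ?_, ?_, ?_⟩
  · have : (0 : ℝ) < 4 ^ (U + 5) := by positivity
    linarith
  · have : (0 : ℝ) < 4 ^ (K + 1) := by positivity
    linarith
  · have h7 : (N0 : ℝ) < YY N + 1 := by linarith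
    have h8 : N0 < YY N + 1 := by exact_mod_cast h7
    omega
  · unfold ZZ YY
    apply Nat.floor_mono
    exact Real.rpow_le_rpow_of_exponent_le hN1 (by norm_num)
  · have h7 : (N : ℝ) ^ (499 / 1000 : ℝ) = (N : ℝ) ^ (249 / 1000 : ℝ) * (N : ℝ) ^ (1 / 4 : ℝ) := by
      rw [← Real.rpow_add hN0]
      norm_num
    have h8 : 1 ≤ (N : ℝ) ^ (1 / 4 : ℝ) := Real.one_le_rpow hN1 (by norm_num)
    have h9 : (N : ℝ) ^ (1 / 4 : ℝ) ≤ YY N := by nlinarith
    have h10 : Real.log ((N : ℝ) ^ (1 / 4 : ℝ)) ≤ Real.log (YY N) := Real.log_le_log (by positivity) h9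
    rw [Real.log_rpow hN0] at h10
    linarith

theorem apg : ApgStm := by
  intro K U
  obtain ⟨N0, hlam⟩ := Pool.Agent.H373R2.T7.lam_ap (K + 1) (U + 3)
  obtain ⟨N₀, hpar⟩ := params K U (N0 + 1)
  refine ⟨N₀, fun N hN r hr hrL c y hy => ?_⟩
  obtain ⟨hL1, hK, hU, hZK, hZU, hYU, hY0, hZY, hL⟩ := hpar N hN
  have hrZ : r ≤ ZZ N := by exact_mod_cast hrL.trans hZK
  have hZ1 : 1 ≤ ZZ N := hr.trans hrZ
  have hY1 : 1 ≤ YY N := hZ1.trans hZY
  have hYr : (0 : ℝ) < YY N := by exact_mod_cast hY1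
  have hZr : (0 : ℝ) < ZZ N := by exact_mod_cast hZ1
  have hNn : (0 : ℝ) ≤ N := Nat.cast_nonneg N
  set L := Real.log N with hLd
  have hL0 : 0 < L := by linarith
  have hQ : 0 ≤ (N : ℝ) / L ^ U := by positivity
  by_cases hc : c.Coprime r
  · rw [if_pos hc, gr_sum hZY, Wt_sum hY1]
    have e1 : |∑ m ∈ mm N y, ∑ p ∈ AA N r c y m, Real.log p -
        (∑ m ∈ mm N y, ((y : ℝ) / m - YY N)) / (Nat.totient r : ℝ)| ≤
        (1 + L) * (2 * 4 ^ (U + 3) * N / L ^ (U + 3) + 2 * N / √(YY N : ℝ) * L) + N / YY N := by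
      rw [sum_div, ← sum_sub_distrib]
      refine (abs_sum_le_sum_abs _ _).trans ?_
      refine (sum_le_sum fun m hm => cls hlam (by omega) hY1 hL1 hL hK hr hrL hrZ hc hy hm).trans ?_
      rw [sum_add_distrib, ← sum_mul, sum_const, nsmul_eq_mul, mul_one]
      have h1 := mm_card hY1 hy
      have h2 := mm_inv hy
      have h3 : 0 ≤ 2 * 4 ^ (U + 3) * N / L ^ (U + 3) + 2 * N / √(YY N : ℝ) * L := by positivity
      have h4 := mul_le_mul_of_nonneg_right h2 h3
      linarith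
    have e2 := ex_sum (r := r) (c := c) hZ1 hy
    have e3 : 0 ≤ ∑ n ∈ RR N r c y, ex n := sum_nonneg fun n _ => ex_nonneg n
    have e4 : (N : ℝ) / ZZ N * L ≤ 1 / 4 * (N / L ^ U) := by
      rw [div_mul_eq_mul_div, div_le_iff₀ hZr]
      calc (N : ℝ) * L = (1 / 4 * (N / L ^ U)) * (4 * L ^ (U + 1)) := by
            rw [pow_succ]; field_simp
        _ ≤ _ := by
            apply mul_le_mul_of_nonneg_left hZU (by positivity)
    have hp : 1 ≤ L ^ (U + 4) := one_le_pow₀ hL1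
    have hp2 : L ^ U ≤ L ^ (2 * U + 4) := pow_le_pow_right₀ hL1 (by omega)
    have hp3 : 0 < L ^ U := by positivity
    have e5 : (N : ℝ) / YY N ≤ 1 / 4 * (N / L ^ U) := by
      rw [div_le_iff₀ hYr]
      calc (N : ℝ) = (1 / 4 * (N / L ^ U)) * (4 * L ^ U) := by field_simp
        _ ≤ _ := by
            apply mul_le_mul_of_nonneg_left _ (by positivity)
            linarith
    have e6 : 16 * L ^ (U + 2) ≤ √(YY N : ℝ) := by
      apply Real.le_sqrt_of_sq_le
      calc (16 * L ^ (U + 2)) ^ 2 = 256 * L ^ (2 * U + 4) := by ring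
        _ ≤ _ := hYU
    have hs0 : 0 < √(YY N : ℝ) := Real.sqrt_pos.2 hYr
    have e7 : (1 + L) * (2 * N / √(YY N : ℝ) * L) ≤ 1 / 4 * (N / L ^ U) := by
      calc (1 + L) * (2 * N / √(YY N : ℝ) * L) ≤ (2 * L) * (2 * N / √(YY N : ℝ) * L) := by
            apply mul_le_mul_of_nonneg_right _ (by positivity)
            linarith
        _ = 4 * N * L ^ 2 / √(YY N : ℝ) := by ring
        _ ≤ _ := by
            rw [div_le_iff₀ hs0]
            calc 4 * N * L ^ 2 = (1 / 4 * (N / L ^ U)) * (16 * L ^ (U + 2)) := by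
                  rw [pow_add]; field_simp; ring
              _ ≤ _ := by
                  apply mul_le_mul_of_nonneg_left e6 (by positivity)
    have e8 : (1 + L) * (2 * 4 ^ (U + 3) * N / L ^ (U + 3)) ≤ 1 / 4 * (N / L ^ U) := by
      calc (1 + L) * (2 * 4 ^ (U + 3) * N / L ^ (U + 3)) ≤ (2 * L) * (2 * 4 ^ (U + 3) * N / L ^ (U + 3)) := by
            apply mul_le_mul_of_nonneg_right _ (by positivity)
            linarith
        _ = (4 ^ (U + 5) / L ^ 2) * (1 / 4 * (N / L ^ U)) := by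
            rw [show U + 3 = U + 2 + 1 by ring, pow_succ L (U + 2), pow_add L U 2,
              show U + 5 = (U + 2 + 1) + 2 by ring, pow_add 4 (U + 2 + 1) 2]
            field_simp
            norm_num
            ring
        _ ≤ 1 * (1 / 4 * (N / L ^ U)) := by
            apply mul_le_mul_of_nonneg_right _ (by positivity)
            rw [div_le_one (by positivity)]
            nlinarith
        _ = _ := one_mul _
    rw [mul_add] at e1
    rw [abs_le] at e1 ⊢
    constructor <;> linarith [e1.1, e1.2]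
  · rw [if_neg hc, sub_zero]
    have h1 : ∑ n ∈ (Icc 1 y).filter (fun n => n ≡ c [MOD r]), gr N n = 0 := by
      apply sum_eq_zero
      intro n hn
      rw [mem_filter, mem_Icc] at hn
      unfold gr
      apply if_neg
      intro h
      apply hc
      have h2 : n.Coprime r := by
        by_contra hcon
        obtain ⟨l, hl, hlm, hlr⟩ := Nat.Prime.not_coprime_iff_dvd.1 hcon
        have h6 := h l (Nat.mem_primeFactors.2 ⟨hl, hlm, by omega⟩)
        have h7 := Nat.le_of_dvd (by omega) hlr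
        omega
      unfold Nat.Coprime
      rw [← hn.2.gcd_eq]
      exact h2
    rw [h1, abs_zero]
    exact hQ

end Pool.Agent.Helper34.GV
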