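import Pool.Agent.Helper34.GV.MG

set_option autoImplicit false

/-! Few primitive characters have a large sum with the function `gr`. -/

namespace Pool.Agent.Helper34.GV

open Finset
open Pool.Agent.Y883.GJ
open Pool.Agent.R460.GS (JJ cc JJ_le a1_le a2_le b1_le b2_le one_le_bd a1 a2 b1 b2 TiMaj2Stm)
open Pool.Agent.H807R2.Dav (ee)
open Pool.Agent.Y614.GJ.Core (ev_log)

open Classical in
theorem mG3 (h1 : L2Stm) (hT : TiMaj2Stm) (hP : TpMajStm) (hB3 : BilMaj3Stm) (hC3 : Count3Stm) : MG3Stm := by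
  intro U ρ hρ
  obtain ⟨A, hA⟩ : ∃ A, A = 2 * U := ⟨_, rfl⟩
  obtain ⟨K₂, K, N₁, hB'⟩ := hB3 (A + 4 + 2 * (A + 18) + 8) 0 ρ hρ
  obtain ⟨N₂, hG⟩ := gr_vec h1 A
  obtain ⟨N₃, hN₃⟩ := Filter.eventually_atTop.1 (ev_log (0 + A + 9) (s := 1 / 2000) (by norm_num) 16)
  obtain ⟨C₃, N₄, hcnt⟩ := hC3 K₂ K
  obtain ⟨N₅, hP'⟩ := hP 0 ρ hρ
  obtain ⟨N₆, hN₆⟩ := Filter.eventually_atTop.1 (ev_log (A + 8) (s := 3 / 10000) (by norm_num) 16)
  refine ⟨C₃ + A + 22, max (max (max N₁ N₂) (max (max N₃ N₄) 1)) (max N₅ N₆), fun N hN' Ψ hΨ => ?_⟩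
  have hN : max (max N₁ N₂) (max (max N₃ N₄) 1) ≤ N := le_trans (le_max_left _ _) hN'
  have hNN₅ : N₅ ≤ N := le_trans (le_trans (le_max_left _ _) (le_max_right _ _)) hN'
  have hNN₆ : N₆ ≤ N := le_trans (le_trans (le_max_right _ _) (le_max_right _ _)) hN'
  obtain ⟨-, hLp'⟩ := hN₆ N hNN₆
  have hNN₁ : N₁ ≤ N := le_trans (le_trans (le_max_left _ _) (le_max_left _ _)) hN
  have hNN₂ : N₂ ≤ N := le_trans (le_trans (le_max_right _ _) (le_max_left _ _)) hN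
  have hNN₃ : N₃ ≤ N := le_trans (le_trans (le_trans (le_max_left _ _) (le_max_left _ _)) (le_max_right _ _)) hN
  have hNN₄ : N₄ ≤ N := le_trans (le_trans (le_trans (le_max_right _ _) (le_max_left _ _)) (le_max_right _ _)) hN
  have hN1 : 1 ≤ N := le_trans (le_trans (le_max_right _ _) (le_max_right _ _)) hN
  obtain ⟨hL16, hLp⟩ := hN₃ N hNN₃
  have hN0 : (0 : ℝ) < N := by exact_mod_cast hN1
  have hNr1 : (1 : ℝ) ≤ N := by exact_mod_cast hN1
  have hJ := JJ_le (N := N) (U := A + 18) (by linarith)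
  have key : ∀ ψ ∈ Ψ, ∃ j ∈ range (JJ N (A + 18)),
      Bd N K₂ K (a1 (WW N) (ZZ N) (cc N (A + 18)) j) ψ.1 ψ.2 ∨
      Bd N K₂ K (a2 (WW N) (WW N) (cc N (A + 18)) j) ψ.1 ψ.2 := by
    rintro ⟨q, χ⟩ hψ
    obtain ⟨e1, e2, e3, y, hy, e4⟩ := hΨ ⟨q, χ⟩ hψ
    simp only at e1 e2 e3 e4 ⊢
    by_contra hcon
    push Not at hcon
    have : NeZero q := ⟨by omega⟩
    have hqN : (q : ℝ) ≤ N := by
      calc (q : ℝ) ≤ (N : ℝ) ^ (4 / 5 - ρ) := e2
        _ ≤ (N : ℝ) ^ (1 : ℝ) := Real.rpow_le_rpow_of_exponent_le hNr1 (by linarith)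
        _ = N := Real.rpow_one _
    have hS1 : (1 : DirichletCharacter ℂ q) ∉ ({χ} : Finset (DirichletCharacter ℂ q)) := by
      rw [mem_singleton]
      intro h
      rw [← h] at e3
      have h2 : (1 : DirichletCharacter ℂ q).conductor = q := e3
      rw [DirichletCharacter.conductor_one] at h2
      omega
    have hη : |(0 : ℝ)| ≤ Real.log N ^ 0 / N := by
      rw [abs_zero]
      positivity
    have hmain : ∑ χ' ∈ ({χ} : Finset (DirichletCharacter ℂ q)), ‖cs q y (GG N) 0 χ'‖ ^ 2 ≤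
        (N : ℝ) ^ 2 / Real.log N ^ A := by
      have hη0 : |(0 : ℝ)| * N ≤ Real.log N ^ 0 := by
        rw [abs_zero, zero_mul]
        positivity
      refine hG N hNN₂ q hqN {χ} 0 ?_ ?_ ?_ ?_ y hy
      · intro y hy
        exact ti_maj hT hS1 hη0 (by linarith) hN1
          (e2.trans (Real.rpow_le_rpow_of_exponent_le hNr1 (by linarith))) hLp hy
      · intro y hy
        refine (sum_le_sum fun d hd => hP' N hNN₅ q e2 {χ} hS1 0 hη d y (mem_Icc.1 hd).1 hy).trans ?_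
        exact tp_sum hN1 (by linarith) hLp'
      · intro y hy j hj b hb
        refine hB' N hNN₁ q e2 (a2 (WW N) (WW N) (cc N (A + 18)) j)
          (fun m hm => one_le_bd (by linarith) hm (a2_le _ _ _ _ _)) (fun m hm => supp_real (a2_supp hN1 hm))
          b (fun m hm => le_bd hm (hb m hm))
          0 hη y hy {χ} ?_
        intro χ' hχ'
        rw [mem_singleton] at hχ'
        rw [hχ']
        exact (hcon j hj).2
      · intro y hy j hj b hb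
        refine hB' N hNN₁ q e2 (a1 (WW N) (ZZ N) (cc N (A + 18)) j)
          (fun m hm => one_le_bd (by linarith) hm (a1_le _ _ _ _ _)) (fun m hm => supp_real (a1_supp hm))
          b (fun m hm => le_bd hm (hb m hm))
          0 hη y hy {χ} ?_
        intro χ' hχ'
        rw [mem_singleton] at hχ'
        rw [hχ']
        exact (hcon j hj).1
    rw [sum_singleton] at hmain
    have hcs : cs q y (GG N) 0 χ = ∑ n ∈ Icc 1 y, GG N n * χ (n : ZMod q) := by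
      unfold cs
      refine sum_congr rfl fun n _ => ?_
      rw [mul_zero, Pool.Agent.H807R2.Dav.ee_zero, mul_one]
    rw [hcs] at hmain
    have hL0 : 0 < Real.log N := by linarith
    have h5 : (N : ℝ) ^ 2 / Real.log N ^ A = (N / Real.log N ^ U) ^ 2 := by
      rw [hA, div_pow, ← pow_mul, mul_comm U 2]
    rw [h5] at hmain
    have h6 : 0 ≤ (N : ℝ) / Real.log N ^ U := by positivity
    have h7 := pow_lt_pow_left₀ e4 h6 two_ne_zero
    linarith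
  -- the number
  have hsub : Ψ ⊆ (range (JJ N (A + 18))).biUnion (fun j =>
      Ψ.filter (fun ψ => Bd N K₂ K (a1 (WW N) (ZZ N) (cc N (A + 18)) j) ψ.1 ψ.2) ∪
      Ψ.filter (fun ψ => Bd N K₂ K (a2 (WW N) (WW N) (cc N (A + 18)) j) ψ.1 ψ.2)) := by
    intro ψ hψ
    obtain ⟨j, hj, h⟩ := key ψ hψ
    rw [mem_biUnion]
    refine ⟨j, hj, ?_⟩
    rw [mem_union, mem_filter, mem_filter]
    rcases h with h | h
    · exact Or.inl ⟨hψ, h⟩
    · exact Or.inr ⟨hψ, h⟩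
  have hQ : ∀ ψ ∈ Ψ, 1 ≤ ψ.1 ∧ (ψ.1 : ℝ) ≤ (N : ℝ) ^ (4 / 5 : ℝ) ∧ ψ.2.IsPrimitive := by
    intro ψ hψ
    obtain ⟨e1, e2, e3, -⟩ := hΨ ψ hψ
    exact ⟨by omega, e2.trans (Real.rpow_le_rpow_of_exponent_le hNr1 (by linarith)), e3⟩
  have c1 : ∀ j, ((Ψ.filter (fun ψ => Bd N K₂ K (a1 (WW N) (ZZ N) (cc N (A + 18)) j) ψ.1 ψ.2)).card : ℝ) ≤
      Real.log N ^ C₃ := by
    intro j
    apply hcnt N hNN₄ (a1 (WW N) (ZZ N) (cc N (A + 18)) j)
      (fun m hm => one_le_bd (by linarith) hm (a1_le _ _ _ _ _)) (fun m hm => supp_real (a1_supp hm))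
    intro ψ hψ
    rw [mem_filter] at hψ
    obtain ⟨f1, f2, f3⟩ := hQ ψ hψ.1
    exact ⟨f1, f2, f3, hψ.2⟩
  have c2 : ∀ j, ((Ψ.filter (fun ψ => Bd N K₂ K (a2 (WW N) (WW N) (cc N (A + 18)) j) ψ.1 ψ.2)).card : ℝ) ≤
      Real.log N ^ C₃ := by
    intro j
    apply hcnt N hNN₄ (a2 (WW N) (WW N) (cc N (A + 18)) j)
      (fun m hm => one_le_bd (by linarith) hm (a2_le _ _ _ _ _)) (fun m hm => supp_real (a2_supp hN1 hm))
    intro ψ hψ
    rw [mem_filter] at hψ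
    obtain ⟨f1, f2, f3⟩ := hQ ψ hψ.1
    exact ⟨f1, f2, f3, hψ.2⟩
  have h4 := (card_le_card hsub).trans (card_biUnion_le.trans (sum_le_sum fun j _ => card_union_le _ _))
  have h5 : (Ψ.card : ℝ) ≤ ∑ j ∈ range (JJ N (A + 18)),
      (((Ψ.filter (fun ψ => Bd N K₂ K (a1 (WW N) (ZZ N) (cc N (A + 18)) j) ψ.1 ψ.2)).card : ℝ) +
       ((Ψ.filter (fun ψ => Bd N K₂ K (a2 (WW N) (WW N) (cc N (A + 18)) j) ψ.1 ψ.2)).card : ℝ)) := by
    exact_mod_cast h4
  refine h5.trans ((sum_le_sum fun j _ => add_le_add (c1 j) (c2 j)).trans ?_)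
  rw [sum_const, card_range, nsmul_eq_mul]
  obtain ⟨L, hLd⟩ : ∃ L, L = Real.log (N : ℝ) := ⟨_, rfl⟩
  rw [← hLd] at hJ hL16 ⊢
  have hL0 : 0 < L := by linarith
  calc (JJ N (A + 18) : ℝ) * (L ^ C₃ + L ^ C₃) ≤ L ^ (A + 18 + 2) * (L ^ C₃ + L ^ C₃) := by gcongr
    _ = 2 * (L ^ (A + 18 + 2) * L ^ C₃) := by ring
    _ ≤ L ^ 2 * (L ^ (A + 18 + 2) * L ^ C₃) := by
        gcongr
        nlinarith
    _ = L ^ (C₃ + A + 22) := by ring

end Pool.Agent.Helper34.GV
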