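import Pool.Agent.Helper34.GV.Fin

set_option autoImplicit false

/-! The error terms at the points of the grid, and the property `WinL`. -/

namespace Pool.Agent.Helper34.GV

open Finset
open Pool.Agent.H373R2.T7 (lamz Vz pz lamI lamzI Vz_pos)
open Pool.Agent.Y883.T3 (lsh)
open Pool.Agent.Y883.GJ
open Pool.Agent.H560R3.GB (sing)
open Pool.Agent.Y614.GJ.Core (ev_log)
open Pool.Agent.R460.GS (cv)
open Pool.Agent.Y883.T4 (badc class_le)

/-- the sum of the squares of the error terms at `y` -/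
noncomputable def Eq2 (N z r n y : ℕ) : ℝ :=
  ‖cv LA (f0 N z r) y N n‖ ^ 2 + ‖cv LA (f0 N z r) N y n‖ ^ 2 + ‖cv (GG N) (f0 N z r) N y n‖ ^ 2 +
    ‖cv (HH N z r) (f0 N z r) y N n‖ ^ 2

lemma Eq2_nn (N z r n y : ℕ) : 0 ≤ Eq2 N z r n y := by unfold Eq2; positivity

lemma not_small {N z r n y V : ℕ} (h : ¬ SmallE N z r n y V) (hL : 0 < Real.log N) :
    ((N : ℝ) / Real.log N ^ V) ^ 2 ≤ Eq2 N z r n y := by
  have hX : 0 ≤ (N : ℝ) / Real.log N ^ V := by positivity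
  unfold SmallE at h
  unfold Eq2
  have key : ∀ x : ℝ, ¬ x ≤ (N : ℝ) / Real.log N ^ V → ((N : ℝ) / Real.log N ^ V) ^ 2 ≤ x ^ 2 := by
    intro x hx
    rw [not_le] at hx
    exact pow_le_pow_left₀ hX hx.le 2
  by_contra hcon
  rw [not_le] at hcon
  apply h
  refine ⟨?_, ?_, ?_, ?_⟩
  all_goals
    by_contra hc
    have := key _ hc
    have p1 := sq_nonneg ‖cv LA (f0 N z r) y N n‖
    have p2 := sq_nonneg ‖cv LA (f0 N z r) N y n‖
    have p3 := sq_nonneg ‖cv (GG N) (f0 N z r) N y n‖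
    have p4 := sq_nonneg ‖cv (HH N z r) (f0 N z r) y N n‖
    linarith

lemma winL_mono {A B m : ℕ} (hAB : A ≤ B) (hm : 1 ≤ Real.log m) (h : WinL B m) : WinL A m := by
  intro y₁ y₂ h1 h2 h3
  refine h y₁ y₂ h1 h2 (le_trans ?_ h3)
  exact div_le_div_of_nonneg_left (Nat.cast_nonneg _) (by positivity) (pow_le_pow_right₀ hm hAB)

end Pool.Agent.Helper34.GV
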