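import Pool.Agent.Helper34.GV.GrVec
import Pool.Graph.R_seed8.R460.GS.MG

set_option autoImplicit false

/-! The function `gr` on the major arcs. -/

namespace Pool.Agent.Helper34.GV

open Finset
open Pool.Agent.Y883.GJ
open Pool.Agent.H807R2.Dav (ee)
open Pool.Agent.Y614.GJ.Core (ev_log)
open Pool.Agent.R460.GS (JJ cc JJ_le cc_lt a1_le a2_le b1_le b2_le one_le_bd a1 a2 b1 b2 TiMaj2Stm)

lemma supp_real {N m : ℕ} (h : WW N < m ∧ m ≤ ZZ N) :
    (N : ℝ) ^ (1 / 2000 : ℝ) ≤ 2 * m ∧ (m : ℝ) ≤ (N : ℝ) ^ (1 / 5 : ℝ) := by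
  obtain ⟨h1, h2⟩ := h
  constructor
  · have h3 : (N : ℝ) ^ (1 / 2000 : ℝ) < (WW N : ℝ) + 1 := Nat.lt_floor_add_one _
    have h4 : (WW N : ℝ) + 1 ≤ m := by exact_mod_cast h1
    have h5 : (0 : ℝ) ≤ m := Nat.cast_nonneg _
    linarith
  · have h3 : (ZZ N : ℝ) ≤ (N : ℝ) ^ (1 / 5 : ℝ) := Nat.floor_le (by positivity)
    have h4 : (m : ℝ) ≤ ZZ N := by exact_mod_cast h2
    linarith

lemma le_bd {N m : ℕ} (hm : m ∈ Icc 1 N) {z : ℂ} (hz : ‖z‖ ≤ Real.log N) :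
    ‖z‖ ≤ Real.log N * (m.divisors.card : ℝ) := by
  have h1 : (1 : ℝ) ≤ (m.divisors.card : ℝ) := by
    have : 0 < m.divisors.card := card_pos.2 ⟨1, Nat.one_mem_divisors.2 (by
      rw [mem_Icc] at hm
      omega)⟩
    exact_mod_cast this
  have h2 : 0 ≤ Real.log N := Real.log_natCast_nonneg N
  nlinarith

lemma ti_maj (hT : TiMaj2Stm) {q N C A y : ℕ} [NeZero q] {S : Finset (DirichletCharacter ℂ q)} {η : ℝ}
    (hS1 : (1 : DirichletCharacter ℂ q) ∉ S) (hη : |η| * N ≤ Real.log N ^ C) (hL16 : 16 ≤ Real.log N) (hN1 : 1 ≤ N)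
    (hq : (q : ℝ) ≤ (N : ℝ) ^ (4 / 5 : ℝ)) (hLp : Real.log N ^ (C + A + 9) ≤ (N : ℝ) ^ (1 / 2000 : ℝ)) (hy : y ≤ N) :
    ∑ d ∈ Icc 1 (WW N), ‖∑ b ∈ Icc 1 (y / d), ev S η (b * d)‖ ≤ N / Real.log N ^ (A + 8) := by
  have hN0 : (0 : ℝ) < N := by exact_mod_cast hN1
  have hNr1 : (1 : ℝ) ≤ N := by exact_mod_cast hN1
  have e1 : ∀ d ∈ Icc 1 (WW N), ‖∑ b ∈ Icc 1 (y / d), ev S η (b * d)‖ ≤
      16 * (q * Real.log N ^ C) := by
    intro d hd
    refine (hT q S hS1 η d (y / d)).trans ?_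
    have e2 : (d : ℝ) * ((y / d : ℕ) : ℝ) ≤ N := by
      have : d * (y / d) ≤ N := (Nat.mul_div_le _ _).trans hy
      exact_mod_cast this
    have e3 : |η| * ((d : ℝ) * ((y / d : ℕ) : ℝ)) ≤ Real.log N ^ C :=
      (mul_le_mul_of_nonneg_left e2 (abs_nonneg η)).trans hη
    have e4 : 1 ≤ Real.log N ^ C := one_le_pow₀ (by linarith)
    have e5 : 1 + 7 * |η| * ((d : ℝ) * ((y / d : ℕ) : ℝ)) ≤ 8 * Real.log N ^ C := by linarith
    calc 2 * (q : ℝ) * (1 + 7 * |η| * ((d : ℝ) * ((y / d : ℕ) : ℝ))) ≤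
        2 * (q : ℝ) * (8 * Real.log N ^ C) := by gcongr
      _ = _ := by ring
  refine (sum_le_sum e1).trans ?_
  rw [sum_const, Nat.card_Icc, Nat.add_sub_cancel, nsmul_eq_mul]
  have e2 : (WW N : ℝ) ≤ (N : ℝ) ^ (1 / 2000 : ℝ) := Nat.floor_le (by positivity)
  obtain ⟨L, hLd⟩ : ∃ L, L = Real.log (N : ℝ) := ⟨_, rfl⟩
  rw [← hLd] at hL16 hLp ⊢
  have hL0 : 0 < L := by linarith
  rw [le_div_iff₀ (by positivity)]
  calc (WW N : ℝ) * (16 * (q * L ^ C)) * L ^ (A + 8)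
      ≤ (N : ℝ) ^ (1 / 2000 : ℝ) * (16 * ((N : ℝ) ^ (4 / 5 : ℝ) * L ^ C)) * L ^ (A + 8) := by
        gcongr
    _ = ((N : ℝ) ^ (1 / 2000 : ℝ) * (N : ℝ) ^ (4 / 5 : ℝ)) * (16 * (L ^ C * L ^ (A + 8))) := by ring
    _ ≤ ((N : ℝ) ^ (1 / 2000 : ℝ) * (N : ℝ) ^ (4 / 5 : ℝ)) * (N : ℝ) ^ (1 / 2000 : ℝ) := by
        have : 16 * (L ^ C * L ^ (A + 8)) ≤ (N : ℝ) ^ (1 / 2000 : ℝ) := by
          refine le_trans ?_ hLp
          calc 16 * (L ^ C * L ^ (A + 8)) ≤ L * (L ^ C * L ^ (A + 8)) := by gcongr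
            _ = L ^ (C + A + 9) := by ring
        gcongr
    _ = (N : ℝ) ^ (801 / 1000 : ℝ) := by
        rw [← Real.rpow_add hN0, ← Real.rpow_add hN0]
        norm_num
    _ ≤ (N : ℝ) ^ (1 : ℝ) := Real.rpow_le_rpow_of_exponent_le hNr1 (by norm_num)
    _ = N := Real.rpow_one _

lemma tp_sum {N A : ℕ} (hN1 : 1 ≤ N) (hL16 : 16 ≤ Real.log N)
    (hLp : Real.log N ^ (A + 8) ≤ (N : ℝ) ^ (3 / 10000 : ℝ)) :
    ∑ _d ∈ Icc 1 (WW N), (N : ℝ) ^ (9992 / 10000 : ℝ) ≤ N / Real.log N ^ (A + 8) := by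
  have hN0 : (0 : ℝ) < N := by exact_mod_cast hN1
  rw [sum_const, Nat.card_Icc, Nat.add_sub_cancel, nsmul_eq_mul]
  have e2 : (WW N : ℝ) ≤ (N : ℝ) ^ (1 / 2000 : ℝ) := Nat.floor_le (by positivity)
  rw [le_div_iff₀ (by positivity)]
  calc (WW N : ℝ) * (N : ℝ) ^ (9992 / 10000 : ℝ) * Real.log N ^ (A + 8)
      ≤ (N : ℝ) ^ (1 / 2000 : ℝ) * (N : ℝ) ^ (9992 / 10000 : ℝ) * (N : ℝ) ^ (3 / 10000 : ℝ) := by gcongr
    _ = N := by
        rw [← Real.rpow_add hN0, ← Real.rpow_add hN0]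
        norm_num

open Classical in
theorem mG (h1 : L2Stm) (hB : BilMaj2Stm) (hT : TiMaj2Stm) (hP : TpMajStm) : MGStm := by
  intro A C ρ hρ
  obtain ⟨C', N₁, hB'⟩ := hB (A + 4 + 2 * (A + 18) + 8) C ρ hρ
  obtain ⟨N₂, hG⟩ := gr_vec h1 A
  obtain ⟨N₃, hN₃⟩ := Filter.eventually_atTop.1 (ev_log (C + A + 9) (s := 1 / 2000) (by norm_num) 16)
  obtain ⟨N₅, hP'⟩ := hP C ρ hρ
  obtain ⟨N₆, hN₆⟩ := Filter.eventually_atTop.1 (ev_log (A + 8) (s := 3 / 10000) (by norm_num) 16)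
  refine ⟨C' + A + 22, max (max (max N₁ N₂) (max N₃ 1)) (max N₅ N₆), fun N hN' q _ hq => ?_⟩
  have hN : max (max N₁ N₂) (max N₃ 1) ≤ N := le_trans (le_max_left _ _) hN'
  have hNN₅ : N₅ ≤ N := le_trans (le_trans (le_max_left _ _) (le_max_right _ _)) hN'
  have hNN₆ : N₆ ≤ N := le_trans (le_trans (le_max_right _ _) (le_max_right _ _)) hN'
  obtain ⟨-, hLp'⟩ := hN₆ N hNN₆
  have hNN₁ : N₁ ≤ N := le_trans (le_trans (le_max_left _ _) (le_max_left _ _)) hN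
  have hNN₂ : N₂ ≤ N := le_trans (le_trans (le_max_right _ _) (le_max_left _ _)) hN
  have hNN₃ : N₃ ≤ N := le_trans (le_trans (le_max_left _ _) (le_max_right _ _)) hN
  have hN1 : 1 ≤ N := le_trans (le_trans (le_max_right _ _) (le_max_right _ _)) hN
  obtain ⟨hL16, hLp⟩ := hN₃ N hNN₃
  have hN0 : (0 : ℝ) < N := by exact_mod_cast hN1
  have hNr1 : (1 : ℝ) ≤ N := by exact_mod_cast hN1
  have hqN : (q : ℝ) ≤ N := by
    calc (q : ℝ) ≤ (N : ℝ) ^ (4 / 5 - ρ) := hq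
      _ ≤ (N : ℝ) ^ (1 : ℝ) := Real.rpow_le_rpow_of_exponent_le hNr1 (by linarith)
      _ = N := Real.rpow_one _
  have hJ := JJ_le (N := N) (U := A + 18) (by linarith)
  have hb1 := fun j => hB' N hNN₁ q hq (a1 (WW N) (ZZ N) (cc N (A + 18)) j)
    (fun m hm => one_le_bd (by linarith) hm (a1_le _ _ _ _ _)) (fun m hm => supp_real (a1_supp hm))
  have hb2 := fun j => hB' N hNN₁ q hq (a2 (WW N) (WW N) (cc N (A + 18)) j)
    (fun m hm => one_le_bd (by linarith) hm (a2_le _ _ _ _ _)) (fun m hm => supp_real (a2_supp hN1 hm))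
  choose B1 hB1c hB1 using hb1
  choose B2 hB2c hB2 using hb2
  refine ⟨insert 1 ((range (JJ N (A + 18))).biUnion (fun j => B1 j ∪ B2 j)), mem_insert_self _ _, ?_, ?_⟩
  · have e1 : (insert 1 ((range (JJ N (A + 18))).biUnion (fun j => B1 j ∪ B2 j))).card ≤
        ∑ j ∈ range (JJ N (A + 18)), ((B1 j).card + (B2 j).card) + 1 := by
      refine (card_insert_le _ _).trans (Nat.add_le_add_right ?_ 1)
      exact card_biUnion_le.trans (sum_le_sum fun j _ => card_union_le _ _)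
    have e2 : ((insert 1 ((range (JJ N (A + 18))).biUnion (fun j => B1 j ∪ B2 j))).card : ℝ) ≤
        ∑ j ∈ range (JJ N (A + 18)), (((B1 j).card : ℝ) + (B2 j).card) + 1 := by exact_mod_cast e1
    refine e2.trans ?_
    obtain ⟨L, hLd⟩ : ∃ L, L = Real.log (N : ℝ) := ⟨_, rfl⟩
    rw [← hLd] at hB1c hB2c hJ hL16 ⊢
    have hL0 : 0 < L := by linarith
    have hL1 : 1 ≤ L := by linarith
    calc ∑ j ∈ range (JJ N (A + 18)), (((B1 j).card : ℝ) + (B2 j).card) + 1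
        ≤ ∑ j ∈ range (JJ N (A + 18)), (L ^ C' + L ^ C') + 1 := by
          gcongr with j hj
          · exact hB1c j
          · exact hB2c j
      _ = (JJ N (A + 18) : ℝ) * (2 * L ^ C') + 1 := by
          rw [sum_const, card_range, nsmul_eq_mul]
          ring
      _ ≤ L ^ (A + 18 + 2) * (2 * L ^ C') + 1 := by gcongr
      _ ≤ L ^ (A + 18 + 2) * (2 * L ^ C') + L ^ (A + 18 + 2) * L ^ C' := by
          have : 1 ≤ L ^ (A + 18 + 2) * L ^ C' :=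
            one_le_mul_of_one_le_of_one_le (one_le_pow₀ hL1) (one_le_pow₀ hL1)
          linarith
      _ = 3 * (L ^ (A + 18 + 2) * L ^ C') := by ring
      _ ≤ L ^ 2 * (L ^ (A + 18 + 2) * L ^ C') := by
          gcongr
          nlinarith
      _ = L ^ (C' + A + 22) := by ring
  · intro η hη y hy S hS
    have hS1 : (1 : DirichletCharacter ℂ q) ∉ S := fun h =>
      disjoint_left.1 hS h (mem_insert_self _ _)
    have hSj : ∀ j ∈ range (JJ N (A + 18)), Disjoint S (B1 j) ∧ Disjoint S (B2 j) := by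
      intro j hj
      constructor
      · refine Disjoint.mono_right (fun χ hχ => ?_) hS
        rw [mem_insert, mem_biUnion]
        exact Or.inr ⟨j, hj, mem_union_left _ hχ⟩
      · refine Disjoint.mono_right (fun χ hχ => ?_) hS
        rw [mem_insert, mem_biUnion]
        exact Or.inr ⟨j, hj, mem_union_right _ hχ⟩
    have hηN : |η| * N ≤ Real.log N ^ C := by
      calc |η| * N ≤ (Real.log N ^ C / N) * N := mul_le_mul_of_nonneg_right hη hN0.le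
        _ = Real.log N ^ C := by field_simp
    apply hG N hNN₂ q hqN S η
    · intro y hy
      exact ti_maj hT hS1 hηN (by linarith) hN1 (hq.trans (Real.rpow_le_rpow_of_exponent_le hNr1 (by linarith)))
        hLp hy
    · intro y hy
      refine (sum_le_sum fun d hd => hP' N hNN₅ q hq S hS1 η hη d y (mem_Icc.1 hd).1 hy).trans ?_
      exact tp_sum hN1 (by linarith) hLp'
    · intro y hy j hj b hb
      exact hB2 j b (fun m hm => le_bd hm (hb m hm)) η hη y hy S (hSj j hj).2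
    · intro y hy j hj b hb
      exact hB1 j b (fun m hm => le_bd hm (hb m hm)) η hη y hy S (hSj j hj).1
    · exact hy

end Pool.Agent.Helper34.GV
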