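import Pool.Agent.Helper34.GV.Stm
import Pool.Graph.R_seed8.R460.GS.Base
import Pool.Graph.R_seed8.Y689.GJ.MajH

set_option autoImplicit false

/-! Project GS (jobs MH, NH, helper462): the sieve model times the density of the rough numbers, on the
major and on the minor arcs. -/

namespace Pool.Agent.Helper34.GV

open Finset
open Pool.Agent.Y883.GJ Pool.Agent.R460.GS
open Pool.Agent.H807R2.Dav (ee)
open Pool.Agent.H373R2.T7 (Vz)
open Pool.Agent.Y883.T3 (lsh)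

lemma csm {ι : Type} [Fintype ι] (x : ℝ) (v : EuclideanSpace ℂ ι) : ((x : ℝ) : ℂ) • v = x • v := by
  ext i
  simp

lemma evlog (k : ℕ) (c a : ℝ) (ha : 0 < a) :
    ∃ x0 : ℕ, ∀ x : ℕ, x0 ≤ x → c * Real.log x ^ k ≤ (x : ℝ) ^ a := by
  have h := (isLittleO_log_rpow_rpow_atTop (k : ℝ) ha).bound (show 0 < 1 / (|c| + 1) by positivity)
  have h2 := (tendsto_natCast_atTop_atTop (R := ℝ)).eventually h
  obtain ⟨x0, hx0⟩ := Filter.eventually_atTop.1 h2
  refine ⟨max x0 1, fun x hx => ?_⟩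
  have h3 := hx0 x (le_trans (le_max_left _ _) hx)
  have hx1 : (1 : ℝ) ≤ x := by exact_mod_cast (le_trans (le_max_right _ _) hx)
  have hl : 0 ≤ Real.log x := Real.log_nonneg hx1
  rw [Real.norm_of_nonneg (by positivity), Real.norm_of_nonneg (by positivity), Real.rpow_natCast] at h3
  have h4 : c ≤ |c| + 1 := by have := le_abs_self c; linarith
  calc c * Real.log x ^ k ≤ (|c| + 1) * Real.log x ^ k := mul_le_mul_of_nonneg_right h4 (by positivity)
    _ ≤ (|c| + 1) * (1 / (|c| + 1) * (x : ℝ) ^ a) := mul_le_mul_of_nonneg_left h3 (by positivity)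
    _ = (x : ℝ) ^ a := by field_simp

lemma evL (c : ℝ) : ∃ x0 : ℕ, ∀ x : ℕ, x0 ≤ x → c ≤ Real.log (x : ℝ) := by
  have h := (Real.tendsto_log_atTop.comp (tendsto_natCast_atTop_atTop (R := ℝ))).eventually_ge_atTop c
  obtain ⟨x0, hx0⟩ := Filter.eventually_atTop.1 h
  exact ⟨x0, hx0⟩

/-- the model times the density, from bounds for the smooth sums -/
lemma key {q : ℕ} [NeZero q] (h2 : LshStm) (S : Finset (DirichletCharacter ℂ q)) (β : ℝ) (N z r : ℕ)
    (c T : ℝ) (hc0 : ∀ n, 0 ≤ Wt N n) (hc1 : ∀ n, n ≤ N → Wt N n ≤ c)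
    (hc2 : ∑ n ∈ range N, |Wt N (n + 1) - Wt N n| ≤ c)
    (Y : ℕ → ℝ) (hY : ∀ d ∈ Icc 1 ((z + 1) ^ r), ∀ y : ℕ, y ≤ N / d →
      ‖∑ b ∈ Icc 1 y, ev S β (b * d)‖ ≤ Y d)
    (hT : (Vz z)⁻¹ * (∑ d ∈ Icc 1 ((z + 1) ^ r), Y d) * (c + c) ≤ T)
    (y : ℕ) (hy : y ≤ N) :
    ∑ χ ∈ S, ‖cs q y (fun n => ((Wt N n * lsh z r n : ℝ) : ℂ)) β χ‖ ^ 2 ≤ T ^ 2 := by
  have hcc : 0 ≤ c := (hc0 0).trans (hc1 0 (Nat.zero_le _))
  have h3 : ‖∑ n ∈ Icc 1 y, ((Wt N n : ℝ) : ℂ) • (lsh z r n • ev S β n)‖ ≤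
      (Vz z)⁻¹ * (∑ d ∈ Icc 1 ((z + 1) ^ r), Y d) * (c + c) := by
    refine abelIBV (fun n => lsh z r n • ev S β n) (fun n => ((Wt N n : ℝ) : ℂ)) _ c c y ?_ ?_ ?_ hcc
    · intro m hm
      exact h2 _ (fun n => ev S β n) m z r Y
        (fun d hd => hY d hd (m / d) (Nat.div_le_div_right (hm.trans hy)))
    · intro n hn
      rw [mem_Icc] at hn
      rw [Complex.norm_real, Real.norm_of_nonneg (hc0 n)]
      exact hc1 n (hn.2.trans hy)
    · refine le_trans ?_ hc2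
      have h4 : ∑ i ∈ range y, ‖((Wt N (i + 1) : ℝ) : ℂ) - ((Wt N i : ℝ) : ℂ)‖ =
          ∑ i ∈ range y, |Wt N (i + 1) - Wt N i| := by
        refine sum_congr rfl fun i _ => ?_
        rw [← Complex.ofReal_sub, Complex.norm_real, Real.norm_eq_abs]
      rw [h4]
      exact sum_le_sum_of_subset_of_nonneg (range_mono hy) fun _ _ _ => abs_nonneg _
  have h5 : ∑ n ∈ Icc 1 y, ((Wt N n : ℝ) : ℂ) • (lsh z r n • ev S β n) =
      ∑ n ∈ Icc 1 y, (Wt N n * lsh z r n) • ev S β n := by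
    refine sum_congr rfl fun n _ => ?_
    rw [csm, smul_smul]
  rw [h5] at h3
  have h6 := Pool.Agent.Y689.GJ.norm_sq_ev S β y (fun n => Wt N n * lsh z r n)
  rw [← h6]
  exact pow_le_pow_left₀ (norm_nonneg _) (h3.trans hT) 2

lemma D_le {N D : ℕ} (h : ((D ^ 100 : ℕ) : ℝ) ≤ N) : (D : ℝ) ≤ (N : ℝ) ^ (1 / 100 : ℝ) := by
  have e : (D : ℝ) = ((D : ℝ) ^ 100) ^ (1 / 100 : ℝ) := by
    have h3 := Real.pow_rpow_inv_natCast (Nat.cast_nonneg (α := ℝ) D) (n := 100) (by norm_num)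
    push_cast at h3
    rw [one_div]
    exact h3.symm
  rw [e]
  push_cast at h
  exact Real.rpow_le_rpow (by positivity) h (by norm_num)

/-- MH: the sieve model on the major arcs -/
theorem mH (h1 : TiMaj2Stm) (h2 : LshStm) (h3 : WtbStm) : MHStm := by
  obtain ⟨c, M₀, hc⟩ := h3
  intro A C ρ hρ
  obtain ⟨n1, hn1⟩ := evlog (A + C + 1) (32 * c) (19 / 100) (by norm_num)
  obtain ⟨n2, hn2⟩ := evL 1
  refine ⟨max (max n1 n2) (max M₀ 1), fun N hN q _ hq z r hD hV η hη y hy S hS => ?_⟩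
  have e1 := hn1 N (le_trans (le_trans (le_max_left _ _) (le_max_left _ _)) hN)
  have e2 := hn2 N (le_trans (le_trans (le_max_right _ _) (le_max_left _ _)) hN)
  obtain ⟨hc0, hc1, hc2⟩ := hc N (le_trans (le_trans (le_max_left _ _) (le_max_right _ _)) hN)
  have hN1 : 1 ≤ N := le_trans (le_trans (le_max_right _ _) (le_max_right _ _)) hN
  have hNr : (1 : ℝ) ≤ N := by exact_mod_cast hN1
  have hN0 : (0 : ℝ) < N := by linarith
  have hcc : 0 ≤ c := (hc0 0).trans (hc1 0 (Nat.zero_le _))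
  obtain ⟨L, hLd⟩ : ∃ L, L = Real.log (N : ℝ) := ⟨_, rfl⟩
  rw [← hLd] at hV hη e1 e2 ⊢
  have hL0 : 0 < L := by linarith
  have hq1 : (q : ℝ) ≤ (N : ℝ) ^ (4 / 5 : ℝ) :=
    hq.trans (Real.rpow_le_rpow_of_exponent_le hNr (by linarith))
  have hηN : |η| * N ≤ L ^ C := by rwa [le_div_iff₀ hN0] at hη
  have hD1 := D_le hD
  have hLC : 1 ≤ L ^ C := one_le_pow₀ e2
  have hLA : 1 ≤ L ^ A := one_le_pow₀ e2
  obtain ⟨Y, hY⟩ : ∃ Y : ℝ, Y = 2 * q * (1 + 7 * (|η| * N)) := ⟨_, rfl⟩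
  have hY0 : 0 ≤ Y := by rw [hY]; positivity
  have hYle : Y ≤ 2 * (N : ℝ) ^ (4 / 5 : ℝ) * (8 * L ^ C) := by
    rw [hY]
    have h4 : 1 + 7 * (|η| * N) ≤ 8 * L ^ C := by linarith
    gcongr
  have hk := key h2 S η N z r c (N / L ^ A) hc0 hc1 hc2 (fun _ => Y) (by
      intro d hd y' hy'
      refine (h1 q S hS η d y').trans ?_
      rw [hY]
      have h6 : ((d : ℝ) * (y' : ℝ)) ≤ N := by
        have h7 : d * y' ≤ N := (Nat.mul_le_mul_left d hy').trans (Nat.mul_div_le N d)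
        exact_mod_cast h7
      have h7 : 7 * |η| * ((d : ℝ) * (y' : ℝ)) ≤ 7 * (|η| * N) := by
        have : |η| * ((d : ℝ) * (y' : ℝ)) ≤ |η| * N := mul_le_mul_of_nonneg_left h6 (abs_nonneg _)
        linarith
      refine mul_le_mul_of_nonneg_left ?_ (by positivity)
      linarith) (by
      rw [sum_const, Nat.card_Icc, Nat.add_sub_cancel, nsmul_eq_mul, le_div_iff₀ (by positivity)]
      have h8 : (0 : ℝ) ≤ (((z + 1) ^ r : ℕ) : ℝ) * Y := by positivity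
      calc (Vz z)⁻¹ * ((((z + 1) ^ r : ℕ) : ℝ) * Y) * (c + c) * L ^ A
          ≤ L * ((((z + 1) ^ r : ℕ) : ℝ) * Y) * (c + c) * L ^ A := by gcongr
        _ ≤ L * ((N : ℝ) ^ (1 / 100 : ℝ) * (2 * (N : ℝ) ^ (4 / 5 : ℝ) * (8 * L ^ C))) * (c + c) * L ^ A := by
            gcongr
        _ = (32 * c * L ^ (A + C + 1)) * ((N : ℝ) ^ (1 / 100 : ℝ) * (N : ℝ) ^ (4 / 5 : ℝ)) := by
            rw [pow_add, pow_add, pow_one]
            ring
        _ ≤ (N : ℝ) ^ (19 / 100 : ℝ) * ((N : ℝ) ^ (1 / 100 : ℝ) * (N : ℝ) ^ (4 / 5 : ℝ)) := by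
            gcongr
        _ = N := by
            rw [← Real.rpow_add hN0, ← Real.rpow_add hN0]
            norm_num) y hy
  refine hk.trans ?_
  rw [div_pow]
  refine div_le_div_of_nonneg_left (by positivity) (by positivity) ?_
  rw [← pow_mul]
  exact pow_le_pow_right₀ e2 (by omega)

/-- NH: the sieve model on the minor arcs -/
theorem nH (h1 : TiMinStm) (h2 : LshStm) (h3 : WtbStm) : NHStm := by
  obtain ⟨K0, hK⟩ := h1
  obtain ⟨c, M₀, hc⟩ := h3
  intro A ρ hρ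
  obtain ⟨C, hC⟩ : ∃ C, C = A + 4 := ⟨_, rfl⟩
  obtain ⟨K, hKd⟩ : ∃ K, K = |K0| + 1 := ⟨_, rfl⟩
  have hK1 : 1 ≤ K := by
    rw [hKd]
    have := abs_nonneg K0
    linarith
  have hK0K : K0 ≤ K := by
    rw [hKd]
    have := le_abs_self K0
    linarith
  obtain ⟨n1, hn1⟩ := evlog C 1 (19 / 100) (by norm_num)
  obtain ⟨n2, hn2⟩ := evL (24 * K * c + 1)
  obtain ⟨n3, hn3⟩ := evL 1
  refine ⟨C, max (max n1 n2) (max (max n3 M₀) 1), fun N hN z r hD hV q _ hq k h β hk1 hk2 hcop hβ y hy => ?_⟩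
  have e1 := hn1 N (le_trans (le_trans (le_max_left _ _) (le_max_left _ _)) hN)
  have e2 := hn2 N (le_trans (le_trans (le_max_right _ _) (le_max_left _ _)) hN)
  have e3 := hn3 N (le_trans (le_trans (le_max_left _ _) (le_trans (le_max_left _ _) (le_max_right _ _))) hN)
  obtain ⟨hc0, hc1, hc2⟩ := hc N
    (le_trans (le_trans (le_max_right _ _) (le_trans (le_max_left _ _) (le_max_right _ _))) hN)
  have hN1 : 1 ≤ N := le_trans (le_trans (le_max_right _ _) (le_max_right _ _)) hN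
  have hNr : (1 : ℝ) ≤ N := by exact_mod_cast hN1
  have hN0 : (0 : ℝ) < N := by linarith
  have hcc : 0 ≤ c := (hc0 0).trans (hc1 0 (Nat.zero_le _))
  obtain ⟨L, hLd⟩ : ∃ L, L = Real.log (N : ℝ) := ⟨_, rfl⟩
  rw [← hLd] at hV hk1 hk2 e1 e2 e3 ⊢
  have hL0 : 0 < L := by linarith
  have hLC0 : 0 < L ^ C := by positivity
  have hLC : 1 ≤ L ^ C := one_le_pow₀ e3
  have hq0 : 1 ≤ q := Nat.pos_of_ne_zero (NeZero.ne q)
  have hqr : (1 : ℝ) ≤ q := by exact_mod_cast hq0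
  have hq1 : (q : ℝ) ≤ (N : ℝ) ^ (4 / 5 : ℝ) :=
    hq.trans (Real.rpow_le_rpow_of_exponent_le hNr (by linarith))
  have hkpos : (0 : ℝ) < k := by linarith
  have hk : 1 ≤ k := by exact_mod_cast hkpos
  have hkr : (1 : ℝ) ≤ k := by exact_mod_cast hk
  have hkN : k ≤ N := by
    have : (k : ℝ) ≤ N := by
      calc (k : ℝ) = 1 * k * 1 := by ring
        _ ≤ q * k * L ^ C := by gcongr
        _ ≤ N := hk2
    exact_mod_cast this
  have hqN : q ≤ N := by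
    have : (q : ℝ) ≤ N := by
      calc (q : ℝ) = q * 1 * 1 := by ring
        _ ≤ q * k * L ^ C := by gcongr
        _ ≤ N := hk2
    exact_mod_cast this
  obtain ⟨D, hDd⟩ : ∃ D, D = (z + 1) ^ r := ⟨_, rfl⟩
  have hD1 : 1 ≤ D := by
    rw [hDd]
    exact Nat.one_le_pow _ _ (by omega)
  rw [← hDd] at hD
  have hDN : D ≤ N := by
    have i1 : D ^ 100 ≤ N := by exact_mod_cast hD
    exact (Nat.le_self_pow (by norm_num) D).trans i1
  have hD2 := D_le hD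
  obtain ⟨R, hR⟩ : ∃ R, R = (N : ℝ) / L ^ C := ⟨_, rfl⟩
  have hR0 : 0 < R := by rw [hR]; positivity
  have t1 : (q : ℝ) * D ≤ R := by
    rw [hR, le_div_iff₀ hLC0]
    calc (q : ℝ) * D * L ^ C ≤ (N : ℝ) ^ (4 / 5 : ℝ) * (N : ℝ) ^ (1 / 100 : ℝ) * (N : ℝ) ^ (19 / 100 : ℝ) := by
          gcongr
          linarith
      _ = N := by
          rw [← Real.rpow_add hN0, ← Real.rpow_add hN0]
          norm_num
  have t2 : (N : ℝ) / k ≤ R := by
    rw [hR]
    exact div_le_div_of_nonneg_left hN0.le hLC0 hk1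
  have t4 : (q : ℝ) * k ≤ R := by
    rw [hR, le_div_iff₀ hLC0]
    exact hk2
  obtain ⟨Y, hY1, hY2⟩ := hK q N D k h β hD1 hDN hqN hk hkN hcop hβ
  rw [← hLd] at hY2
  have hY3 : ∑ d ∈ Icc 1 D, Y d ≤ 12 * K * L ^ 2 * R := by
    refine hY2.trans ?_
    have h1 : (0 : ℝ) ≤ (N : ℝ) / k + q * D + q * k := by positivity
    calc K0 * ((N : ℝ) / k + q * D + q * k) * (1 + L) ^ 2 ≤
          K * ((N : ℝ) / k + q * D + q * k) * (1 + L) ^ 2 := by gcongr
      _ ≤ K * (3 * R) * (2 * L) ^ 2 := by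
          gcongr
          · linarith
          · linarith
      _ = 12 * K * L ^ 2 * R := by ring
  have hY0 : 0 ≤ ∑ d ∈ Icc 1 D, Y d :=
    sum_nonneg fun d hd => (norm_nonneg _).trans (hY1 d hd 0 (Nat.zero_le _))
  have hkk := key h2 (univ : Finset (DirichletCharacter ℂ q)) β N z r c (N / L ^ A) hc0 hc1 hc2 Y
    (by rw [← hDd]; exact hY1) (by
      rw [← hDd, le_div_iff₀ (by positivity)]
      calc (Vz z)⁻¹ * (∑ d ∈ Icc 1 D, Y d) * (c + c) * L ^ A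
          ≤ L * (∑ d ∈ Icc 1 D, Y d) * (c + c) * L ^ A := by gcongr
        _ ≤ L * (12 * K * L ^ 2 * R) * (c + c) * L ^ A := by gcongr
        _ = (24 * K * c) * (L ^ (A + 3) * R) := by
            rw [pow_add]
            ring
        _ ≤ L * (L ^ (A + 3) * R) := by
            gcongr
            linarith
        _ = L ^ C * R := by
            rw [hC, pow_succ L (A + 3)]
            ring
        _ = N := by
            rw [hR]
            field_simp) y hy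
  refine hkk.trans ?_
  rw [div_pow]
  refine div_le_div_of_nonneg_left (by positivity) (by positivity) ?_
  rw [← pow_mul]
  exact pow_le_pow_right₀ e3 (by omega)

end Pool.Agent.Helper34.GV
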