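import Pool.Agent.Helper34.GV.MG
import Pool.Graph.R_seed8.R460.GS.NG

set_option autoImplicit false

/-! The function `gr` on the minor arcs. -/

namespace Pool.Agent.Helper34.GV

open Finset
open Pool.Agent.Y883.GJ
open Pool.Agent.H807R2.Dav (ee)
open Pool.Agent.Y614.GJ.Core (ev_log)
open Pool.Agent.R460.GS (JJ cc a1_le a2_le b1_le b2_le a1 a2 b1 b2 dyad_bil norm_sq_range log2_le)

/-- the bilinear sums on the minor arcs -/
lemma bil_min {K : ℝ} (hK : ∀ (q N M r : ℕ) [NeZero q] (h : ℤ) (β : ℝ) (a b : ℕ → ℂ), 1 ≤ M → M ≤ N →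
    1 ≤ r → IsCoprime h (r : ℤ) → |q * β - h / r| ≤ 1 / (r : ℝ) ^ 2 →
    ‖∑ m ∈ Ioc M (2 * M), ∑ k ∈ Icc 1 (N / m),
      (a m * b k) • ev (univ : Finset (DirichletCharacter ℂ q)) β (m * k)‖ ^ 2 ≤
    K * (∑ m ∈ Ioc M (2 * M), ‖a m‖ ^ 2) * (∑ k ∈ Icc 1 (N / M), ‖b k‖ ^ 2) *
      (q * (M + (N : ℝ) / (q * r) + (N : ℝ) / (q * M) + r) * (1 + Real.log r)))
    {q N y r C A' : ℕ} [NeZero q] {h : ℤ} {β L X : ℝ} {a b : ℕ → ℂ} (hL : L = Real.log N) (hN : 1 ≤ N)
    (hy : y ≤ N) (ha : ∀ m, a m ≠ 0 → WW N < m ∧ m ≤ ZZ N) (ha1 : ∀ m, ‖a m‖ ≤ 1) (hb1 : ∀ m ∈ Icc 1 N, ‖b m‖ ≤ L)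
    (hr1 : 1 ≤ r) (hrN : r ≤ N) (hcop : IsCoprime h (r : ℤ)) (hβ : |q * β - h / r| ≤ 1 / (r : ℝ) ^ 2)
    (hX : X = N / L ^ C) (hKL : 72 * |K| ≤ L) (hL1 : 1 ≤ L) (hCA : C = A' + 6)
    (hqZ : (q : ℝ) * ZZ N ≤ X) (hqr : (q : ℝ) * r ≤ X) (hNr : (N : ℝ) / r ≤ X) (hNW : (N : ℝ) / WW N ≤ X) :
    ‖∑ m ∈ Icc 1 y, ∑ k ∈ Icc 1 (y / m),
      (a m * b k) • ev (univ : Finset (DirichletCharacter ℂ q)) β (m * k)‖ ^ 2 ≤ (N : ℝ) ^ 2 / L ^ A' := by
  have hW1 := one_le_WW hN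
  have hW1r : (1 : ℝ) ≤ WW N := by exact_mod_cast hW1
  have hN0 : (0 : ℝ) < N := by exact_mod_cast hN
  have hq0 : (0 : ℝ) < q := by exact_mod_cast NeZero.pos q
  have hr0 : (0 : ℝ) < r := by exact_mod_cast hr1
  have hL0 : 0 < L := by linarith
  have hX0 : 0 ≤ X := by rw [hX]; positivity
  obtain ⟨I, hI⟩ : ∃ I, I = Nat.log 2 N + 1 := ⟨_, rfl⟩
  have hIL : (I : ℝ) ≤ 3 * L := by
    have := log2_le hN
    rw [← hI, ← hL] at this
    linarith
  have hZI : ZZ N ≤ WW N * 2 ^ I := by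
    have h1 : N < 2 ^ I := by
      rw [hI]
      exact Nat.lt_pow_succ_log_self (by norm_num) N
    calc ZZ N ≤ N := ZZ_le hN
      _ ≤ 1 * 2 ^ I := by omega
      _ ≤ _ := Nat.mul_le_mul_right _ hW1
  rw [dyad_bil (ev (univ : Finset (DirichletCharacter ℂ q)) β) ha hZI]
  have hpiece : ∀ i ∈ range I, ‖∑ m ∈ Ioc (WW N * 2 ^ i) (2 * (WW N * 2 ^ i)), ∑ k ∈ Icc 1 (y / m),
      (a m * b k) • ev (univ : Finset (DirichletCharacter ℂ q)) β (m * k)‖ ^ 2 ≤ |K| * N * (8 * X * L ^ 3) := by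
    intro i _
    obtain ⟨M, hM⟩ : ∃ M, M = WW N * 2 ^ i := ⟨_, rfl⟩
    rw [← hM]
    have hWM : WW N ≤ M := by
      rw [hM]
      exact Nat.le_mul_of_pos_right _ (by positivity)
    have hM1 : 1 ≤ M := hW1.trans hWM
    have hM0 : (0 : ℝ) < M := by exact_mod_cast hM1
    have hR0 : 0 ≤ |K| * N * (8 * X * L ^ 3) := by positivity
    by_cases hMy : M ≤ y
    · by_cases hMZ : M ≤ ZZ N
      · refine (hK q y M r h β a b hM1 hMy hr1 hcop hβ).trans ?_
        have e1 : ∑ m ∈ Ioc M (2 * M), ‖a m‖ ^ 2 ≤ M := by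
          calc ∑ m ∈ Ioc M (2 * M), ‖a m‖ ^ 2 ≤ ∑ m ∈ Ioc M (2 * M), (1 : ℝ) :=
                sum_le_sum fun m _ => pow_le_one₀ (norm_nonneg _) (ha1 m)
            _ = M := by
                rw [sum_const, Nat.card_Ioc, nsmul_eq_mul, mul_one]
                congr 1
                omega
        have e2 : ∑ k ∈ Icc 1 (y / M), ‖b k‖ ^ 2 ≤ (N : ℝ) / M * L ^ 2 := by
          calc ∑ k ∈ Icc 1 (y / M), ‖b k‖ ^ 2 ≤ ∑ k ∈ Icc 1 (y / M), L ^ 2 :=
                sum_le_sum fun m hm => pow_le_pow_left₀ (norm_nonneg _) (hb1 m (by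
                  rw [mem_Icc] at hm ⊢
                  exact ⟨hm.1, hm.2.trans ((Nat.div_le_self _ _).trans hy)⟩)) 2
            _ = ((y / M : ℕ) : ℝ) * L ^ 2 := by
                rw [sum_const, Nat.card_Icc, nsmul_eq_mul, Nat.add_sub_cancel]
            _ ≤ (N : ℝ) / M * L ^ 2 := by
                refine mul_le_mul_of_nonneg_right (Nat.cast_div_le.trans ?_) (by positivity)
                have : (y : ℝ) ≤ N := by exact_mod_cast hy
                gcongr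
        have hyr : (y : ℝ) ≤ N := by exact_mod_cast hy
        have e3 : (q : ℝ) * (M + (y : ℝ) / (q * r) + (y : ℝ) / (q * M) + r) ≤ 4 * X := by
          have k1 : (q : ℝ) * M ≤ X := by
            refine le_trans ?_ hqZ
            have : (M : ℝ) ≤ ZZ N := by exact_mod_cast hMZ
            gcongr
          have k2 : (y : ℝ) / r ≤ X := by
            refine le_trans ?_ hNr
            gcongr
          have k3 : (y : ℝ) / M ≤ X := by
            refine le_trans ?_ hNW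
            have : (WW N : ℝ) ≤ M := by exact_mod_cast hWM
            gcongr
          have k4 : (q : ℝ) * (M + (y : ℝ) / (q * r) + (y : ℝ) / (q * M) + r) =
              q * M + y / r + y / M + q * r := by
            field_simp
          rw [k4]
          linarith
        have e4 : 1 + Real.log r ≤ 2 * L := by
          have : Real.log r ≤ L := by
            rw [hL]
            exact Real.log_le_log hr0 (by exact_mod_cast hrN)
          linarith
        have e5 : 0 ≤ 1 + Real.log r := by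
          have := Real.log_natCast_nonneg r
          linarith
        have e6 : 0 ≤ ∑ m ∈ Ioc M (2 * M), ‖a m‖ ^ 2 := sum_nonneg fun _ _ => sq_nonneg _
        have e7 : 0 ≤ ∑ k ∈ Icc 1 (y / M), ‖b k‖ ^ 2 := sum_nonneg fun _ _ => sq_nonneg _
        have e8 : 0 ≤ (q : ℝ) * (M + (y : ℝ) / (q * r) + (y : ℝ) / (q * M) + r) := by positivity
        calc K * (∑ m ∈ Ioc M (2 * M), ‖a m‖ ^ 2) * (∑ k ∈ Icc 1 (y / M), ‖b k‖ ^ 2) *
            (q * (M + (y : ℝ) / (q * r) + (y : ℝ) / (q * M) + r) * (1 + Real.log r))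
            = K * ((∑ m ∈ Ioc M (2 * M), ‖a m‖ ^ 2) * (∑ k ∈ Icc 1 (y / M), ‖b k‖ ^ 2) *
            ((q * (M + (y : ℝ) / (q * r) + (y : ℝ) / (q * M) + r)) * (1 + Real.log r))) := by ring
          _ ≤ |K| * ((∑ m ∈ Ioc M (2 * M), ‖a m‖ ^ 2) * (∑ k ∈ Icc 1 (y / M), ‖b k‖ ^ 2) *
            ((q * (M + (y : ℝ) / (q * r) + (y : ℝ) / (q * M) + r)) * (1 + Real.log r))) := by
              apply mul_le_mul_of_nonneg_right (le_abs_self K)
              positivity
          _ ≤ |K| * ((M * (N / M * L ^ 2)) * ((4 * X) * (2 * L))) := by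
              gcongr
          _ = _ := by
              field_simp
              ring
      · -- no coefficients
        rw [sum_eq_zero, norm_zero, zero_pow two_ne_zero]
        · exact hR0
        · intro m hm
          rw [mem_Ioc] at hm
          have : a m = 0 := by
            by_contra h0
            have := (ha m h0).2
            omega
          simp only [this, zero_mul, zero_smul, sum_const_zero]
    · rw [sum_eq_zero, norm_zero, zero_pow two_ne_zero]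
      · exact hR0
      · intro m hm
        rw [mem_Ioc] at hm
        rw [Nat.div_eq_of_lt (by omega)]
        simp
  refine (norm_sq_range I _ hpiece).trans ?_
  have hI0 : (0 : ℝ) ≤ I := Nat.cast_nonneg _
  calc (I : ℝ) * (I * (|K| * N * (8 * X * L ^ 3))) ≤ (3 * L) * ((3 * L) * (|K| * N * (8 * X * L ^ 3))) := by
        gcongr
    _ = (72 * |K|) * (N * X * L ^ 5) := by ring
    _ ≤ L * (N * X * L ^ 5) := by gcongr
    _ = (N : ℝ) ^ 2 / L ^ A' := by
        rw [hX, hCA, pow_add]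
        field_simp

theorem nG (h1 : L2Stm) (hB : BilMinStm) (hT : TiMinStm) (hP : TpMinStm) : NGStm := by
  classical
  intro A ρ hρ
  obtain ⟨K, hK⟩ := hB
  obtain ⟨K', hK'⟩ := hT
  obtain ⟨Cp, Np, hP'⟩ := hP (A + 8) ρ hρ
  obtain ⟨C, hC⟩ : ∃ C, C = A + 4 + 2 * (A + 18) + 8 + 6 := ⟨_, rfl⟩
  obtain ⟨N₂, hG⟩ := gr_vec h1 A
  obtain ⟨N₃, hN₃⟩ := Filter.eventually_atTop.1 (ev_log (C + 1) (s := 1 / 2000) (by norm_num)
    (72 * |K| + 12 * |K'| + 16))
  obtain ⟨N₄, hN₄⟩ := Filter.eventually_atTop.1 (ev_log C (s := ρ) hρ 16)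
  refine ⟨max C Cp, max (max (max N₄ N₂) (max N₃ 1)) Np, fun N hN' q _ hq k h β hk1' hk2' hcop hβ => ?_⟩
  have hN : max (max N₄ N₂) (max N₃ 1) ≤ N := le_trans (le_max_left _ _) hN'
  have hNp : Np ≤ N := le_trans (le_max_right _ _) hN'
  have hNN₄ : N₄ ≤ N := le_trans (le_trans (le_max_left _ _) (le_max_left _ _)) hN
  have hNN₂ : N₂ ≤ N := le_trans (le_trans (le_max_right _ _) (le_max_left _ _)) hN
  have hNN₃ : N₃ ≤ N := le_trans (le_trans (le_max_left _ _) (le_max_right _ _)) hN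
  have hN1 : 1 ≤ N := le_trans (le_trans (le_max_right _ _) (le_max_right _ _)) hN
  obtain ⟨hL16, hLp⟩ := hN₃ N hNN₃
  obtain ⟨-, hLρ⟩ := hN₄ N hNN₄
  have hN0 : (0 : ℝ) < N := by exact_mod_cast hN1
  have hNr1 : (1 : ℝ) ≤ N := by exact_mod_cast hN1
  have hq0 : (0 : ℝ) < q := by exact_mod_cast NeZero.pos q
  have hq1 : (1 : ℝ) ≤ q := by exact_mod_cast NeZero.pos q
  have hqN : (q : ℝ) ≤ N := by
    calc (q : ℝ) ≤ (N : ℝ) ^ (4 / 5 - ρ) := hq
      _ ≤ (N : ℝ) ^ (1 : ℝ) := Real.rpow_le_rpow_of_exponent_le hNr1 (by linarith)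
      _ = N := Real.rpow_one _
  have hW1 := one_le_WW hN1
  have hW1r : (1 : ℝ) ≤ WW N := by exact_mod_cast hW1
  have hWle : (WW N : ℝ) ≤ (N : ℝ) ^ (1 / 2000 : ℝ) := Nat.floor_le (by positivity)
  have hWge : (N : ℝ) ^ (1 / 2000 : ℝ) ≤ 2 * WW N := by
    have : (N : ℝ) ^ (1 / 2000 : ℝ) < (WW N : ℝ) + 1 := Nat.lt_floor_add_one _
    linarith
  have hZle : (ZZ N : ℝ) ≤ (N : ℝ) ^ (1 / 5 : ℝ) := Nat.floor_le (by positivity)
  have hKa := abs_nonneg K
  have hKb := abs_nonneg K'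
  obtain ⟨L, hL⟩ : ∃ L, L = Real.log (N : ℝ) := ⟨_, rfl⟩
  have hL16' : 16 ≤ L := by rw [hL]; linarith
  have hL0 : 0 < L := by linarith
  have hL1 : 1 ≤ L := by linarith
  rw [← hL] at hk1' hk2' hLp hLρ hL16
  have hpw1 : L ^ C ≤ L ^ (max C Cp) := pow_le_pow_right₀ hL1 (le_max_left _ _)
  have hpw2 : L ^ Cp ≤ L ^ (max C Cp) := pow_le_pow_right₀ hL1 (le_max_right _ _)
  have hqk0 : (0 : ℝ) ≤ (q : ℝ) * k := by positivity
  have hk1 : L ^ C ≤ k := hpw1.trans hk1'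
  have hk2 : (q : ℝ) * k * L ^ C ≤ N := (mul_le_mul_of_nonneg_left hpw1 hqk0).trans hk2'
  have hk1p : L ^ Cp ≤ k := hpw2.trans hk1'
  have hk2p : (q : ℝ) * k * L ^ Cp ≤ N := (mul_le_mul_of_nonneg_left hpw2 hqk0).trans hk2'
  have hLC1 : 1 ≤ L ^ C := one_le_pow₀ hL1
  have hk0 : (0 : ℝ) < k := lt_of_lt_of_le (by positivity) hk1
  have hkn : 1 ≤ k := by exact_mod_cast hk0
  have hkN : k ≤ N := by
    have : (k : ℝ) ≤ N := by
      calc (k : ℝ) = 1 * k * 1 := by ring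
        _ ≤ q * k * L ^ C := by gcongr
        _ ≤ N := hk2
    exact_mod_cast this
  obtain ⟨X, hX⟩ : ∃ X, X = N / L ^ C := ⟨_, rfl⟩
  have hqk : (q : ℝ) * k ≤ X := by
    rw [hX, le_div_iff₀ (by positivity)]
    exact hk2
  have hNk : (N : ℝ) / k ≤ X := by
    rw [hX]
    gcongr
  have hNsplit : (N : ℝ) ^ (1 - ρ) * (N : ℝ) ^ ρ = N := by
    rw [← Real.rpow_add hN0]
    norm_num
  have hqZ : (q : ℝ) * ZZ N ≤ X := by
    rw [hX, le_div_iff₀ (by positivity)]
    calc (q : ℝ) * ZZ N * L ^ C ≤ (N : ℝ) ^ (4 / 5 - ρ) * (N : ℝ) ^ (1 / 5 : ℝ) * (N : ℝ) ^ ρ := by gcongr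
      _ = N := by
          rw [← Real.rpow_add hN0, ← Real.rpow_add hN0]
          have : 4 / 5 - ρ + 1 / 5 + ρ = 1 := by ring
          rw [this, Real.rpow_one]
  have hqW : (q : ℝ) * WW N ≤ X := by
    refine le_trans ?_ hqZ
    have : (WW N : ℝ) ≤ ZZ N := by exact_mod_cast WW_le hN1
    gcongr
  have hNW : (N : ℝ) / WW N ≤ X := by
    rw [hX, div_le_div_iff₀ (by positivity) (by positivity)]
    have : L ^ C ≤ WW N := by
      have h2 : L ^ (C + 1) ≤ 2 * WW N := hLp.trans hWge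
      have h3 : 2 * L ^ C ≤ L ^ (C + 1) := by
        rw [pow_succ]
        nlinarith
      linarith
    gcongr
  apply hG N hNN₂ q hqN univ β
  · intro y hy
    obtain ⟨Y, hY1, hY2⟩ := hK' q N (WW N) k h β hW1 ((WW_le hN1).trans (ZZ_le hN1)) (by exact_mod_cast hqN) hkn hkN
      hcop hβ
    refine (sum_le_sum fun d hd => hY1 d hd (y / d) (Nat.div_le_div_right hy)).trans (hY2.trans ?_)
    rw [← hL]
    have e1 : (N : ℝ) / k + q * WW N + q * k ≤ 3 * X := by linarith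
    have e0 : 0 ≤ (N : ℝ) / k + q * WW N + q * k := by positivity
    calc K' * ((N : ℝ) / k + q * WW N + q * k) * (1 + L) ^ 2
        ≤ |K'| * ((N : ℝ) / k + q * WW N + q * k) * (1 + L) ^ 2 := by
          gcongr
          exact le_abs_self K'
      _ ≤ |K'| * (3 * X) * (2 * L) ^ 2 := by
          have hX0 : 0 ≤ X := by rw [hX]; positivity
          have h2L : 1 + L ≤ 2 * L := by linarith
          gcongr
      _ = (12 * |K'|) * (X * L ^ 2) := by ring
      _ ≤ L * (X * L ^ 2) := by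
          have : 0 ≤ X := by rw [hX]; positivity
          gcongr
          linarith
      _ = N * (L ^ 3 / L ^ C) := by
          rw [hX]
          ring
      _ ≤ N * (1 / L ^ (A + 8)) := by
          have : L ^ 3 / L ^ C ≤ 1 / L ^ (A + 8) := by
            rw [div_le_div_iff₀ (by positivity) (by positivity), one_mul, ← pow_add]
            exact pow_le_pow_right₀ hL1 (by omega)
          gcongr
      _ = _ := by ring
  · intro y hy
    rw [hL] at hk1p hk2p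
    exact hP' N hNp q hq k h β hk1p hk2p hcop hβ y hy
  · intro y hy j _ b hb
    rw [← hL]
    rw [← hL] at hb
    exact bil_min hK hL hN1 hy (fun m hm => a2_supp hN1 hm) (a2_le _ _ _ _) hb hkn hkN hcop hβ hX
      (by linarith) hL1 hC hqZ hqk hNk hNW
  · intro y hy j _ b hb
    rw [← hL]
    rw [← hL] at hb
    exact bil_min hK hL hN1 hy (fun m hm => a1_supp hm) (a1_le _ _ _ _) hb hkn hkN hcop hβ hX
      (by linarith) hL1 hC hqZ hqk hNk hNW

end Pool.Agent.Helper34.GV
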