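import Pool.Graph.R_seed8.R460.GS.Stm
import Pool.Graph.R_seed8.R460.GS.J1
import Pool.Graph.R_seed8.Y183.GJ.BilMaj

/-!
# Project GV (helper34): Goldbach lower bounds in the residue classes of the moduli `q ≤ x ^ (4/5 - ρ)`

Notation: `L = log N`, `Z = N ^ (1/5)`, `W = N ^ (1/2000)`, `Y = N ^ (499/1000)`.
`gr N n = log n - ∑_{p | n, p ≤ Y} log p` if `n` has no prime factor `≤ Z`, and `0` otherwise.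
`f = gr - Wt * lsh` is a function with small sums over almost all characters modulo `q`, and
`Λ * Λ ≥ Λ * gr + gr * Λ - gr * gr` (up to prime powers and small primes).
-/

set_option autoImplicit false

namespace Pool.Agent.Helper34.GV

open Finset
open Pool.Agent.H807R2.Dav (ee)
open Pool.Agent.H373R2.T7 (lamz Vz pz)
open Pool.Agent.Y883.T3 (lsh)
open Pool.Agent.Y883.GJ
open Pool.Agent.R460.GS (ro a1 a2 b1 b2 TiMaj2Stm BdAt ApAt NcAt)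

/-- `N ^ (1 / 2000)` -/
noncomputable def WW (N : ℕ) : ℕ := ⌊(N : ℝ) ^ (1 / 2000 : ℝ)⌋₊

/-- `N ^ (1 / 5)` -/
noncomputable def ZZ (N : ℕ) : ℕ := ⌊(N : ℝ) ^ (1 / 5 : ℝ)⌋₊

/-- `N ^ (499 / 1000)` -/
noncomputable def YY (N : ℕ) : ℕ := ⌊(N : ℝ) ^ (499 / 1000 : ℝ)⌋₊

/-- `log p` for the primes `Z < p ≤ Y` -/
noncomputable def lp (N p : ℕ) : ℝ := if p.Prime ∧ ZZ N < p ∧ p ≤ YY N then Real.log p else 0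

/-- `log n` minus the logarithms of the prime factors up to `N ^ (499 / 1000)`, for the integers without prime
factors up to `N ^ (1 / 5)` -/
noncomputable def gr (N n : ℕ) : ℝ :=
  if ∀ p ∈ n.primeFactors, ZZ N < p then Real.log n - ∑ p ∈ n.primeFactors, lp N p else 0

/-- the same with complex values -/
noncomputable def GG (N n : ℕ) : ℂ := ((gr N n : ℝ) : ℂ)

/-- the numbers `m`, without prime factors up to `N ^ (1 / 5)`, for which `m p` with a prime `p > Y` may be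
counted by `gr`, up to `n` -/
noncomputable def mm (N n : ℕ) : Finset ℕ :=
  (Icc 1 n).filter (fun m => (∀ p ∈ m.primeFactors, ZZ N < p) ∧ m * YY N < n)

/-- the local density of `gr` -/
noncomputable def Wt (N n : ℕ) : ℝ := ∑ m ∈ mm N n, 1 / (m : ℝ)

/-- few bad characters on the major arcs -/
def MajAt (N : ℕ) (ρ : ℝ) (A C C₃ : ℕ) (F : ℕ → ℂ) : Prop :=
  ∀ (q : ℕ) [NeZero q], (q : ℝ) ≤ (N : ℝ) ^ (4 / 5 - ρ) →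
    ∃ B : Finset (DirichletCharacter ℂ q), 1 ∈ B ∧ (B.card : ℝ) ≤ Real.log N ^ C₃ ∧
      ∀ η : ℝ, |η| ≤ Real.log N ^ C / N → ∀ y : ℕ, y ≤ N → ∀ S : Finset (DirichletCharacter ℂ q),
        Disjoint S B → ∑ χ ∈ S, ‖cs q y F η χ‖ ^ 2 ≤ (N : ℝ) ^ 2 / Real.log N ^ A

/-- no bad characters on the minor arcs -/
def MinAt (N : ℕ) (ρ : ℝ) (A C : ℕ) (F : ℕ → ℂ) : Prop :=
  ∀ (q : ℕ) [NeZero q], (q : ℝ) ≤ (N : ℝ) ^ (4 / 5 - ρ) → ∀ (k : ℕ) (h : ℤ) (β : ℝ),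
    Real.log N ^ C ≤ k → (q : ℝ) * k * Real.log N ^ C ≤ N → IsCoprime h (k : ℤ) →
    |q * β - h / k| ≤ 1 / (k : ℝ) ^ 2 → ∀ y : ℕ, y ≤ N →
    ∑ χ : DirichletCharacter ℂ q, ‖cs q y F β χ‖ ^ 2 ≤ (N : ℝ) ^ 2 / Real.log N ^ A

/-! The general statements: bilinear sums and sums of type I. -/

/-- BIL: bilinear sums, major arcs, all characters but few bad ones. The set of bad characters
depends only on the first coefficients. -/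
def BilMaj2Stm : Prop := ∀ (A C : ℕ) (ρ : ℝ), 0 < ρ → ∃ C₃ N₀ : ℕ, ∀ N : ℕ, N₀ ≤ N →
  ∀ (q : ℕ) [NeZero q], (q : ℝ) ≤ (N : ℝ) ^ (4 / 5 - ρ) → ∀ a : ℕ → ℂ,
  (∀ m ∈ Icc 1 N, ‖a m‖ ≤ Real.log N * (m.divisors.card : ℝ)) →
  (∀ m, a m ≠ 0 → (N : ℝ) ^ (1 / 2000 : ℝ) ≤ 2 * m ∧ (m : ℝ) ≤ (N : ℝ) ^ (1 / 5 : ℝ)) →
  ∃ B : Finset (DirichletCharacter ℂ q), (B.card : ℝ) ≤ Real.log N ^ C₃ ∧
    ∀ b : ℕ → ℂ, (∀ m ∈ Icc 1 N, ‖b m‖ ≤ Real.log N * (m.divisors.card : ℝ)) →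
    ∀ η : ℝ, |η| ≤ Real.log N ^ C / N → ∀ y : ℕ, y ≤ N →
    ∀ S : Finset (DirichletCharacter ℂ q), Disjoint S B →
    ‖∑ m ∈ Icc 1 y, ∑ k ∈ Icc 1 (y / m), (a m * b k) • ev S η (m * k)‖ ^ 2 ≤
      (N : ℝ) ^ 2 / Real.log N ^ A

/-- the function `pp N y d v` is the vector `∑ lp(p) v(p b d)`, `p b d ≤ y` -/
noncomputable def tp {V : Type*} [AddCommGroup V] [Module ℂ V] (N X d : ℕ) (v : ℕ → V) : V :=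
  ∑ p ∈ Icc 1 X, ((lp N p : ℝ) : ℂ) • ∑ b ∈ Icc 1 (X / p), v (p * b * d)

/-- TPMAJ: sums of type I with the primes up to `N ^ (499 / 1000)`, major arcs, nonprincipal characters -/
def TpMajStm : Prop := ∀ (C : ℕ) (ρ : ℝ), 0 < ρ → ∃ N₀ : ℕ, ∀ N : ℕ, N₀ ≤ N →
  ∀ (q : ℕ) [NeZero q], (q : ℝ) ≤ (N : ℝ) ^ (4 / 5 - ρ) → ∀ S : Finset (DirichletCharacter ℂ q),
  (1 : DirichletCharacter ℂ q) ∉ S → ∀ η : ℝ, |η| ≤ Real.log N ^ C / N → ∀ d y : ℕ, 1 ≤ d → y ≤ N →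
  ‖tp N (y / d) d (ev S η)‖ ≤ (N : ℝ) ^ (9992 / 10000 : ℝ)

/-- TPMIN: sums of type I with the primes up to `N ^ (499 / 1000)`, minor arcs, all characters -/
def TpMinStm : Prop := ∀ (A : ℕ) (ρ : ℝ), 0 < ρ → ∃ C N₀ : ℕ, ∀ N : ℕ, N₀ ≤ N →
  ∀ (q : ℕ) [NeZero q], (q : ℝ) ≤ (N : ℝ) ^ (4 / 5 - ρ) → ∀ (k : ℕ) (h : ℤ) (β : ℝ),
    Real.log N ^ C ≤ k → (q : ℝ) * k * Real.log N ^ C ≤ N → IsCoprime h (k : ℤ) →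
    |q * β - h / k| ≤ 1 / (k : ℝ) ^ 2 → ∀ y : ℕ, y ≤ N →
    ∑ d ∈ Icc 1 (WW N), ‖tp N (y / d) d (ev (univ : Finset (DirichletCharacter ℂ q)) β)‖ ≤
      N / Real.log N ^ A

/-- CNT: few characters have a large sum (`k`-th power and mean value) -/
def CntStm : Prop := ∀ k : ℕ, 1 ≤ k → ∃ c : ℕ, ∀ (q X : ℕ) [NeZero q] (a : ℕ → ℂ) (ℓ T : ℝ), 1 ≤ X →
  1 + Real.log X ≤ ℓ → 0 < T → (∀ m ∈ Icc 1 X, ‖a m‖ ≤ ℓ * (m.divisors.card : ℝ)) →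
  ∀ S : Finset (DirichletCharacter ℂ q), (∀ χ ∈ S, T < ‖∑ m ∈ Icc 1 X, a m * χ (m : ZMod q)‖) →
  (S.card : ℝ) * T ^ (2 * k) ≤ ((X : ℝ) ^ k + q) * X ^ k * (k * ℓ) ^ c

/-- CNTP: few primitive characters have a large sum (`k`-th power and large sieve) -/
def CntPStm : Prop := ∀ k : ℕ, 1 ≤ k → ∃ c : ℕ, ∀ (Q X : ℕ) (a : ℕ → ℂ) (ℓ T : ℝ), 1 ≤ X →
    1 + Real.log X ≤ ℓ → 0 < T → (∀ m ∈ Icc 1 X, ‖a m‖ ≤ ℓ * (m.divisors.card : ℝ)) →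
    ∀ Ψ : Finset (Σ f : ℕ, DirichletCharacter ℂ f),
    (∀ ψ ∈ Ψ, 1 ≤ ψ.1 ∧ ψ.1 ≤ Q ∧ ψ.2.IsPrimitive ∧
      T < ‖∑ m ∈ Icc 1 X, a m * ψ.2 (m : ZMod ψ.1)‖) →
    (Ψ.card : ℝ) * T ^ (2 * k) ≤ 6 * ((X : ℝ) ^ k + (Q : ℝ) ^ 2) * X ^ k * (k * ℓ) ^ c

/-- the parameter `δ` -/
noncomputable def dl (N K₂ : ℕ) : ℝ := (Real.log N ^ (2 * K₂))⁻¹

/-- the character `χ` has a large sum over one of the short classes -/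
def Bd (N K₂ K : ℕ) (a : ℕ → ℂ) (q : ℕ) (χ : DirichletCharacter ℂ q) : Prop :=
  ∃ i ∈ range (⌊Real.log N / dl N K₂⌋₊ + 1),
    Pool.Agent.Y183.GJ.gi (dl N K₂) i * (Real.log N ^ K)⁻¹ <
      ‖∑ m ∈ Icc 1 (Pool.Agent.Y183.GJ.Xi (dl N K₂) i), Pool.Agent.Y183.GJ.ai (dl N K₂) a i m * χ (m : ZMod q)‖

/-- BIL3: bilinear sums over all characters which have no large sum -/
def BilMaj3Stm : Prop := ∀ (A C : ℕ) (ρ : ℝ), 0 < ρ → ∃ K₂ K N₀ : ℕ, ∀ N : ℕ, N₀ ≤ N →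
    ∀ (q : ℕ) [NeZero q], (q : ℝ) ≤ (N : ℝ) ^ (4 / 5 - ρ) → ∀ a : ℕ → ℂ,
    (∀ m ∈ Icc 1 N, ‖a m‖ ≤ Real.log N * (m.divisors.card : ℝ)) →
    (∀ m, a m ≠ 0 → (N : ℝ) ^ (1 / 2000 : ℝ) ≤ 2 * m ∧ (m : ℝ) ≤ (N : ℝ) ^ (1 / 5 : ℝ)) →
    ∀ b : ℕ → ℂ, (∀ m ∈ Icc 1 N, ‖b m‖ ≤ Real.log N * (m.divisors.card : ℝ)) →
    ∀ η : ℝ, |η| ≤ Real.log N ^ C / N → ∀ y : ℕ, y ≤ N →
    ∀ S : Finset (DirichletCharacter ℂ q), (∀ χ ∈ S, ¬ Bd N K₂ K a q χ) →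
    ‖∑ m ∈ Icc 1 y, ∑ k ∈ Icc 1 (y / m), (a m * b k) • ev S η (m * k)‖ ^ 2 ≤
      (N : ℝ) ^ 2 / Real.log N ^ A

/-- COUNT3: the number of the primitive characters with a large sum over one of the short classes -/
def Count3Stm : Prop := ∀ (K₂ K : ℕ), ∃ C₃ N₀ : ℕ, ∀ N : ℕ, N₀ ≤ N → ∀ a : ℕ → ℂ,
    (∀ m ∈ Icc 1 N, ‖a m‖ ≤ Real.log N * (m.divisors.card : ℝ)) →
    (∀ m, a m ≠ 0 → (N : ℝ) ^ (1 / 2000 : ℝ) ≤ 2 * m ∧ (m : ℝ) ≤ (N : ℝ) ^ (1 / 5 : ℝ)) →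
    ∀ Ψ : Finset (Σ f : ℕ, DirichletCharacter ℂ f),
    (∀ ψ ∈ Ψ, 1 ≤ ψ.1 ∧ (ψ.1 : ℝ) ≤ (N : ℝ) ^ (4 / 5 : ℝ) ∧ ψ.2.IsPrimitive ∧ Bd N K₂ K a ψ.1 ψ.2) →
    (Ψ.card : ℝ) ≤ Real.log N ^ C₃

/-- MG: the function `gr` on the major arcs -/
def MGStm : Prop := ∀ (A C : ℕ) (ρ : ℝ), 0 < ρ → ∃ C₃ N₀ : ℕ, ∀ N : ℕ, N₀ ≤ N → MajAt N ρ A C C₃ (GG N)

/-- NG: the function `gr` on the minor arcs -/
def NGStm : Prop := ∀ (A : ℕ) (ρ : ℝ), 0 < ρ → ∃ C N₀ : ℕ, ∀ N : ℕ, N₀ ≤ N → MinAt N ρ A C (GG N)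

/-- MG3: few primitive characters have a large sum with the function `gr` -/
def MG3Stm : Prop := ∀ (U : ℕ) (ρ : ℝ), 0 < ρ → ∃ C₄ N₀ : ℕ, ∀ N : ℕ, N₀ ≤ N →
    ∀ Ψ : Finset (Σ f : ℕ, DirichletCharacter ℂ f),
    (∀ ψ ∈ Ψ, 1 < ψ.1 ∧ (ψ.1 : ℝ) ≤ (N : ℝ) ^ (4 / 5 - ρ) ∧ ψ.2.IsPrimitive ∧
      ∃ y : ℕ, y ≤ N ∧ N / Real.log N ^ U < ‖∑ n ∈ Icc 1 y, GG N n * ψ.2 (n : ZMod ψ.1)‖) →
    (Ψ.card : ℝ) ≤ Real.log N ^ C₄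

/-- MH: the sieve model on the major arcs; only the principal character is bad -/
def MHStm : Prop := ∀ (A C : ℕ) (ρ : ℝ), 0 < ρ → ∃ N₀ : ℕ, ∀ N : ℕ, N₀ ≤ N →
  ∀ (q : ℕ) [NeZero q], (q : ℝ) ≤ (N : ℝ) ^ (4 / 5 - ρ) → ∀ z r : ℕ,
  ((((z + 1) ^ r) ^ 100 : ℕ) : ℝ) ≤ N → (Vz z)⁻¹ ≤ Real.log N →
  ∀ η : ℝ, |η| ≤ Real.log N ^ C / N → ∀ y : ℕ, y ≤ N →
  ∀ S : Finset (DirichletCharacter ℂ q), 1 ∉ S →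
    ∑ χ ∈ S, ‖cs q y (fun n => ((Wt N n * lsh z r n : ℝ) : ℂ)) η χ‖ ^ 2 ≤ (N : ℝ) ^ 2 / Real.log N ^ A

/-- NH: the sieve model on the minor arcs -/
def NHStm : Prop := ∀ (A : ℕ) (ρ : ℝ), 0 < ρ → ∃ C N₀ : ℕ, ∀ N : ℕ, N₀ ≤ N → ∀ z r : ℕ,
  ((((z + 1) ^ r) ^ 100 : ℕ) : ℝ) ≤ N → (Vz z)⁻¹ ≤ Real.log N →
  MinAt N ρ A C (fun n => ((Wt N n * lsh z r n : ℝ) : ℂ))

/-- WTB: the density is bounded and of bounded variation -/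
def WtbStm : Prop := ∃ (c : ℝ) (N₀ : ℕ), ∀ N : ℕ, N₀ ≤ N →
  (∀ n : ℕ, 0 ≤ Wt N n) ∧ (∀ n : ℕ, n ≤ N → Wt N n ≤ c) ∧
  ∑ n ∈ range N, |Wt N (n + 1) - Wt N n| ≤ c

/-- WTD: upper bound for the density -/
def WtdStm : Prop := ∀ B : ℕ, ∃ N₀ : ℕ, ∀ N : ℕ, N₀ ≤ N → ∀ n : ℕ, n ≤ N → (N : ℝ) / Real.log N ^ B ≤ n →
  1 ≤ Wt N n ∧ Wt N n ≤ 198 / 100

/-- APG: the function `gr` in arithmetic progressions with a small difference -/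
def ApgStm : Prop := ∀ K U : ℕ, ∃ N₀ : ℕ, ∀ N : ℕ, N₀ ≤ N → ∀ r : ℕ, 1 ≤ r → (r : ℝ) ≤ Real.log N ^ K →
  ∀ c y : ℕ, y ≤ N → |∑ n ∈ (Icc 1 y).filter (fun n => n ≡ c [MOD r]), gr N n -
    (if c.Coprime r then (∑ n ∈ Icc 1 y, Wt N n) / (Nat.totient r : ℝ) else 0)| ≤ N / Real.log N ^ U

end Pool.Agent.Helper34.GV
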