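import Pool.Graph.R_seed8.R453.GS.Wt1
import Pool.Agent.Helper34.GV.Stm

/-!
# Project GV, job WT (helper60): the density of the function `gr`

`Wt N n` is the sum of `1 / m` over `m = 1`, the primes `m` and the products `m` of two primes, with prime factors
larger than `N ^ (1 / 5)` and `m YY < n`, so up to about `N ^ (501 / 1000)`. It is monotone in `n`, and
`1 + log (501 / 200) + (products) < 1.98`; the products are counted on four intervals for the smaller prime.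
-/

set_option autoImplicit false

namespace Pool.Agent.Helper34.GV.WT

open Finset Filter Topology
open Pool.Agent.R453.GS (ev_log log_floor sum_pow exp_ge log_num PP SP SP_nonneg fac fac_mul fac_inj)

lemma mem_mm {N n m : ℕ} : m ∈ mm N n ↔ (1 ≤ m ∧ m ≤ n) ∧ (∀ p ∈ m.primeFactors, ZZ N < p) ∧
    m * YY N < n := by
  unfold mm
  rw [mem_filter, mem_Icc]

lemma mm_mono (N : ℕ) {n n' : ℕ} (h : n ≤ n') : mm N n ⊆ mm N n' := by
  intro m hm
  rw [mem_mm] at hm ⊢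
  exact ⟨⟨hm.1.1, hm.1.2.trans h⟩, hm.2.1, lt_of_lt_of_le hm.2.2 h⟩

lemma Wt_mono (N : ℕ) {n n' : ℕ} (h : n ≤ n') : Wt N n ≤ Wt N n' := by
  unfold Wt
  exact sum_le_sum_of_subset_of_nonneg (mm_mono N h) fun _ _ _ => by positivity

lemma Wt_nonneg (N n : ℕ) : 0 ≤ Wt N n := by
  unfold Wt
  exact sum_nonneg fun _ _ => by positivity

/-- at most two prime factors -/
lemma shape {Z m : ℕ} (h1 : 1 ≤ m) (h3 : ∀ p ∈ m.primeFactors, Z < p) (h4 : m < (Z + 1) ^ 3) :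
    m = 1 ∨ m.Prime ∨ (∃ p q : ℕ, m = p * q ∧ m.minFac = p ∧ p.Prime ∧ q.Prime ∧ p ≤ q) := by
  rcases Nat.eq_or_lt_of_le h1 with h5 | h5
  · exact Or.inl h5.symm
  right
  by_cases hmp : m.Prime
  · exact Or.inl hmp
  right
  have hm1 : m ≠ 1 := by omega
  have hp := Nat.minFac_prime hm1
  have hpm : m.minFac ∈ m.primeFactors := Nat.mem_primeFactors.2 ⟨hp, Nat.minFac_dvd m, by omega⟩
  obtain ⟨q, hq⟩ := Nat.minFac_dvd m
  have hZp := h3 _ hpm
  have hq0 : q ≠ 0 := by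
    intro h
    rw [h, mul_zero] at hq
    omega
  have hq1 : q ≠ 1 := by
    intro h
    rw [h, mul_one] at hq
    exact hmp (by rw [hq]; exact hp)
  have hqp : q.Prime := by
    by_contra hcon
    have hr := Nat.minFac_prime hq1
    obtain ⟨s, hs⟩ := Nat.minFac_dvd q
    have hs1 : s ≠ 1 := by
      intro h
      rw [h, mul_one] at hs
      exact hcon (by rw [hs]; exact hr)
    have hs0 : s ≠ 0 := by
      intro h
      rw [h, mul_zero] at hs
      omega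
    have hu := Nat.minFac_prime hs1
    have hrm : q.minFac ∈ m.primeFactors := Nat.mem_primeFactors.2
      ⟨hr, (Nat.minFac_dvd q).trans (Dvd.intro_left _ hq.symm), by omega⟩
    have hum : s.minFac ∈ m.primeFactors := Nat.mem_primeFactors.2
      ⟨hu, ((Nat.minFac_dvd s).trans (Dvd.intro_left _ hs.symm)).trans (Dvd.intro_left _ hq.symm), by omega⟩
    have g1 := h3 _ hrm
    have g2 := h3 _ hum
    have g4 : s.minFac ≤ s := Nat.minFac_le (Nat.pos_of_ne_zero hs0)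
    have g5 : (Z + 1) ^ 3 ≤ m := by
      rw [hq, hs]
      calc (Z + 1) ^ 3 = (Z + 1) * ((Z + 1) * (Z + 1)) := by ring
        _ ≤ m.minFac * (q.minFac * s) := Nat.mul_le_mul hZp (Nat.mul_le_mul g1 (by omega))
    omega
  exact ⟨m.minFac, q, hq, rfl, hp, hqp, Nat.minFac_le_of_dvd hqp.two_le (Dvd.intro_left _ hq.symm)⟩

/-- the conditions on `N` -/
structure Big (N : ℕ) : Prop where
  two : 2 ≤ N
  up : ∀ m : ℕ, 1 ≤ m → m * YY N < N → (m : ℝ) ≤ (N : ℝ) ^ (5011 / 10000 : ℝ)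
  Z3 : (N : ℝ) ^ (5011 / 10000 : ℝ) < ((ZZ N + 1 : ℕ) : ℝ) ^ 3

lemma big : ∀ᶠ N : ℕ in atTop, Big N := by
  filter_upwards [ev_log 10000, eventually_ge_atTop 2] with N hL hN
  have hN0 : (0 : ℝ) < N := by exact_mod_cast (by omega : 0 < N)
  have hN1 : (1 : ℝ) < N := by exact_mod_cast (by omega : 1 < N)
  refine ⟨hN, fun m hm hmY => ?_, ?_⟩
  · have h1 : (N : ℝ) ^ (499 / 1000 : ℝ) < ((YY N : ℕ) : ℝ) + 1 := Nat.lt_floor_add_one _
    have h2 : (1 : ℝ) ≤ (N : ℝ) ^ (499 / 1000 : ℝ) := Real.one_le_rpow hN1.le (by norm_num)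
    have h3 : (1 : ℝ) ≤ YY N := by
      have : 1 ≤ YY N := (Nat.one_le_floor_iff _).2 h2
      exact_mod_cast this
    have h4 : (N : ℝ) ^ (499 / 1000 : ℝ) ≤ 2 * YY N := by linarith
    have h5 : (m : ℝ) * YY N < N := by exact_mod_cast hmY
    have hm0 : (1 : ℝ) ≤ m := by exact_mod_cast hm
    have h6 : (m : ℝ) * (N : ℝ) ^ (499 / 1000 : ℝ) < 2 * N := by
      have := mul_le_mul_of_nonneg_left h4 (by linarith : (0 : ℝ) ≤ m)
      linarith
    have h7 : (2 : ℝ) ≤ (N : ℝ) ^ (1 / 10000 : ℝ) := by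
      have e : (N : ℝ) ^ (1 / 10000 : ℝ) = Real.exp (Real.log N * (1 / 10000)) := Real.rpow_def_of_pos hN0 _
      rw [e]
      have h8 : (1 : ℝ) ≤ Real.log N * (1 / 10000) := by linarith
      have := Real.add_one_le_exp (Real.log N * (1 / 10000))
      linarith
    by_contra hcon
    push Not at hcon
    have h9 : (N : ℝ) ^ (5011 / 10000 : ℝ) * (N : ℝ) ^ (499 / 1000 : ℝ) = (N : ℝ) ^ (1 / 10000 : ℝ) * N := by
      have e : (N : ℝ) ^ (1 / 10000 : ℝ) * N = (N : ℝ) ^ (1 / 10000 + 1 : ℝ) := by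
        rw [Real.rpow_add hN0, Real.rpow_one]
      rw [← Real.rpow_add hN0, e]
      norm_num
    have h10 : (N : ℝ) ^ (5011 / 10000 : ℝ) * (N : ℝ) ^ (499 / 1000 : ℝ) ≤ m * (N : ℝ) ^ (499 / 1000 : ℝ) :=
      mul_le_mul_of_nonneg_right hcon.le (by linarith)
    have h11 : 2 * (N : ℝ) ≤ (N : ℝ) ^ (1 / 10000 : ℝ) * N := mul_le_mul_of_nonneg_right h7 hN0.le
    linarith
  · have h1 : (N : ℝ) ^ (1 / 5 : ℝ) < ((ZZ N + 1 : ℕ) : ℝ) := by
      push_cast
      exact Nat.lt_floor_add_one _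
    have h2 : ((N : ℝ) ^ (1 / 5 : ℝ)) ^ (3 : ℕ) < ((ZZ N + 1 : ℕ) : ℝ) ^ 3 :=
      pow_lt_pow_left₀ h1 (Real.rpow_nonneg hN0.le _) (by norm_num)
    refine lt_trans ?_ h2
    rw [← Real.rpow_natCast, ← Real.rpow_mul hN0.le]
    exact Real.rpow_lt_rpow_of_exponent_lt hN1 (by norm_num)

/-- a number larger than the integer part of a power -/
lemma gt_of_floor {N m : ℕ} {a : ℝ} (h : ⌊(N : ℝ) ^ a⌋₊ < m) : (N : ℝ) ^ a < m := by
  have h1 : (N : ℝ) ^ a < (⌊(N : ℝ) ^ a⌋₊ : ℝ) + 1 := Nat.lt_floor_add_one _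
  have h2 : ((⌊(N : ℝ) ^ a⌋₊ : ℕ) : ℝ) + 1 ≤ m := by exact_mod_cast h
  linarith

lemma second {N p q : ℕ} {a : ℝ} (hN : 0 < N) (hp : ⌊(N : ℝ) ^ a⌋₊ < p) (hpq : p ≤ q)
    (hb : (p : ℝ) * q ≤ (N : ℝ) ^ (5011 / 10000 : ℝ)) (hq : q.Prime) :
    q ∈ PP a (5011 / 10000 - a) N := by
  have hN0 : (0 : ℝ) < N := by exact_mod_cast hN
  unfold PP
  rw [mem_filter, mem_Ioc]
  refine ⟨⟨lt_of_lt_of_le hp hpq, Nat.le_floor ?_⟩, hq⟩
  have h1 := gt_of_floor hp
  have h2 : 0 < (N : ℝ) ^ a := Real.rpow_pos_of_pos hN0 _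
  rw [Real.rpow_sub hN0, le_div_iff₀ h2]
  have hq0 : (0 : ℝ) ≤ q := by positivity
  calc (q : ℝ) * (N : ℝ) ^ a ≤ q * p := mul_le_mul_of_nonneg_left h1.le hq0
    _ = p * q := by ring
    _ ≤ _ := hb

/-- the main inequality -/
lemma bound {N n : ℕ} (hB : Big N) (hn : n ≤ N) :
    Wt N n ≤ 1 + SP (1 / 5) (5011 / 10000) N +
      (SP (1 / 5) (17 / 80) N * SP (1 / 5) (5011 / 10000 - 1 / 5) N +
      SP (17 / 80) (9 / 40) N * SP (17 / 80) (5011 / 10000 - 17 / 80) N +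
      SP (9 / 40) (19 / 80) N * SP (9 / 40) (5011 / 10000 - 9 / 40) N +
      SP (19 / 80) (1253 / 5000) N * SP (19 / 80) (5011 / 10000 - 19 / 80) N) := by
  have hNpos : 0 < N := by have := hB.two; omega
  have hN0 : (0 : ℝ) < N := by exact_mod_cast hNpos
  have hN1 : (1 : ℝ) ≤ N := by exact_mod_cast hNpos
  have hmem : ∀ m ∈ mm N n, 1 ≤ m ∧ (∀ p ∈ m.primeFactors, ZZ N < p) ∧ (m : ℝ) ≤ (N : ℝ) ^ (5011 / 10000 : ℝ) := by
    intro m hm
    rw [mem_mm] at hm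
    exact ⟨hm.1.1, hm.2.1, hB.up m hm.1.1 (lt_of_lt_of_le hm.2.2 hn)⟩
  have hshape : ∀ m ∈ mm N n, m = 1 ∨ m.Prime ∨
      (∃ p q : ℕ, m = p * q ∧ m.minFac = p ∧ p.Prime ∧ q.Prime ∧ p ≤ q) := by
    intro m hm
    obtain ⟨h1, h2, h3⟩ := hmem m hm
    refine shape h1 h2 ?_
    have := h3.trans_lt hB.Z3
    exact_mod_cast this
  set A2 := (mm N n).filter Nat.Prime with hA2
  set A3 := (mm N n).filter (fun m => ¬ m.Prime ∧ m ≠ 1) with hA3
  have hsplit : Wt N n ≤ 1 + ∑ m ∈ A2, (1 : ℝ) / m + ∑ m ∈ A3, (1 : ℝ) / m := by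
    have hsub : mm N n ⊆ ({1} ∪ A2) ∪ A3 := by
      intro m hm
      rw [mem_union, mem_union, mem_singleton, hA2, hA3, mem_filter, mem_filter]
      by_cases h1 : m = 1
      · exact Or.inl (Or.inl h1)
      by_cases h2 : m.Prime
      · exact Or.inl (Or.inr ⟨hm, h2⟩)
      · exact Or.inr ⟨hm, h2, h1⟩
    have hpos : ∀ s : Finset ℕ, 0 ≤ ∑ m ∈ s, (1 : ℝ) / m := fun s => sum_nonneg fun _ _ => by positivity
    unfold Wt
    calc ∑ m ∈ mm N n, (1 : ℝ) / m ≤ ∑ m ∈ ({1} ∪ A2) ∪ A3, (1 : ℝ) / m :=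
          sum_le_sum_of_subset_of_nonneg hsub fun _ _ _ => by positivity
      _ ≤ ∑ m ∈ ({1} ∪ A2), (1 : ℝ) / m + ∑ m ∈ A3, (1 : ℝ) / m := by
          rw [← sum_union_inter]
          linarith [hpos (({1} ∪ A2) ∩ A3)]
      _ ≤ (∑ m ∈ ({1} : Finset ℕ), (1 : ℝ) / m + ∑ m ∈ A2, (1 : ℝ) / m) + ∑ m ∈ A3, (1 : ℝ) / m := by
          rw [← sum_union_inter (s₁ := {1})]
          linarith [hpos (({1} : Finset ℕ) ∩ A2)]
      _ = 1 + ∑ m ∈ A2, (1 : ℝ) / m + ∑ m ∈ A3, (1 : ℝ) / m := by rw [sum_singleton]; simp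
  have h2 : ∑ m ∈ A2, (1 : ℝ) / m ≤ SP (1 / 5) (5011 / 10000) N := by
    unfold SP
    refine sum_le_sum_of_subset_of_nonneg ?_ fun _ _ _ => by positivity
    intro m hm
    rw [hA2, mem_filter] at hm
    obtain ⟨h1, h2, h3⟩ := hmem m hm.1
    unfold PP
    rw [mem_filter, mem_Ioc]
    exact ⟨⟨h2 m (Nat.mem_primeFactors.2 ⟨hm.2, dvd_rfl, hm.2.pos.ne'⟩), Nat.le_floor h3⟩, hm.2⟩
  -- the products
  set C : ℝ → ℝ → Finset (ℕ × ℕ) := fun a b => PP a b N ×ˢ PP a (5011 / 10000 - a) N with hC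
  have himg : A3.image fac ⊆ C (1 / 5) (17 / 80) ∪ C (17 / 80) (9 / 40) ∪ C (9 / 40) (19 / 80) ∪
      C (19 / 80) (1253 / 5000) := by
    intro x hx
    rw [mem_image] at hx
    obtain ⟨m, hm, rfl⟩ := hx
    rw [hA3, mem_filter] at hm
    obtain ⟨hm, hnp, hn1⟩ := hm
    obtain ⟨g1, g2, g3⟩ := hmem m hm
    rcases hshape m hm with h | h | ⟨p, q, k1, k2, k3, k4, k5⟩
    · exact absurd h hn1
    · exact absurd h hnp
    have e : fac m = (p, q) := by
      unfold fac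
      rw [k2, k1, Nat.mul_div_cancel_left _ k3.pos]
    have hZp : ZZ N < p := g2 p (Nat.mem_primeFactors.2 ⟨k3, ⟨q, k1⟩, by omega⟩)
    have hpq : (p : ℝ) * q ≤ (N : ℝ) ^ (5011 / 10000 : ℝ) := by
      rw [k1] at g3
      push_cast at g3
      exact g3
    have hple : p ≤ ⌊(N : ℝ) ^ (1253 / 5000 : ℝ)⌋₊ := by
      apply Nat.le_floor
      have hp0 : (0 : ℝ) < p := by exact_mod_cast k3.pos
      have hpq' : (p : ℝ) ≤ q := by exact_mod_cast k5
      by_contra hcon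
      push Not at hcon
      have c0 : 0 < (N : ℝ) ^ (1253 / 5000 : ℝ) := Real.rpow_pos_of_pos hN0 _
      have c1 : (N : ℝ) ^ (1253 / 5000 : ℝ) * (N : ℝ) ^ (1253 / 5000 : ℝ) < p * q :=
        mul_lt_mul'' hcon (lt_of_lt_of_le hcon hpq') c0.le c0.le
      rw [← Real.rpow_add hN0] at c1
      have c2 : (N : ℝ) ^ (5011 / 10000 : ℝ) ≤ (N : ℝ) ^ (1253 / 5000 + 1253 / 5000 : ℝ) :=
        Real.rpow_le_rpow_of_exponent_le hN1 (by norm_num)
      linarith
    have hmk : ∀ a b : ℝ, ⌊(N : ℝ) ^ a⌋₊ < p → p ≤ ⌊(N : ℝ) ^ b⌋₊ → (p, q) ∈ C a b := by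
      intro a b ha hb
      rw [hC, mem_product]
      refine ⟨?_, second hNpos ha k5 hpq k4⟩
      unfold PP
      rw [mem_filter, mem_Ioc]
      exact ⟨⟨ha, hb⟩, k3⟩
    rw [e, mem_union, mem_union, mem_union]
    rcases Nat.lt_or_ge ⌊(N : ℝ) ^ (19 / 80 : ℝ)⌋₊ p with h | h
    · exact Or.inr (hmk _ _ h hple)
    rcases Nat.lt_or_ge ⌊(N : ℝ) ^ (9 / 40 : ℝ)⌋₊ p with h' | h'
    · exact Or.inl (Or.inr (hmk _ _ h' h))
    rcases Nat.lt_or_ge ⌊(N : ℝ) ^ (17 / 80 : ℝ)⌋₊ p with h'' | h''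
    · exact Or.inl (Or.inl (Or.inr (hmk _ _ h'' h')))
    · exact Or.inl (Or.inl (Or.inl (hmk _ _ hZp h'')))
  set w : ℕ × ℕ → ℝ := fun x => (1 : ℝ) / x.1 * (1 / x.2) with hw
  have hw0 : ∀ x, 0 ≤ w x := fun x => by simp only [hw]; positivity
  have hCs : ∀ a b : ℝ, ∑ x ∈ C a b, w x = SP a b N * SP a (5011 / 10000 - a) N := by
    intro a b
    simp only [hC, hw]
    rw [sum_product]
    simp_rw [← mul_sum]
    rw [← sum_mul]
    rfl
  have hun : ∀ s t : Finset (ℕ × ℕ), ∑ x ∈ s ∪ t, w x ≤ ∑ x ∈ s, w x + ∑ x ∈ t, w x := by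
    intro s t
    rw [← sum_union_inter]
    have : 0 ≤ ∑ x ∈ s ∩ t, w x := sum_nonneg fun x _ => hw0 x
    linarith
  have h3 : ∑ m ∈ A3, (1 : ℝ) / m ≤ SP (1 / 5) (17 / 80) N * SP (1 / 5) (5011 / 10000 - 1 / 5) N +
      SP (17 / 80) (9 / 40) N * SP (17 / 80) (5011 / 10000 - 17 / 80) N +
      SP (9 / 40) (19 / 80) N * SP (9 / 40) (5011 / 10000 - 9 / 40) N +
      SP (19 / 80) (1253 / 5000) N * SP (19 / 80) (5011 / 10000 - 19 / 80) N := by
    have e : ∑ m ∈ A3, (1 : ℝ) / m = ∑ x ∈ A3.image fac, w x := by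
      rw [sum_image (fun a _ b _ h => fac_inj h)]
      apply sum_congr rfl
      intro m _
      simp only [hw]
      rw [one_div_mul_one_div, ← Nat.cast_mul, fac_mul]
    rw [e]
    refine (sum_le_sum_of_subset_of_nonneg himg fun x _ _ => hw0 x).trans ?_
    rw [← hCs, ← hCs, ← hCs, ← hCs]
    have u1 := hun (C (1 / 5) (17 / 80) ∪ C (17 / 80) (9 / 40) ∪ C (9 / 40) (19 / 80)) (C (19 / 80) (1253 / 5000))
    have u2 := hun (C (1 / 5) (17 / 80) ∪ C (17 / 80) (9 / 40)) (C (9 / 40) (19 / 80))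
    have u3 := hun (C (1 / 5) (17 / 80)) (C (17 / 80) (9 / 40))
    linarith
  linarith

lemma l0 : Real.log (5011 / 10000 / (1 / 5)) ≤ 0.91852 := by
  have e : (5011 / 10000 / (1 / 5) : ℝ) = 2 * 1.25275 := by norm_num
  rw [e, Real.log_mul (by norm_num) (by norm_num)]
  have h1 := Real.log_two_lt_d9
  have h2 : Real.log 1.25275 ≤ 0.22536 := log_num (by norm_num) (by norm_num) (by norm_num)
  linarith
lemma l1 : Real.log (17 / 80 / (1 / 5)) ≤ 0.06063 := log_num (by norm_num) (by norm_num) (by norm_num)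
lemma l2 : Real.log ((5011 / 10000 - 1 / 5) / (1 / 5)) ≤ 0.40922 := log_num (by norm_num) (by norm_num) (by norm_num)
lemma l3 : Real.log (9 / 40 / (17 / 80)) ≤ 0.05717 := log_num (by norm_num) (by norm_num) (by norm_num)
lemma l4 : Real.log ((5011 / 10000 - 17 / 80) / (17 / 80)) ≤ 0.30616 := log_num (by norm_num) (by norm_num) (by norm_num)
lemma l5 : Real.log (19 / 80 / (9 / 40)) ≤ 0.05408 := log_num (by norm_num) (by norm_num) (by norm_num)
lemma l6 : Real.log ((5011 / 10000 - 9 / 40) / (9 / 40)) ≤ 0.20472 := log_num (by norm_num) (by norm_num) (by norm_num)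
lemma l7 : Real.log (1253 / 5000 / (19 / 80)) ≤ 0.05371 := log_num (by norm_num) (by norm_num) (by norm_num)
lemma l8 : Real.log ((5011 / 10000 - 19 / 80) / (19 / 80)) ≤ 0.10428 := log_num (by norm_num) (by norm_num) (by norm_num)

lemma sp {a b y : ℝ} (ha : 0 < a) (hab : a ≤ b) (h : Real.log (b / a) ≤ y) :
    ∀ᶠ N : ℕ in atTop, SP a b N ≤ y + 1 / 10000 := by
  filter_upwards [sum_pow ha hab (ε := 1 / 10000) (by norm_num)] with N hN
  unfold SP PP
  linarith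

/-- the upper bound -/
lemma upper : ∀ᶠ N : ℕ in atTop, ∀ n : ℕ, n ≤ N → Wt N n ≤ 198 / 100 := by
  filter_upwards [big, sp (by norm_num) (by norm_num) l0, sp (by norm_num) (by norm_num) l1,
    sp (by norm_num) (by norm_num) l2, sp (by norm_num) (by norm_num) l3,
    sp (by norm_num) (by norm_num) l4, sp (by norm_num) (by norm_num) l5,
    sp (by norm_num) (by norm_num) l6, sp (by norm_num) (by norm_num) l7,
    sp (by norm_num) (by norm_num) l8] with N hB h0 h1 h2 h3 h4 h5 h6 h7 h8 n hn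
  refine (bound hB hn).trans ?_
  have m1 := mul_le_mul h1 h2 (SP_nonneg _ _ N) (by norm_num)
  have m2 := mul_le_mul h3 h4 (SP_nonneg _ _ N) (by norm_num)
  have m3 := mul_le_mul h5 h6 (SP_nonneg _ _ N) (by norm_num)
  have m4 := mul_le_mul h7 h8 (SP_nonneg _ _ N) (by norm_num)
  have m5 : (0.06063 + 1 / 10000 : ℝ) * (0.40922 + 1 / 10000) + (0.05717 + 1 / 10000) * (0.30616 + 1 / 10000) +
    (0.05408 + 1 / 10000) * (0.20472 + 1 / 10000) + (0.05371 + 1 / 10000) * (0.10428 + 1 / 10000) ≤ 0.0595 := by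
    norm_num
  linarith

end Pool.Agent.Helper34.GV.WT

namespace Pool.Agent.Helper34.GV

open Finset Filter Topology WT
open Pool.Agent.R453.GS (ev_log log_floor)

/-- WTB -/
theorem wtb : WtbStm := by
  obtain ⟨N₀, hN₀⟩ := eventually_atTop.1 upper
  refine ⟨198 / 100, N₀, fun N hN => ⟨fun n => Wt_nonneg N n, fun n hn => hN₀ N hN n hn, ?_⟩⟩
  have h1 : ∀ n ∈ range N, |Wt N (n + 1) - Wt N n| = Wt N (n + 1) - Wt N n := fun n _ =>
    abs_of_nonneg (by linarith [Wt_mono N (Nat.le_succ n)])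
  rw [sum_congr rfl h1, sum_range_sub]
  have := Wt_nonneg N 0
  have := hN₀ N hN N le_rfl
  linarith

/-- WTD -/
theorem wtd : WtdStm := by
  intro B
  have hLT : Tendsto (fun N : ℕ => Real.log (N : ℝ)) atTop atTop :=
    Real.tendsto_log_atTop.comp tendsto_natCast_atTop_atTop
  have h5 : ∀ᶠ L : ℝ in atTop, B * Real.log L ≤ 1 / 5 * L := by
    have h6 := Real.isLittleO_log_id_atTop.bound (show (0 : ℝ) < 1 / (5 * (B + 1)) by positivity)
    filter_upwards [h6, eventually_ge_atTop 1] with L h7 h8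
    have h9 : 0 ≤ Real.log L := Real.log_nonneg h8
    rw [Real.norm_of_nonneg h9, id, Real.norm_of_nonneg (by linarith)] at h7
    have h10 : (B + 1 : ℝ) * Real.log L ≤ 1 / 5 * L := by
      calc (B + 1 : ℝ) * Real.log L ≤ (B + 1 : ℝ) * (1 / (5 * (B + 1)) * L) :=
            mul_le_mul_of_nonneg_left h7 (by positivity)
        _ = 1 / 5 * L := by field_simp
    linarith
  have hall := upper.and ((hLT.eventually_ge_atTop 1).and ((hLT.eventually h5).and (eventually_ge_atTop 2)))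
  obtain ⟨N₀, hN₀⟩ := eventually_atTop.1 hall
  refine ⟨N₀, fun N hN n hn hnN => ?_⟩
  obtain ⟨hup, hL1, hBL, hN2⟩ := hN₀ N hN
  refine ⟨?_, hup n hn⟩
  have hN0 : (0 : ℝ) < N := by exact_mod_cast (by omega : 0 < N)
  have hL0 : 0 < Real.log N := by linarith
  have hY1 : 1 ≤ YY N := (Nat.one_le_floor_iff _).2
    (Real.one_le_rpow (by exact_mod_cast (by omega : 1 ≤ N)) (by norm_num))
  have hYl : Real.log (YY N) ≤ 499 / 1000 * Real.log N := by
    rw [← Real.log_rpow hN0]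
    refine Real.log_le_log (by exact_mod_cast hY1) (Nat.floor_le (by positivity))
  have h1 : Real.log (YY N) < Real.log ((N : ℝ) / Real.log N ^ B) := by
    rw [Real.log_div hN0.ne' (by positivity), Real.log_pow]
    linarith
  have h2 : ((YY N : ℕ) : ℝ) < (N : ℝ) / Real.log N ^ B :=
    (Real.log_lt_log_iff (by exact_mod_cast hY1) (by positivity)).1 h1
  have h3 : YY N < n := by exact_mod_cast h2.trans_le hnN
  have h4 : 1 ∈ mm N n := by
    rw [mem_mm]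
    exact ⟨⟨le_rfl, by omega⟩, by simp, by omega⟩
  unfold Wt
  have h5 := single_le_sum (f := fun m : ℕ => (1 : ℝ) / m) (fun m _ => by positivity) h4
  simpa using h5

end Pool.Agent.Helper34.GV
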