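import Pool.Agent.Helper34.GV.D8
import Pool.Agent.Helper34.GV.Cnt
import Pool.Agent.Helper34.GV.Bil2
import Pool.Agent.Helper34.GV.MG
import Pool.Agent.Helper34.GV.NG
import Pool.Agent.Helper34.GV.MH
import Pool.Agent.Helper34.GV.D2
import Pool.Agent.Helper34.GV.D3
import Pool.Agent.Helper34.GV.D4
import Pool.Agent.Helper34.GV.Wt1
import Pool.Agent.Helper34.GV.Apg1
import Pool.Graph.R_seed8.R460.GS.Conv

/-!
Project GV, the assembly: the lower bound for the number of Goldbach representations in ALL residue classes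
of the moduli up to `N ^ (4/5 - ρ)` which are not divisible by one of at most `(log N) ^ c` large integers.
-/

set_option autoImplicit false

namespace Pool.Agent.Helper34.GV

open Finset
open Pool.Agent.Y883.GJ
open Pool.Agent.R460.GS
open Pool.Agent.Y883.T4 (badc class_le)

theorem gr_all (hTA : TpMajStm) (hTB : TpMinStm) (ρ : ℝ) (hρ : 0 < ρ) (A : ℕ) :
    ∃ c : ℕ, ∀ A₀ : ℕ, ∃ N₀ : ℕ, ∀ N : ℕ, N₀ ≤ N → ∃ D : Finset ℕ, (D.card : ℝ) ≤ Real.log N ^ c ∧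
      (∀ d ∈ D, Real.log N ^ A₀ < (d : ℝ)) ∧
      ∀ q : ℕ, 1 ≤ q → (q : ℝ) ≤ (N : ℝ) ^ (4 / 5 - ρ) → (∀ d ∈ D, ¬ d ∣ q) → ∀ a : ℕ,
        ((badc (WinL A) N q a).card : ℝ) ≤ (N : ℝ) / (q * Real.log N ^ A) :=
  gr_main
    (errR Pool.Agent.Y812.GJ.l2 (tiMaj2 Pool.Agent.Y812.GJ.l2)
      (core3 Pool.Agent.Y708.GJ.lift Pool.Agent.Y872.GJ.pars Pool.Agent.Y297.GJ.orth Pool.Agent.Y812.GJ.nonU)
      (mG Pool.Agent.Y812.GJ.l2 (bilMaj2 Pool.Agent.Y812.GJ.l2 cnt) (tiMaj2 Pool.Agent.Y812.GJ.l2) hTA)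
      (nG Pool.Agent.Y812.GJ.l2 Pool.Agent.Y909.GJ.bilMin Pool.Agent.Y412.GJ.tiMin hTB)
      (mG3 Pool.Agent.Y812.GJ.l2 (tiMaj2 Pool.Agent.Y812.GJ.l2) hTA (bilMaj3 Pool.Agent.Y812.GJ.l2)
        (count3 cntP))
      (mH (tiMaj2 Pool.Agent.Y812.GJ.l2) Pool.Agent.Y812.GJ.lsh_le wtb)
      (nH Pool.Agent.Y412.GJ.tiMin Pool.Agent.Y812.GJ.lsh_le wtb)
      wtb apg Pool.Agent.Y883.GJ.model_all)
    wtb wtd ρ hρ A

end Pool.Agent.Helper34.GV
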