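import Pool.Agent.Helper34.GV.Grid
import Pool.Graph.R_seed8.Y883.T4.Gold

set_option autoImplicit false

/-! The binary Goldbach problem in the residue classes of every modulus up to `x ^ (4/5 - ρ)`: lower bounds
in all windows. -/

namespace Pool.Agent.Helper34.GV

open Finset
open Pool.Agent.H373R2.T7 (lamz Vz pz lamI lamzI Vz_pos)
open Pool.Agent.Y883.T3 (lsh)
open Pool.Agent.Y883.GJ
open Pool.Agent.W93.PG (wn cnt lam_sub wn_le)
open Pool.Agent.H560R3.GB (sing C₂)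
open Pool.Agent.W93.GB (sing_eq one_le_prod_dv C2_half)
open Pool.Agent.Y614.GJ.Core (ev_log)
open Pool.Agent.Y883.T4 (badc class_le)

/-- at least a thirtieth of the expected number of Goldbach pairs in all windows -/
def WinL (A m : ℕ) : Prop :=
  ∀ y₁ y₂ : ℕ, y₁ < y₂ → y₂ ≤ m → (m : ℝ) / Real.log m ^ A ≤ (y₂ : ℝ) - y₁ →
    1 / 30 * (sing m * ((y₂ : ℝ) - y₁) / Real.log m ^ 2) ≤ (cnt m y₁ y₂ : ℝ)

lemma one_le_sing (n : ℕ) : 1 ≤ sing n := by
  rw [sing_eq]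
  have h1 := C2_half
  have h2 := one_le_prod_dv (n.primeFactors.filter (fun p => 2 < p)) (fun p hp => (mem_filter.1 hp).2)
  nlinarith

lemma wn_nn_mono (n : ℕ) {a b c d : ℕ} (h1 : a ≤ b) (h2 : c ≤ d) : wn n b c ≤ wn n a d := by
  unfold wn
  refine sum_le_sum_of_subset_of_nonneg (fun x hx => ?_) fun x _ _ => ?_
  · rw [mem_Ioc] at hx ⊢
    omega
  · exact mul_nonneg ArithmeticFunction.vonMangoldt_nonneg (Pool.Agent.H373R2.T7.lamI_nonneg _)

/-- from the grid to all windows -/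
lemma windows_of_grid (A : ℕ) : ∃ N₀ : ℕ, ∀ N : ℕ, N₀ ≤ N → ∀ H : ℕ, 1 ≤ H →
    (H : ℝ) ≤ 2 * (N / Real.log N ^ (2 * A + 4)) → ∀ n : ℕ, n ≤ N → (N : ℝ) / Real.log N ^ (A + 1) ≤ n →
    sing n ≤ 2 * Real.log N →
    (∀ i j : ℕ, i ≤ j → j * H < n →
      39 / 1000 * (sing n * (((j * H : ℕ) : ℝ) - ((i * H : ℕ) : ℝ))) - N / Real.log N ^ (2 * A + 4) ≤
        wn n (i * H) (j * H)) → WinL A n := by
  obtain ⟨N₁, h1⟩ := Filter.eventually_atTop.1 (ev_log (3 * A + 10) (s := 1 / 4) (by norm_num) 10000)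
  refine ⟨N₁ + 2, fun N hN H hH1 hH n hn hnN hS2 hgrid y₁ y₂ h12 h2 hlen => ?_⟩
  have hN1 : 1 ≤ N := by omega
  have hN0 : (0 : ℝ) < N := by exact_mod_cast hN1
  obtain ⟨hL, hLp⟩ := h1 N (by omega)
  obtain ⟨L, hLd⟩ : ∃ L, L = Real.log (N : ℝ) := ⟨_, rfl⟩
  rw [← hLd] at hL hLp hH hnN hS2 hgrid
  have hL0 : 0 < L := by linarith
  have hL1 : 1 ≤ L := by linarith
  have hn0 : (0 : ℝ) < n := lt_of_lt_of_le (by positivity) hnN
  have hn1 : 1 ≤ n := by exact_mod_cast hn0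
  have hnr : (n : ℝ) ≤ N := by exact_mod_cast hn
  have hlogn : Real.log n ≤ L := by
    rw [hLd]
    exact Real.log_le_log hn0 hnr
  have hlogn1 : 1 ≤ Real.log n := by
    -- `n` is large
    have e1 : (N : ℝ) ^ (3 / 4 : ℝ) ≤ n := by
      refine le_trans ?_ hnN
      rw [le_div_iff₀ (by positivity)]
      calc (N : ℝ) ^ (3 / 4 : ℝ) * L ^ (A + 1) ≤ (N : ℝ) ^ (3 / 4 : ℝ) * (N : ℝ) ^ (1 / 4 : ℝ) := by
            have : L ^ (A + 1) ≤ (N : ℝ) ^ (1 / 4 : ℝ) := (pow_le_pow_right₀ hL1 (by omega)).trans hLp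
            gcongr
        _ = N := by
            rw [← Real.rpow_add hN0]
            norm_num
    have e2 : 3 / 4 * L ≤ Real.log n := by
      rw [hLd, ← Real.log_rpow hN0]
      exact Real.log_le_log (by positivity) e1
    linarith
  have hlogn0 : 0 < Real.log n := by linarith
  obtain ⟨Δ, hΔ⟩ : ∃ Δ : ℝ, Δ = (y₂ : ℝ) - y₁ := ⟨_, rfl⟩
  obtain ⟨S, hSd⟩ : ∃ S : ℝ, S = sing n := ⟨_, rfl⟩
  have hS1 : 1 ≤ S := by rw [hSd]; exact one_le_sing n
  rw [← hΔ] at hlen ⊢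
  rw [← hSd] at hS2 hgrid ⊢
  have hΔ1 : (n : ℝ) / L ^ A ≤ Δ := by
    refine le_trans ?_ hlen
    apply div_le_div_of_nonneg_left hn0.le (by positivity)
    exact pow_le_pow_left₀ hlogn0.le hlogn A
  have hΔ2 : (N : ℝ) / L ^ (2 * A + 1) ≤ Δ := by
    refine le_trans ?_ hΔ1
    rw [show 2 * A + 1 = (A + 1) + A by ring, pow_add, ← div_div]
    exact div_le_div_of_nonneg_right hnN (by positivity)
  have hΔ0 : 0 < Δ := lt_of_lt_of_le (by positivity) hΔ2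
  have hV : (N : ℝ) / L ^ (2 * A + 4) ≤ Δ / L ^ 3 := by
    rw [show 2 * A + 4 = (2 * A + 1) + 3 by ring, pow_add, ← div_div]
    exact div_le_div_of_nonneg_right hΔ2 (by positivity)
  have hL3 : Δ / L ^ 3 ≤ Δ / L / 10000 := by
    rw [div_div]
    apply div_le_div_of_nonneg_left hΔ0.le (by positivity)
    have : L ^ 3 = L * (L * L) := by ring
    rw [this]
    have : (10000 : ℝ) ≤ L * L := by nlinarith
    exact mul_le_mul_of_nonneg_left this hL0.le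
  have hΔL : Δ / L ≤ Δ / 10000 := div_le_div_of_nonneg_left hΔ0.le (by norm_num) hL
  have hHΔ : (H : ℝ) ≤ Δ / L / 5000 := by linarith
  have hHΔ' : (H : ℝ) ≤ Δ / 1000 := by
    have : Δ / L / 5000 ≤ Δ / L := div_le_self (by positivity) (by norm_num)
    linarith
  have hH0 : (1 : ℝ) ≤ H := by exact_mod_cast hH1
  -- the points of the grid
  obtain ⟨i, hi⟩ : ∃ i, i = (y₁ + H - 1) / H := ⟨_, rfl⟩
  obtain ⟨j, hj⟩ : ∃ j, j = (y₂ - 1) / H := ⟨_, rfl⟩
  have hi1 : y₁ ≤ i * H := by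
    have h3 := Nat.lt_div_mul_add (a := y₁ + H - 1) (b := H) (by omega)
    rw [← hi] at h3
    omega
  have hi2 : i * H ≤ y₁ + H := by
    have h3 := Nat.div_mul_le_self (y₁ + H - 1) H
    rw [← hi] at h3
    omega
  have hj1 : j * H ≤ y₂ - 1 := by
    rw [hj]
    exact Nat.div_mul_le_self _ _
  have hj2 : y₂ ≤ j * H + H := by
    have h3 := Nat.lt_div_mul_add (a := y₂ - 1) (b := H) (by omega)
    rw [← hj] at h3
    omega
  have hi2r : ((i * H : ℕ) : ℝ) ≤ y₁ + H := by exact_mod_cast hi2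
  have hj2r : (y₂ : ℝ) ≤ ((j * H : ℕ) : ℝ) + H := by exact_mod_cast hj2
  have hij : i ≤ j := by
    by_contra hcon
    have h3 : j * H ≤ i * H := Nat.mul_le_mul_right _ (by omega)
    have h4 : ((j * H : ℕ) : ℝ) ≤ ((i * H : ℕ) : ℝ) := by exact_mod_cast h3
    linarith
  have h3 := hgrid i j hij (by omega)
  have h4 := wn_nn_mono n hi1 (show j * H ≤ y₂ by omega)
  have h5 := wn_le n y₁ y₂ h2 hn1
  have hgap : Δ - 2 * H ≤ ((j * H : ℕ) : ℝ) - ((i * H : ℕ) : ℝ) := by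
    rw [hΔ]
    linarith
  have h6 : 39 / 1000 * (S * (Δ - 2 * H)) ≤ 39 / 1000 * (S * (((j * H : ℕ) : ℝ) - ((i * H : ℕ) : ℝ))) := by
    gcongr
  have hSΔ : Δ ≤ S * Δ := by nlinarith
  -- the square root
  have h7 : 4 * √(n : ℝ) * Real.log n ^ 2 ≤ Δ / 1000 := by
    have e1 : √(n : ℝ) ≤ √(N : ℝ) := Real.sqrt_le_sqrt hnr
    have e2 : Real.log n ^ 2 ≤ L ^ 2 := pow_le_pow_left₀ hlogn0.le hlogn 2
    have e3 : 4 * √(n : ℝ) * Real.log n ^ 2 ≤ 4 * √(N : ℝ) * L ^ 2 := by gcongr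
    refine e3.trans (le_trans ?_ (div_le_div_of_nonneg_right hΔ2 (by norm_num)))
    rw [Real.sqrt_eq_rpow, le_div_iff₀ (by norm_num), le_div_iff₀ (by positivity)]
    calc 4 * (N : ℝ) ^ (1 / 2 : ℝ) * L ^ 2 * 1000 * L ^ (2 * A + 1)
        = (N : ℝ) ^ (1 / 2 : ℝ) * (4000 * (L ^ 2 * L ^ (2 * A + 1))) := by ring
      _ ≤ (N : ℝ) ^ (1 / 2 : ℝ) * (N : ℝ) ^ (1 / 2 : ℝ) := by
          have e4 : 4000 * (L ^ 2 * L ^ (2 * A + 1)) ≤ (N : ℝ) ^ (1 / 2 : ℝ) := by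
            calc 4000 * (L ^ 2 * L ^ (2 * A + 1)) ≤ L * (L ^ 2 * L ^ (2 * A + 1)) := by
                  gcongr
                  linarith
              _ = L ^ (2 * A + 4) := by ring
              _ ≤ L ^ (3 * A + 10) := pow_le_pow_right₀ hL1 (by omega)
              _ ≤ (N : ℝ) ^ (1 / 4 : ℝ) := hLp
              _ ≤ (N : ℝ) ^ (1 / 2 : ℝ) :=
                  Real.rpow_le_rpow_of_exponent_le (by exact_mod_cast hN1) (by norm_num)
          gcongr
      _ = N := by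
          rw [← Real.rpow_add hN0]
          norm_num
  have h8 : S * H ≤ Δ / 1000 := by
    calc S * H ≤ (2 * L) * (Δ / L / 5000) := by gcongr
      _ = Δ / 2500 := by
          field_simp
          ring
      _ ≤ Δ / 1000 := by linarith
  have h9 : 1 / 30 * (S * Δ) ≤ (cnt n y₁ y₂ : ℝ) * Real.log n ^ 2 := by
    have k1 : 39 / 1000 * (S * (Δ - 2 * H)) = 39 / 1000 * (S * Δ) - 78 / 1000 * (S * H) := by ring
    rw [k1] at h6
    have k2 : (N : ℝ) / L ^ (2 * A + 4) ≤ Δ / 1000 := by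
      have : Δ / L / 10000 ≤ Δ / L := div_le_self (by positivity) (by norm_num)
      linarith
    linarith
  have h10 : S * Δ / Real.log n ^ 2 * Real.log n ^ 2 = S * Δ := div_mul_cancel₀ _ (by positivity)
  have h11 : 0 < Real.log n ^ 2 := by positivity
  have h12' : 1 / 30 * (S * Δ / Real.log n ^ 2) * Real.log n ^ 2 ≤ (cnt n y₁ y₂ : ℝ) * Real.log n ^ 2 := by
    rw [mul_assoc, h10]
    linarith
  exact le_of_mul_le_mul_right h12' h11

end Pool.Agent.Helper34.GV
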