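import Pool.Agent.Helper34.GV.Stm

set_option autoImplicit false

/-! Elementary facts on the function `gr` (helper48). -/

namespace Pool.Agent.Helper34.GV

open Finset

lemma one_le_div {N n : ℕ} (hn : n ∈ Icc 1 N) : (1 : ℝ) ≤ (n.divisors.card : ℝ) := by
  have : 0 < n.divisors.card := card_pos.2 ⟨1, Nat.one_mem_divisors.2 (by
    rw [mem_Icc] at hn
    omega)⟩
  exact_mod_cast this

lemma vm_le {N n : ℕ} (hn : n ∈ Icc 1 N) : ArithmeticFunction.vonMangoldt n ≤ Real.log N := by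
  rw [mem_Icc] at hn
  refine ArithmeticFunction.vonMangoldt_le_log.trans ?_
  exact Real.log_le_log (by exact_mod_cast hn.1) (by exact_mod_cast hn.2)

lemma lp_nn' (N p : ℕ) : 0 ≤ lp N p := by
  unfold lp
  split_ifs
  · exact Real.log_natCast_nonneg _
  · exact le_rfl

lemma lp_le_log (N p : ℕ) : lp N p ≤ Real.log p := by
  unfold lp
  split_ifs
  · exact le_rfl
  · exact Real.log_natCast_nonneg _

/-- the sum of the logarithms of the prime factors -/
lemma sum_lp_le (N n : ℕ) : ∑ p ∈ n.primeFactors, lp N p ≤ Real.log n := by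
  rcases Nat.eq_zero_or_pos n with h0 | h0
  · subst h0
    simp
  have h1 : ∑ p ∈ n.primeFactors, lp N p ≤ ∑ p ∈ n.primeFactors, Real.log p :=
    sum_le_sum fun p _ => lp_le_log N p
  refine h1.trans ?_
  rw [← Real.log_prod (fun p hp => by
    exact_mod_cast (Nat.prime_of_mem_primeFactors hp).ne_zero)]
  have h2 : ∏ p ∈ n.primeFactors, p ≤ n := Nat.le_of_dvd h0 (Nat.prod_primeFactors_dvd n)
  have h3 : 0 < ∏ p ∈ n.primeFactors, p := prod_pos fun p hp => (Nat.prime_of_mem_primeFactors hp).pos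
  have h4 : ∏ p ∈ n.primeFactors, (p : ℝ) = ((∏ p ∈ n.primeFactors, p : ℕ) : ℝ) := by
    rw [Nat.cast_prod]
  rw [h4]
  exact Real.log_le_log (Nat.cast_pos.2 h3) (Nat.cast_le.2 h2)

lemma gr_nonneg (N n : ℕ) : 0 ≤ gr N n := by
  unfold gr
  split_ifs
  · exact sub_nonneg.2 (sum_lp_le N n)
  · exact le_rfl

lemma gr_le_log (N n : ℕ) : gr N n ≤ Real.log n := by
  unfold gr
  split_ifs
  · have := sum_nonneg fun p (_ : p ∈ n.primeFactors) => lp_nn' N p
    linarith
  · exact Real.log_natCast_nonneg _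

lemma gr_le {N n : ℕ} (hn : n ∈ Icc 1 N) : gr N n ≤ Real.log N := by
  rw [mem_Icc] at hn
  exact (gr_le_log N n).trans (Real.log_le_log (by exact_mod_cast hn.1) (by exact_mod_cast hn.2))

/-- the prime powers counted by `gr` -/
lemma vm_le_gr {N b : ℕ} (h : gr N b ≠ 0) : ArithmeticFunction.vonMangoldt b ≤ gr N b := by
  by_cases h1 : ArithmeticFunction.vonMangoldt b = 0
  · rw [h1]; exact gr_nonneg N b
  obtain ⟨p, k, hp, hk, rfl⟩ := (isPrimePow_nat_iff _).1 (ArithmeticFunction.vonMangoldt_ne_zero_iff.1 h1)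
  have e1 : gr N (p ^ k) = k * Real.log p - lp N p := by
    unfold gr at h ⊢
    by_cases h3 : ∀ p' ∈ (p ^ k).primeFactors, ZZ N < p'
    · rw [if_pos h3, Nat.primeFactors_prime_pow hk.ne' hp, sum_singleton]
      push_cast
      rw [Real.log_pow]
    · rw [if_neg h3] at h
      exact absurd rfl h
  rw [ArithmeticFunction.vonMangoldt_apply_pow hk.ne', ArithmeticFunction.vonMangoldt_apply_prime hp, e1]
  rw [e1] at h
  have hl : 0 ≤ Real.log p := Real.log_natCast_nonneg p
  rcases Nat.lt_or_ge k 2 with h4 | h4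
  · obtain rfl : k = 1 := by omega
    by_cases h5 : lp N p = 0
    · rw [h5]; simp
    · exfalso
      apply h
      unfold lp at h5 ⊢
      by_cases h6 : p.Prime ∧ ZZ N < p ∧ p ≤ YY N
      · rw [if_pos h6]; simp
      · rw [if_neg h6] at h5
        exact absurd rfl h5
  · have h5 := lp_le_log N p
    have h6 : (2 : ℝ) ≤ k := by exact_mod_cast h4
    nlinarith

/-- the prime powers which are not counted by `gr` -/
lemma gr_zero_vm {N b : ℕ} (h1 : ArithmeticFunction.vonMangoldt b ≠ 0) (h : gr N b = 0) (hZ : ZZ N ≤ YY N) :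
    ∃ p k : ℕ, p.Prime ∧ 0 < k ∧ b = p ^ k ∧ p ≤ YY N := by
  obtain ⟨p, k, hp, hk, rfl⟩ := (isPrimePow_nat_iff _).1 (ArithmeticFunction.vonMangoldt_ne_zero_iff.1 h1)
  refine ⟨p, k, hp, hk, rfl, ?_⟩
  by_contra h2
  rw [not_le] at h2
  have h3 : ∀ p' ∈ (p ^ k).primeFactors, ZZ N < p' := by
    intro p' hp'
    rw [Nat.primeFactors_prime_pow hk.ne' hp, mem_singleton] at hp'
    omega
  have h4 : lp N p = 0 := by
    unfold lp
    rw [if_neg]
    rintro ⟨-, -, h5⟩
    omega
  unfold gr at h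
  rw [if_pos h3, Nat.primeFactors_prime_pow hk.ne' hp, sum_singleton, h4, sub_zero] at h
  push_cast at h
  rw [Real.log_pow] at h
  have h5 : 0 < Real.log p := Real.log_pos (by exact_mod_cast hp.one_lt)
  have h6 : (0 : ℝ) < k := by exact_mod_cast hk
  have h7 := mul_pos h6 h5
  linarith

lemma ZZ_le_YY {N : ℕ} (hN : 1 ≤ N) : ZZ N ≤ YY N := by
  unfold ZZ YY
  refine Nat.floor_le_floor ?_
  exact Real.rpow_le_rpow_of_exponent_le (by exact_mod_cast hN) (by norm_num)

end Pool.Agent.Helper34.GV
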