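import Pool.Agent.Helper34.GV.GrBase
import Pool.Graph.R_seed8.R460.GS.Det
import Pool.Graph.R_seed8.R460.GS.ErrAll

set_option autoImplicit false

/-! The sieve model and the difference (helper34, helper48). -/

namespace Pool.Agent.Helper34.GV

open Finset
open Pool.Agent.H807R2.Dav (ee)
open Pool.Agent.H373R2.T7 (lamz Vz pz lamz_ap)
open Pool.Agent.Y883.T3 (lsh)
open Pool.Agent.Y883.GJ
open Pool.Agent.R460.GS (WB)

/-- the weighted sieve model -/
noncomputable def HH (N z r n : ℕ) : ℂ := ((Wt N n * lsh z r n : ℝ) : ℂ)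

/-- the difference -/
noncomputable def f0 (N z r n : ℕ) : ℂ := GG N n - HH N z r n

lemma lsh_abs {U N z r : ℕ} (hP : Par U N z r) {n : ℕ} (hn : n ∈ Icc 1 N) :
    |lsh z r n| ≤ 3 * Real.log N * (n.divisors.card : ℝ) := by
  have h1 := one_le_div hn
  have h2 := vm_le hn
  have h3 := hP.hT n hn
  have h4 : 0 ≤ ArithmeticFunction.vonMangoldt n := ArithmeticFunction.vonMangoldt_nonneg
  have h6 : |lsh z r n| ≤ |ArithmeticFunction.vonMangoldt n - lsh z r n| + ArithmeticFunction.vonMangoldt n := by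
    have h5 : lsh z r n = ArithmeticFunction.vonMangoldt n -
      (ArithmeticFunction.vonMangoldt n - lsh z r n) := by ring
    calc |lsh z r n| = |ArithmeticFunction.vonMangoldt n - (ArithmeticFunction.vonMangoldt n - lsh z r n)| := by
          rw [← h5]
      _ ≤ |ArithmeticFunction.vonMangoldt n| + |ArithmeticFunction.vonMangoldt n - lsh z r n| := abs_sub _ _
      _ = _ := by rw [abs_of_nonneg h4]; ring
  have h7 : 0 ≤ Real.log N := h4.trans h2
  nlinarith


theorem wb_of (h : WtbStm) : ∃ (c : ℝ) (N₀ : ℕ), ∀ N : ℕ, N₀ ≤ N → WB (Wt N) c N := by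
  obtain ⟨c, N₀, h⟩ := h
  exact ⟨c, N₀, fun N hN => ⟨(h N hN).1, (h N hN).2.1, (h N hN).2.2⟩⟩

end Pool.Agent.Helper34.GV
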