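import Pool.Agent.Helper34.GV.Stm
import Pool.Graph.R_seed8.R460.GS.J1
import Pool.Graph.R_seed8.R460.GS.Err
import Pool.Graph.R_seed8.R460.GS.Ti2
import Pool.Graph.R_seed8.R460.GS.GrVec
import Pool.Graph.R_seed8.Y614.GJ.Core

set_option autoImplicit false

/-! The function `gr`: reduction to bilinear sums. -/

namespace Pool.Agent.Helper34.GV

open Finset
open Pool.Agent.Y883.GJ
open Pool.Agent.H807R2.Dav (ee)
open Pool.Agent.Y183.GJ (ci)
open Pool.Agent.Y614.GJ.Core (ev_log)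
open Pool.Agent.R460.GS (JJ cc JJ_le cc_lt sm_le a1_le a2_le b1_le b2_le norm_ev1 j1 er er_le Tw ci_mono tw_sum
  dirV pmx Sm mu abelIBV a1 a2 b1 b2 ro)

lemma WW_le {N : ℕ} (hN : 1 ≤ N) : WW N ≤ ZZ N := by
  unfold WW ZZ
  refine Nat.floor_le_floor ?_
  exact Real.rpow_le_rpow_of_exponent_le (by exact_mod_cast hN) (by norm_num)

lemma ZZ_le {N : ℕ} (hN : 1 ≤ N) : ZZ N ≤ N := by
  unfold ZZ
  have h1 : (N : ℝ) ^ (1 / 5 : ℝ) ≤ N := by
    calc (N : ℝ) ^ (1 / 5 : ℝ) ≤ (N : ℝ) ^ (1 : ℝ) :=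
          Real.rpow_le_rpow_of_exponent_le (by exact_mod_cast hN) (by norm_num)
      _ = N := Real.rpow_one _
  calc ⌊(N : ℝ) ^ (1 / 5 : ℝ)⌋₊ ≤ ⌊(N : ℝ)⌋₊ := Nat.floor_le_floor h1
    _ = N := Nat.floor_natCast N

lemma one_le_WW {N : ℕ} (hN : 1 ≤ N) : 1 ≤ WW N := by
  unfold WW
  rw [Nat.one_le_floor_iff]
  exact Real.one_le_rpow (by exact_mod_cast hN) (by norm_num)

/-- support of the first coefficients -/
lemma a1_supp {N j m : ℕ} {c : ℕ → ℕ} (h : a1 (WW N) (ZZ N) c j m ≠ 0) : WW N < m ∧ m ≤ ZZ N := by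
  unfold a1 at h
  by_contra h'
  apply h
  rw [if_neg]
  rintro ⟨⟨-, h2, h3⟩, -⟩
  exact h' ⟨h2, h3⟩

lemma WW_sq_le {N : ℕ} : WW N * WW N ≤ ZZ N := by
  unfold ZZ
  apply Nat.le_floor
  have h1 : (WW N : ℝ) ≤ (N : ℝ) ^ (1 / 2000 : ℝ) := Nat.floor_le (by positivity)
  rcases Nat.eq_zero_or_pos N with h0 | h0
  · subst h0
    have h2 : WW 0 = 0 := by
      unfold WW
      rw [Nat.cast_zero, Real.zero_rpow (by norm_num)]
      simp
    rw [h2]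
    simp
  · push_cast
    calc (WW N : ℝ) * WW N ≤ (N : ℝ) ^ (1 / 2000 : ℝ) * (N : ℝ) ^ (1 / 2000 : ℝ) :=
          mul_le_mul h1 h1 (Nat.cast_nonneg _) (by positivity)
      _ = (N : ℝ) ^ (1 / 1000 : ℝ) := by
          rw [← Real.rpow_add (by exact_mod_cast h0)]
          norm_num
      _ ≤ _ := Real.rpow_le_rpow_of_exponent_le (by exact_mod_cast h0) (by norm_num)

lemma a2_supp {N j m : ℕ} (hN : 1 ≤ N) {c : ℕ → ℕ} (h : a2 (WW N) (WW N) c j m ≠ 0) :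
    WW N < m ∧ m ≤ ZZ N := by
  unfold a2 at h
  by_contra h'
  apply h
  rw [if_neg]
  rintro ⟨⟨h1, h2, h3⟩, -⟩
  exact h' ⟨h2, ((sm_le (one_le_WW hN) h1 h2 h3).2.1).trans WW_sq_le⟩

/-- the last step of the reduction -/
lemma comb {N A J : ℕ} {L T T1 T4 : ℝ} {f g : ℕ → ℝ} (hL : 16 ≤ L) (hJ : (J : ℝ) ≤ L ^ (A + 14 + 2))
    (hdec : T ≤ T1 + ∑ j ∈ range J, f j + ∑ j ∈ range J, g j + T4) (hT0 : 0 ≤ T) (hT10 : 0 ≤ T1) (_ : 0 ≤ T4)
    (hf0 : ∀ j, 0 ≤ f j) (hg0 : ∀ j, 0 ≤ g j)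
    (t1 : T1 ≤ N / L ^ (A + 4)) (hf : ∀ j ∈ range J, f j ^ 2 ≤ (N : ℝ) ^ 2 / L ^ (A + 2 * (A + 14) + 8))
    (hg : ∀ j ∈ range J, g j ^ 2 ≤ (N : ℝ) ^ 2 / L ^ (A + 2 * (A + 14) + 8))
    (herr : T4 ^ 2 ≤ (N : ℝ) ^ 2 / L ^ (A + 4)) : T ^ 2 * L ^ 2 ≤ (N : ℝ) ^ 2 / L ^ A := by
  have hL0 : 0 < L := by linarith
  have hL1 : 1 ≤ L := by linarith
  have hJs : ∀ f : ℕ → ℝ, (∀ j, 0 ≤ f j) → (∀ j ∈ range J, f j ^ 2 ≤
      (N : ℝ) ^ 2 / L ^ (A + 2 * (A + 14) + 8)) →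
      (∑ j ∈ range J, f j) ^ 2 ≤ (N : ℝ) ^ 2 / L ^ (A + 4) := by
    intro f _ hf
    calc (∑ j ∈ range J, f j) ^ 2
        ≤ (range J).card * ∑ j ∈ range J, f j ^ 2 := sq_sum_le_card_mul_sum_sq
      _ ≤ (J : ℝ) * ∑ j ∈ range J, (N : ℝ) ^ 2 / L ^ (A + 2 * (A + 14) + 8) := by
          rw [card_range]
          gcongr with j hj
          exact hf j hj
      _ = (J : ℝ) * (J : ℝ) * ((N : ℝ) ^ 2 / L ^ (A + 2 * (A + 14) + 8)) := by
          rw [sum_const, card_range, nsmul_eq_mul]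
          ring
      _ ≤ (L ^ (A + 14 + 2)) * (L ^ (A + 14 + 2)) * ((N : ℝ) ^ 2 / L ^ (A + 2 * (A + 14) + 8)) := by gcongr
      _ = (N : ℝ) ^ 2 / L ^ (A + 4) := by
          have e : L ^ (A + 2 * (A + 14) + 8) = L ^ (A + 14 + 2) * L ^ (A + 14 + 2) * L ^ (A + 4) := by ring
          have e0 : L ^ (A + 14 + 2) ≠ 0 := by positivity
          have e1 : L ^ (A + 4) ≠ 0 := by positivity
          rw [e]
          generalize L ^ (A + 14 + 2) = X at e0 ⊢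
          generalize L ^ (A + 4) = Y at e1 ⊢
          field_simp
  have k2 := hJs f hf0 hf
  have k3 := hJs g hg0 hg
  obtain ⟨T2, hT2⟩ : ∃ T2, T2 = ∑ j ∈ range J, f j := ⟨_, rfl⟩
  obtain ⟨T3, hT3⟩ : ∃ T3, T3 = ∑ j ∈ range J, g j := ⟨_, rfl⟩
  rw [← hT2] at k2 hdec
  rw [← hT3] at k3 hdec
  have k1 : T1 ^ 2 ≤ (N : ℝ) ^ 2 / L ^ (A + 4) := by
    have hX : 0 < L ^ (A + 4) := by positivity
    have h5 : 1 ≤ L ^ (A + 4) := one_le_pow₀ hL1
    calc T1 ^ 2 ≤ (N / L ^ (A + 4)) ^ 2 := pow_le_pow_left₀ hT10 t1 2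
      _ = (N : ℝ) ^ 2 / (L ^ (A + 4) * L ^ (A + 4)) := by rw [div_pow]; ring
      _ ≤ (N : ℝ) ^ 2 / L ^ (A + 4) := by
          apply div_le_div_of_nonneg_left (by positivity) hX
          nlinarith
  have k5 : T ^ 2 ≤ 4 * (T1 ^ 2 + T2 ^ 2 + T3 ^ 2 + T4 ^ 2) := by
    have h5 : T ^ 2 ≤ (T1 + T2 + T3 + T4) ^ 2 := pow_le_pow_left₀ hT0 hdec 2
    nlinarith [sq_nonneg (T1 - T2), sq_nonneg (T1 - T3), sq_nonneg (T1 - T4), sq_nonneg (T2 - T3),
      sq_nonneg (T2 - T4), sq_nonneg (T3 - T4)]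
  have hX : 0 ≤ (N : ℝ) ^ 2 / L ^ (A + 4) := by positivity
  calc T ^ 2 * L ^ 2 ≤ (16 * ((N : ℝ) ^ 2 / L ^ (A + 4))) * L ^ 2 := by
        apply mul_le_mul_of_nonneg_right _ (by positivity)
        linarith
    _ = (N : ℝ) ^ 2 / L ^ A * (16 / L ^ 2) := by
        rw [pow_add]
        field_simp
    _ ≤ (N : ℝ) ^ 2 / L ^ A * 1 := by
        have h5 : 16 / L ^ 2 ≤ 1 := by
          rw [div_le_one (by positivity)]
          nlinarith
        gcongr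
    _ = _ := mul_one _

open Classical in
/-- the error terms -/
lemma err_vec (h1 : L2Stm) {N A : ℕ} (hL : 10000 ≤ Real.log N) {q : ℕ} [NeZero q] (hqN : (q : ℝ) ≤ N)
    (S : Finset (DirichletCharacter ℂ q)) (β : ℝ) {y : ℕ} (hy : y ≤ N) (w : ℕ → ℂ)
    (hw : ∀ n ∈ Icc 1 N, ‖w n‖ ≤ Real.log N * (if Tw (cc N (A + 14)) n then 2 * (n.divisors.card : ℝ) else 0)) :
    ‖∑ n ∈ Icc 1 y, w n • ev S β n‖ ^ 2 ≤ (N : ℝ) ^ 2 / Real.log N ^ (A + 4) := by
  rw [norm_ev1 S β (Icc 1 y) w (fun n => n)]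
  have e1 : ∀ χ ∈ S, ‖∑ n ∈ Icc 1 y, w n *
      (χ (n : ZMod q) * ee (n * β))‖ ^ 2 = ‖∑ n ∈ Icc 1 y, (w n * ee (n * β)) * χ (n : ZMod q)‖ ^ 2 := by
    intro χ _
    congr 2
    refine sum_congr rfl fun n _ => ?_
    ring
  rw [sum_congr rfl e1]
  refine (sum_le_sum_of_subset_of_nonneg (subset_univ S) fun χ _ _ => sq_nonneg _).trans ?_
  refine ((h1 q y (fun n => w n * ee (n * β))).1).trans ?_
  have hyr : (y : ℝ) ≤ N := by exact_mod_cast hy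
  have hL00 : 0 < Real.log N := by linarith
  have e2 : ∑ n ∈ Icc 1 y, ‖w n * ee (n * β)‖ ^ 2 ≤
      Real.log N ^ 2 * (64 * (Real.log N ^ (A + 14))⁻¹ * N * (1 + Real.log N) ^ 5) := by
    refine le_trans ?_ (mul_le_mul_of_nonneg_left (tw_sum (δ := (Real.log N ^ (A + 14))⁻¹) (by positivity) N)
      (by positivity))
    rw [mul_sum]
    refine le_trans (sum_le_sum fun n hn => ?_)
      (sum_le_sum_of_subset_of_nonneg (Icc_subset_Icc le_rfl hy) fun _ _ _ => by positivity)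
    rw [norm_mul, Pool.Agent.H807R2.Dav.norm_ee, mul_one, ← mul_pow]
    refine pow_le_pow_left₀ (norm_nonneg _) ?_ 2
    exact hw n (Icc_subset_Icc le_rfl hy hn)
  obtain ⟨L, hLd⟩ : ∃ L, L = Real.log (N : ℝ) := ⟨_, rfl⟩
  rw [← hLd] at e2 hL ⊢
  have hL0 : 0 < L := by linarith
  calc ((y : ℝ) + q) * ∑ n ∈ Icc 1 y, ‖w n * ee (n * β)‖ ^ 2
      ≤ (2 * N) * (L ^ 2 * (64 * (L ^ (A + 14))⁻¹ * N * (1 + L) ^ 5)) :=
        mul_le_mul (by linarith) e2 (sum_nonneg fun _ _ => sq_nonneg _) (by positivity)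
    _ ≤ (2 * N) * (L ^ 2 * (64 * (L ^ (A + 14))⁻¹ * N * (2 * L) ^ 5)) := by
        gcongr
        linarith
    _ = (N : ℝ) ^ 2 / L ^ (A + 4) * (4096 / L ^ 3) := by
        rw [show A + 14 = (A + 4) + 3 + 5 + 2 by ring, pow_add, pow_add L (A + 4 + 3) 5, pow_add L (A + 4) 3]
        field_simp
        ring
    _ ≤ (N : ℝ) ^ 2 / L ^ (A + 4) * 1 := by
        have h5 : 4096 / L ^ 3 ≤ 1 := by
          rw [div_le_one (by positivity)]
          calc (4096 : ℝ) ≤ L := by linarith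
            _ = L ^ 1 := (pow_one L).symm
            _ ≤ L ^ 3 := pow_le_pow_right₀ (by linarith) (by norm_num)
        gcongr
    _ = _ := mul_one _

/-- the vectors with the primes -/
noncomputable def EE {V : Type*} [AddCommGroup V] [Module ℂ V] (N y : ℕ) (v : ℕ → V) (k : ℕ) : V :=
  ∑ p ∈ Icc 1 (y / k), ((lp N p : ℝ) : ℂ) • v (p * k)

/-- convolution with the primes -/
noncomputable def bl (N : ℕ) (b : ℕ → ℂ) (k : ℕ) : ℂ := ∑ p ∈ k.divisors, ((lp N p : ℝ) : ℂ) * b (k / p)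

lemma lp_nonneg (N p : ℕ) : 0 ≤ lp N p := by
  unfold lp
  split_ifs
  · exact Real.log_natCast_nonneg _
  · exact le_rfl

lemma lp_le (N p : ℕ) : lp N p ≤ ArithmeticFunction.vonMangoldt p := by
  unfold lp
  split_ifs with h
  · rw [ArithmeticFunction.vonMangoldt_apply_prime h.1]
  · exact ArithmeticFunction.vonMangoldt_nonneg

lemma lp_sum {N k : ℕ} : ∑ p ∈ k.divisors, lp N p ≤ Real.log k := by
  rw [← ArithmeticFunction.vonMangoldt_sum]
  exact sum_le_sum fun p _ => lp_le N p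

lemma bl_le {N k : ℕ} {b : ℕ → ℂ} {κ : ℝ} (hk : k ∈ Icc 1 N) (hb : ∀ m, ‖b m‖ ≤ κ) (hκ : 0 ≤ κ) :
    ‖bl N b k‖ ≤ κ * Real.log N := by
  unfold bl
  rw [mem_Icc] at hk
  calc ‖∑ p ∈ k.divisors, ((lp N p : ℝ) : ℂ) * b (k / p)‖ ≤ ∑ p ∈ k.divisors, κ * lp N p := by
        refine (norm_sum_le _ _).trans (sum_le_sum fun p _ => ?_)
        rw [norm_mul, Complex.norm_real, Real.norm_eq_abs, abs_of_nonneg (lp_nonneg N p), mul_comm]
        exact mul_le_mul_of_nonneg_right (hb _) (lp_nonneg N p)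
    _ = κ * ∑ p ∈ k.divisors, lp N p := by rw [mul_sum]
    _ ≤ κ * Real.log N := by
        refine mul_le_mul_of_nonneg_left (lp_sum.trans ?_) hκ
        exact Real.log_le_log (by exact_mod_cast hk.1) (by exact_mod_cast hk.2)

section
variable {V : Type*} [NormedAddCommGroup V] [NormedSpace ℂ V]

omit [NormedSpace ℂ V] in
lemma swapV (X : ℕ) (F : ℕ → ℕ → V) :
    ∑ b ∈ Icc 1 X, ∑ p ∈ Icc 1 (X / b), F p b = ∑ p ∈ Icc 1 X, ∑ b ∈ Icc 1 (X / p), F p b := by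
  rw [sum_sigma', sum_sigma']
  refine sum_nbij' (fun x => ⟨x.2, x.1⟩) (fun x => ⟨x.2, x.1⟩) ?_ ?_ ?_ ?_ ?_
  · rintro ⟨b, p⟩ h
    simp only [mem_sigma, mem_Icc] at h ⊢
    obtain ⟨⟨h1, h2⟩, h3, h4⟩ := h
    have h5 : p * b ≤ X := (Nat.le_div_iff_mul_le (by omega)).1 h4
    exact ⟨⟨h3, (Nat.le_mul_of_pos_right p (by omega)).trans h5⟩, h1,
      (Nat.le_div_iff_mul_le (by omega)).2 (by rw [mul_comm]; exact h5)⟩
  · rintro ⟨p, b⟩ h
    simp only [mem_sigma, mem_Icc] at h ⊢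
    obtain ⟨⟨h1, h2⟩, h3, h4⟩ := h
    have h5 : b * p ≤ X := (Nat.le_div_iff_mul_le (by omega)).1 h4
    exact ⟨⟨h3, (Nat.le_mul_of_pos_right b (by omega)).trans h5⟩, h1,
      (Nat.le_div_iff_mul_le (by omega)).2 (by rw [mul_comm]; exact h5)⟩
  · rintro ⟨b, p⟩ _; rfl
  · rintro ⟨b, p⟩ _; rfl
  · rintro ⟨b, p⟩ _; rfl

/-- the sums of type I -/
lemma EE_tp (N y d : ℕ) (v : ℕ → V) : ∑ b ∈ Icc 1 (y / d), EE N y v (b * d) = tp N (y / d) d v := by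
  unfold EE tp
  have e1 : ∀ b ∈ Icc 1 (y / d), ∑ p ∈ Icc 1 (y / (b * d)), ((lp N p : ℝ) : ℂ) • v (p * (b * d)) =
      ∑ p ∈ Icc 1 (y / d / b), ((lp N p : ℝ) : ℂ) • v (p * b * d) := by
    intro b _
    rw [Nat.div_div_eq_div_mul, mul_comm d b]
    refine sum_congr rfl fun p _ => ?_
    rw [mul_assoc]
  rw [sum_congr rfl e1, swapV]
  refine sum_congr rfl fun p _ => ?_
  rw [smul_sum]

/-- the bilinear sums -/
lemma EE_bil (N y : ℕ) (v : ℕ → V) (a b : ℕ → ℂ) :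
    ∑ m ∈ Icc 1 y, ∑ k ∈ Icc 1 (y / m), (a m * b k) • EE N y v (m * k) =
      ∑ m ∈ Icc 1 y, ∑ k ∈ Icc 1 (y / m), (a m * bl N b k) • v (m * k) := by
  refine sum_congr rfl fun m _ => ?_
  have e1 : ∀ k ∈ Icc 1 (y / m), (a m * bl N b k) • v (m * k) =
      ∑ p ∈ k.divisors, (a m * (((lp N p : ℝ) : ℂ) * b (k / p))) • v (m * (p * (k / p))) := by
    intro k _
    unfold bl
    rw [mul_sum, sum_smul]
    refine sum_congr rfl fun p hp => ?_
    rw [Nat.mul_div_cancel' (Nat.dvd_of_mem_divisors hp)]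
  rw [sum_congr rfl e1, dirV (y / m) (fun p k => (a m * (((lp N p : ℝ) : ℂ) * b k)) • v (m * (p * k))),
    ← swapV (y / m) (fun p k => (a m * (((lp N p : ℝ) : ℂ) * b k)) • v (m * (p * k)))]
  refine sum_congr rfl fun k _ => ?_
  unfold EE
  rw [smul_sum, Nat.div_div_eq_div_mul]
  refine sum_congr rfl fun p _ => ?_
  rw [smul_smul]
  have e2 : p * (m * k) = m * (p * k) := by ring
  rw [e2]
  congr 1
  ring

/-- the sums with arbitrary coefficients -/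
lemma EE_sum (N y : ℕ) (v : ℕ → V) (w : ℕ → ℂ) :
    ∑ n ∈ Icc 1 y, w n • EE N y v n = ∑ n ∈ Icc 1 y, bl N w n • v n := by
  have e1 : ∀ n ∈ Icc 1 y, bl N w n • v n =
      ∑ p ∈ n.divisors, (((lp N p : ℝ) : ℂ) * w (n / p)) • v (p * (n / p)) := by
    intro k _
    unfold bl
    rw [sum_smul]
    refine sum_congr rfl fun p hp => ?_
    rw [Nat.mul_div_cancel' (Nat.dvd_of_mem_divisors hp)]
  rw [sum_congr rfl e1, dirV y (fun p k => (((lp N p : ℝ) : ℂ) * w k) • v (p * k)),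
    ← swapV y (fun p k => (((lp N p : ℝ) : ℂ) * w k) • v (p * k))]
  refine sum_congr rfl fun k _ => ?_
  unfold EE
  rw [smul_sum]
  refine sum_congr rfl fun p _ => ?_
  rw [smul_smul, mul_comm (w k)]

end

/-- the decomposition of `gr` -/
lemma gr_eq {N n : ℕ} (hn : 1 ≤ n) :
    gr N n = Real.log n * ro (ZZ N) n - ∑ p ∈ n.divisors, lp N p * ro (ZZ N) (n / p) := by
  classical
  have hn0 : n ≠ 0 := by omega
  have e0 : ∑ p ∈ n.divisors, lp N p * ro (ZZ N) (n / p) =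
      ∑ p ∈ n.primeFactors, lp N p * ro (ZZ N) (n / p) := by
    symm
    refine sum_subset (fun p hp => ?_) fun p hp hp' => ?_
    · rw [Nat.mem_divisors]
      exact ⟨Nat.dvd_of_mem_primeFactors hp, hn0⟩
    · have : lp N p = 0 := by
        unfold lp
        rw [if_neg]
        rintro ⟨h1, -⟩
        exact hp' (Nat.mem_primeFactors.2 ⟨h1, Nat.dvd_of_mem_divisors hp, hn0⟩)
      rw [this, zero_mul]
  rw [e0]
  unfold gr
  by_cases h : ∀ p ∈ n.primeFactors, ZZ N < p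
  · rw [if_pos h]
    have h1 : ro (ZZ N) n = 1 := by
      unfold ro
      rw [if_pos h]
    rw [h1, mul_one]
    congr 1
    refine sum_congr rfl fun p hp => ?_
    have h2 : ro (ZZ N) (n / p) = 1 := by
      unfold ro
      rw [if_pos]
      intro r hr
      apply h r
      have hr' := Nat.mem_primeFactors.1 hr
      exact Nat.mem_primeFactors.2 ⟨hr'.1, hr'.2.1.trans (Nat.div_dvd_of_dvd (Nat.dvd_of_mem_primeFactors hp)), hn0⟩
    rw [h2, mul_one]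
  · rw [if_neg h]
    have h1 : ro (ZZ N) n = 0 := by
      unfold ro
      rw [if_neg h]
    rw [h1, mul_zero, zero_sub, eq_comm, neg_eq_zero]
    refine sum_eq_zero fun p hp => ?_
    push Not at h
    obtain ⟨r, hr, hrZ⟩ := h
    by_cases hp1 : lp N p = 0
    · rw [hp1, zero_mul]
    · have hp2 : p.Prime ∧ ZZ N < p ∧ p ≤ YY N := by
        by_contra hc
        apply hp1
        unfold lp
        rw [if_neg hc]
      have h2 : ro (ZZ N) (n / p) = 0 := by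
        unfold ro
        rw [if_neg]
        intro hall
        have hr' := Nat.mem_primeFactors.1 hr
        have := hall r (Pool.Agent.R460.GS.pf_div hn0 (Nat.dvd_of_mem_primeFactors hp) hp2.1 hr'.1 hr'.2.1
          (by omega))
        omega
      rw [h2, mul_zero]

lemma log_var (n : ℕ) : ∑ i ∈ range n, ‖((Real.log ((i + 1 : ℕ) : ℝ) : ℝ) : ℂ) - ((Real.log (i : ℝ) : ℝ) : ℂ)‖ ≤
    Real.log n := by
  have h1 : ∀ i ∈ range n, ‖((Real.log ((i + 1 : ℕ) : ℝ) : ℝ) : ℂ) - ((Real.log (i : ℝ) : ℝ) : ℂ)‖ =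
      Real.log ((i + 1 : ℕ) : ℝ) - Real.log (i : ℝ) := by
    intro i _
    rw [← Complex.ofReal_sub, Complex.norm_real, Real.norm_eq_abs, abs_of_nonneg]
    rcases Nat.eq_zero_or_pos i with h0 | h0
    · subst h0
      simp
    · rw [sub_nonneg]
      exact Real.log_le_log (by exact_mod_cast h0) (by push_cast; linarith)
  rw [sum_congr rfl h1]
  have := sum_range_sub (fun i : ℕ => Real.log (i : ℝ)) n
  rw [this]
  simp

open Classical in
/-- reduction to bilinear sums -/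
lemma gr_vec (h1 : L2Stm) (A : ℕ) : ∃ N₀ : ℕ, ∀ N : ℕ, N₀ ≤ N → ∀ (q : ℕ) [NeZero q], (q : ℝ) ≤ N →
    ∀ (S : Finset (DirichletCharacter ℂ q)) (β : ℝ),
    (∀ y : ℕ, y ≤ N → ∑ d ∈ Icc 1 (WW N), ‖∑ b ∈ Icc 1 (y / d), ev S β (b * d)‖ ≤ N / Real.log N ^ (A + 8)) →
    (∀ y : ℕ, y ≤ N → ∑ d ∈ Icc 1 (WW N), ‖tp N (y / d) d (ev S β)‖ ≤ N / Real.log N ^ (A + 8)) →
    (∀ y : ℕ, y ≤ N → ∀ j ∈ range (JJ N (A + 18)), ∀ b : ℕ → ℂ, (∀ m ∈ Icc 1 N, ‖b m‖ ≤ Real.log N) →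
      ‖∑ m ∈ Icc 1 y, ∑ k ∈ Icc 1 (y / m),
      (a2 (WW N) (WW N) (cc N (A + 18)) j m * b k) • ev S β (m * k)‖ ^ 2 ≤
        (N : ℝ) ^ 2 / Real.log N ^ (A + 4 + 2 * (A + 18) + 8)) →
    (∀ y : ℕ, y ≤ N → ∀ j ∈ range (JJ N (A + 18)), ∀ b : ℕ → ℂ, (∀ m ∈ Icc 1 N, ‖b m‖ ≤ Real.log N) →
      ‖∑ m ∈ Icc 1 y, ∑ k ∈ Icc 1 (y / m),
      (a1 (WW N) (ZZ N) (cc N (A + 18)) j m * b k) • ev S β (m * k)‖ ^ 2 ≤
        (N : ℝ) ^ 2 / Real.log N ^ (A + 4 + 2 * (A + 18) + 8)) →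
    ∀ y : ℕ, y ≤ N → ∑ χ ∈ S, ‖cs q y (GG N) β χ‖ ^ 2 ≤ (N : ℝ) ^ 2 / Real.log N ^ A := by
  classical
  obtain ⟨N₀, hN₀⟩ := Filter.eventually_atTop.1 (ev_log 1 (s := 1) one_pos 10000)
  refine ⟨max N₀ 1, fun N hN q _ hqN S β t1 t1' t2 t3 => ?_⟩
  have hN1 : 1 ≤ N := le_trans (le_max_right _ _) hN
  have hN0 : (0 : ℝ) < N := by exact_mod_cast hN1
  obtain ⟨hL, -⟩ := hN₀ N (le_trans (le_max_left _ _) hN)
  have hL00 : 0 < Real.log N := by linarith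
  have hJ := JJ_le (N := N) (U := A + 18) (by linarith)
  have hJ' : (JJ N (A + 18) : ℝ) ≤ Real.log N ^ (A + 4 + 14 + 2) := hJ.trans (le_of_eq (by ring_nf))
  have hcc1 : ∀ m : ℕ, (m.Prime ∧ WW N < m ∧ m ≤ ZZ N) → cc N (A + 18) m < JJ N (A + 18) :=
    fun m hm => cc_lt hm.1.one_le (hm.2.2.trans (ZZ_le hN1)) (by linarith)
  have hcc2 : ∀ m : ℕ, (Sm (WW N) m ∧ WW N < m ∧ m / pmx m ≤ WW N) → cc N (A + 18) (pmx m) < JJ N (A + 18) :=
    fun m hm => by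
      have h2 := sm_le (one_le_WW hN1) hm.1 hm.2.1 hm.2.2
      exact cc_lt (by omega) (h2.1.trans ((WW_le hN1).trans (ZZ_le hN1))) (by linarith)
  have her : ∀ n : ℕ, 1 ≤ n → |er (WW N) (ZZ N) (WW N) (cc N (A + 18)) n| ≤
      (if Tw (cc N (A + 18)) n then 2 * (n.divisors.card : ℝ) else 0) := fun n hn =>
    er_le (WW_le hN1) (one_le_WW hN1) hn _ (fun a b ha hab => ci_mono (by positivity) a b ha hab)
  have hdivle : ∀ (y : ℕ), y ≤ N → ∀ X : ℝ, X ≤ N / Real.log N ^ (A + 8) → X ≤ N / Real.log N ^ (A + 4 + 4) := by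
    intro y _ X hX
    exact hX.trans (le_of_eq (by ring_nf))
  -- the sums over the rough numbers
  have hR : ∀ y : ℕ, y ≤ N → ‖∑ n ∈ Icc 1 y, ((ro (ZZ N) n : ℝ) : ℂ) • ev S β n‖ ^ 2 * Real.log N ^ 2 ≤
      (N : ℝ) ^ 2 / Real.log N ^ (A + 4) := by
    intro y hy
    have hdec := j1 (V := EuclideanSpace ℂ (DirichletCharacter ℂ q)) (W := WW N) (Z := ZZ N) (D := WW N)
      (J := JJ N (A + 18)) (y := y) (ev S β) (cc N (A + 18)) hcc1 hcc2
    refine comb (A := A + 4) (by linarith) hJ' hdec (norm_nonneg _) (sum_nonneg fun _ _ => norm_nonneg _)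
      (norm_nonneg _) (fun j => norm_nonneg _) (fun j => norm_nonneg _) (hdivle y hy _ (t1 y hy)) ?_ ?_ ?_
    · intro j hj
      refine (t2 y hy j hj _ fun m _ => (b2_le _ _ _ _).trans (by linarith)).trans (le_of_eq ?_)
      ring_nf
    · intro j hj
      refine (t3 y hy j hj _ fun m _ => (b1_le _ _ _).trans (by linarith)).trans (le_of_eq ?_)
      ring_nf
    · have h2 := err_vec h1 (A := A + 4) hL hqN S β hy
        (fun n => ((er (WW N) (ZZ N) (WW N) (cc N (A + 18)) n : ℝ) : ℂ)) (fun n hn => by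
          rw [Complex.norm_real, Real.norm_eq_abs]
          refine (her n (mem_Icc.1 hn).1).trans ?_
          have h3 : 0 ≤ (if Tw (cc N (A + 18)) n then 2 * (n.divisors.card : ℝ) else 0) := by
            split_ifs <;> positivity
          nlinarith)
      exact h2
  -- the sums over the rough numbers with the logarithm
  have hlog : ∀ y : ℕ, y ≤ N → ‖∑ n ∈ Icc 1 y, ((Real.log n * ro (ZZ N) n : ℝ) : ℂ) • ev S β n‖ ^ 2 ≤
      4 * ((N : ℝ) ^ 2 / Real.log N ^ (A + 4)) := by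
    intro y hy
    obtain ⟨R, hRd⟩ : ∃ R, R = Real.sqrt ((N : ℝ) ^ 2 / Real.log N ^ (A + 4) / Real.log N ^ 2) := ⟨_, rfl⟩
    have hR0 : 0 ≤ R := by rw [hRd]; exact Real.sqrt_nonneg _
    have hRsq : R ^ 2 = (N : ℝ) ^ 2 / Real.log N ^ (A + 4) / Real.log N ^ 2 := by
      rw [hRd]
      exact Real.sq_sqrt (by positivity)
    have hb : ∀ m ≤ y, ‖∑ n ∈ Icc 1 m, ((ro (ZZ N) n : ℝ) : ℂ) • ev S β n‖ ≤ R := by
      intro m hm
      rw [hRd]
      apply Real.le_sqrt_of_sq_le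
      rw [le_div_iff₀ (by positivity)]
      exact hR m (hm.trans hy)
    have hlogy : Real.log y ≤ Real.log N := by
      rcases Nat.eq_zero_or_pos y with h0 | h0
      · subst h0
        simp only [Nat.cast_zero, Real.log_zero]
        exact hL00.le
      · exact Real.log_le_log (by exact_mod_cast h0) (by exact_mod_cast hy)
    have hab := abelIBV (fun n => ((ro (ZZ N) n : ℝ) : ℂ) • ev S β n) (fun n => ((Real.log n : ℝ) : ℂ)) R
      (Real.log N) (Real.log N) y hb (fun i hi => by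
        rw [Complex.norm_real, Real.norm_eq_abs, abs_of_nonneg (Real.log_natCast_nonneg i)]
        rw [mem_Icc] at hi
        exact Real.log_le_log (by exact_mod_cast hi.1) (by exact_mod_cast hi.2.trans hy))
      ((log_var y).trans hlogy) hL00.le
    have e1 : ∀ n ∈ Icc 1 y, ((Real.log n : ℝ) : ℂ) • ((ro (ZZ N) n : ℝ) : ℂ) • ev S β n =
        ((Real.log n * ro (ZZ N) n : ℝ) : ℂ) • ev S β n := by
      intro n _
      rw [smul_smul]
      push_cast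
      rfl
    rw [sum_congr rfl e1] at hab
    calc ‖∑ n ∈ Icc 1 y, ((Real.log n * ro (ZZ N) n : ℝ) : ℂ) • ev S β n‖ ^ 2
        ≤ (R * (Real.log N + Real.log N)) ^ 2 := pow_le_pow_left₀ (norm_nonneg _) hab 2
      _ = 4 * (R ^ 2 * Real.log N ^ 2) := by ring
      _ = _ := by
          rw [hRsq]
          field_simp
  -- the sums with the primes
  have hpr : ∀ y : ℕ, y ≤ N → ‖∑ n ∈ Icc 1 y, ((∑ p ∈ n.divisors, lp N p * ro (ZZ N) (n / p) : ℝ) : ℂ) •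
      ev S β n‖ ^ 2 * Real.log N ^ 2 ≤ (N : ℝ) ^ 2 / Real.log N ^ (A + 4) := by
    intro y hy
    have hdec := j1 (V := EuclideanSpace ℂ (DirichletCharacter ℂ q)) (W := WW N) (Z := ZZ N) (D := WW N)
      (J := JJ N (A + 18)) (y := y) (EE N y (ev S β)) (cc N (A + 18)) hcc1 hcc2
    have e0 : ∑ n ∈ Icc 1 y, ((∑ p ∈ n.divisors, lp N p * ro (ZZ N) (n / p) : ℝ) : ℂ) • ev S β n =
        ∑ n ∈ Icc 1 y, ((ro (ZZ N) n : ℝ) : ℂ) • EE N y (ev S β) n := by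
      rw [EE_sum N y (ev S β) (fun n => ((ro (ZZ N) n : ℝ) : ℂ))]
      refine sum_congr rfl fun n _ => ?_
      congr 1
      unfold bl
      push_cast
      rfl
    rw [e0]
    simp only [EE_tp, EE_bil, EE_sum N y (ev S β) (fun n => ((er (WW N) (ZZ N) (WW N) (cc N (A + 18)) n : ℝ) : ℂ))]
      at hdec
    refine comb (A := A + 4) (by linarith) hJ' hdec (norm_nonneg _) (sum_nonneg fun _ _ => norm_nonneg _)
      (norm_nonneg _) (fun j => norm_nonneg _) (fun j => norm_nonneg _) (hdivle y hy _ (t1' y hy)) ?_ ?_ ?_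
    · intro j hj
      refine (t2 y hy j hj _ fun m hm => (bl_le hm (b2_le _ _ _) zero_le_one).trans (by linarith)).trans
        (le_of_eq ?_)
      ring_nf
    · intro j hj
      refine (t3 y hy j hj _ fun m hm => (bl_le hm (b1_le _ _) zero_le_one).trans (by linarith)).trans
        (le_of_eq ?_)
      ring_nf
    · refine err_vec h1 (A := A + 4) hL hqN S β hy _ (fun n hn => ?_)
      unfold bl
      rw [mem_Icc] at hn
      have h3 : ∀ p ∈ n.divisors, ‖((lp N p : ℝ) : ℂ) *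
          ((er (WW N) (ZZ N) (WW N) (cc N (A + 18)) (n / p) : ℝ) : ℂ)‖ ≤
          lp N p * (if Tw (cc N (A + 18)) n then 2 * (n.divisors.card : ℝ) else 0) := by
        intro p hp
        rw [Nat.mem_divisors] at hp
        rw [norm_mul, Complex.norm_real, Real.norm_eq_abs, abs_of_nonneg (lp_nonneg N p), Complex.norm_real,
          Real.norm_eq_abs]
        refine mul_le_mul_of_nonneg_left ?_ (lp_nonneg N p)
        have hnp : 1 ≤ n / p := Nat.div_pos (Nat.le_of_dvd hn.1 hp.1) (Nat.pos_of_dvd_of_pos hp.1 hn.1)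
        refine (her (n / p) hnp).trans ?_
        by_cases hT : Tw (cc N (A + 18)) (n / p)
        · have hT' : Tw (cc N (A + 18)) n := by
            obtain ⟨r, r', k1, k2, k3, k4, k5⟩ := hT
            exact ⟨r, r', k1, k2, k3, k4.trans (Nat.div_dvd_of_dvd hp.1), k5⟩
          rw [if_pos hT, if_pos hT']
          have : (n / p).divisors.card ≤ n.divisors.card :=
            card_le_card (Nat.divisors_subset_of_dvd hp.2 (Nat.div_dvd_of_dvd hp.1))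
          have h4 : ((n / p).divisors.card : ℝ) ≤ (n.divisors.card : ℝ) := by exact_mod_cast this
          linarith
        · rw [if_neg hT]
          split_ifs <;> positivity
      refine (norm_sum_le _ _).trans ((sum_le_sum h3).trans ?_)
      rw [← sum_mul]
      refine mul_le_mul_of_nonneg_right (lp_sum.trans ?_) (by split_ifs <;> positivity)
      exact Real.log_le_log (by exact_mod_cast hn.1) (by exact_mod_cast hn.2)
  intro y hy
  have hcs : ∑ χ ∈ S, ‖cs q y (GG N) β χ‖ ^ 2 = ‖∑ n ∈ Icc 1 y, GG N n • ev S β n‖ ^ 2 := by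
    rw [norm_ev1 S β (Icc 1 y) (GG N) (fun n => n)]
    refine sum_congr rfl fun χ _ => ?_
    unfold cs
    congr 2
    refine sum_congr rfl fun n _ => ?_
    ring
  have e2 : ∑ n ∈ Icc 1 y, GG N n • ev S β n = ∑ n ∈ Icc 1 y, ((Real.log n * ro (ZZ N) n : ℝ) : ℂ) • ev S β n -
      ∑ n ∈ Icc 1 y, ((∑ p ∈ n.divisors, lp N p * ro (ZZ N) (n / p) : ℝ) : ℂ) • ev S β n := by
    rw [← sum_sub_distrib]
    refine sum_congr rfl fun n hn => ?_
    rw [← sub_smul]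
    congr 1
    unfold GG
    rw [gr_eq (mem_Icc.1 hn).1]
    push_cast
    ring
  rw [hcs, e2]
  have k1 := hlog y hy
  have k2 := hpr y hy
  obtain ⟨a, ha⟩ : ∃ a, a = ‖∑ n ∈ Icc 1 y, ((Real.log n * ro (ZZ N) n : ℝ) : ℂ) • ev S β n‖ := ⟨_, rfl⟩
  obtain ⟨b, hb⟩ : ∃ b, b = ‖∑ n ∈ Icc 1 y, ((∑ p ∈ n.divisors, lp N p * ro (ZZ N) (n / p) : ℝ) : ℂ) •
    ev S β n‖ := ⟨_, rfl⟩
  have h3 := norm_sub_le (∑ n ∈ Icc 1 y, ((Real.log n * ro (ZZ N) n : ℝ) : ℂ) • ev S β n)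
    (∑ n ∈ Icc 1 y, ((∑ p ∈ n.divisors, lp N p * ro (ZZ N) (n / p) : ℝ) : ℂ) • ev S β n)
  rw [← ha] at k1
  rw [← hb] at k2
  rw [← ha, ← hb] at h3
  have h4 := pow_le_pow_left₀ (norm_nonneg _) h3 2
  obtain ⟨L, hLd⟩ : ∃ L, L = Real.log (N : ℝ) := ⟨_, rfl⟩
  rw [← hLd] at k1 k2 hL ⊢
  have hL0 : 0 < L := by linarith
  have hX : 0 ≤ (N : ℝ) ^ 2 / L ^ (A + 4) := by positivity
  have k3 : b ^ 2 ≤ (N : ℝ) ^ 2 / L ^ (A + 4) := by
    refine le_trans ?_ k2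
    have : 1 ≤ L ^ 2 := one_le_pow₀ (by linarith)
    nlinarith [sq_nonneg b]
  calc _ ≤ (a + b) ^ 2 := h4
    _ ≤ 2 * a ^ 2 + 2 * b ^ 2 := by nlinarith [sq_nonneg (a - b)]
    _ ≤ 10 * ((N : ℝ) ^ 2 / L ^ (A + 4)) := by linarith
    _ ≤ L ^ 4 * ((N : ℝ) ^ 2 / L ^ (A + 4)) := by
        apply mul_le_mul_of_nonneg_right _ hX
        calc (10 : ℝ) ≤ L := by linarith
          _ = L ^ 1 := (pow_one L).symm
          _ ≤ L ^ 4 := pow_le_pow_right₀ (by linarith) (by norm_num)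
    _ = _ := by
        rw [pow_add]
        field_simp

end Pool.Agent.Helper34.GV
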