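import Pool.Graph.R_seed8.H807R2.Dav1

/-!
# Project GV: the pairs `(b, c)` with `p b = p' c + u`
-/

set_option autoImplicit false

namespace Pool.Agent.Helper34.GV

open Finset
open Pool.Agent.H807R2.Dav

/-- the integers in an interval with two congruences -/
lemma count_two {p p2 : ℤ} (hp : 0 < p) (hp2 : 0 < p2) (hc : IsCoprime p p2) (a b u : ℤ) (hab : a ≤ b) :
    |(((Ioc a b).filter (fun s => p ∣ s ∧ p2 ∣ s - u)).card : ℝ) - ((b : ℝ) - a) / (p * p2)| ≤ 1 := by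
  obtain ⟨α, β, hαβ⟩ := hc
  set c : ℤ := u * (α * p) with hcdef
  have hr : 0 < p * p2 := mul_pos hp hp2
  have h1 : ∀ s : ℤ, (p ∣ s ∧ p2 ∣ s - u) ↔ s ≡ c [ZMOD (p * p2)] := by
    intro s
    have h2 : p ∣ c := ⟨u * α, by rw [hcdef]; ring⟩
    have h3 : p2 ∣ c - u := ⟨-(u * β), by
      rw [hcdef]
      linear_combination u * hαβ⟩
    rw [Int.modEq_comm, Int.modEq_iff_dvd]
    constructor
    · rintro ⟨h4, h5⟩
      apply IsCoprime.mul_dvd ⟨α, β, hαβ⟩
      · exact dvd_sub h4 h2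
      · have : s - c = (s - u) - (c - u) := by ring
        rw [this]
        exact dvd_sub h5 h3
    · intro h4
      have h5 : p ∣ s - c := dvd_trans (dvd_mul_right p p2) h4
      have h6 : p2 ∣ s - c := dvd_trans (dvd_mul_left p2 p) h4
      refine ⟨?_, ?_⟩
      · have : s = (s - c) + c := by ring
        rw [this]
        exact dvd_add h5 h2
      · have : s - u = (s - c) + (c - u) := by ring
        rw [this]
        exact dvd_add h6 h3
  have h2 : (Ioc a b).filter (fun s => p ∣ s ∧ p2 ∣ s - u) =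
      (Ioc a b).filter (fun s => s ≡ c [ZMOD (p * p2)]) := filter_congr fun s _ => h1 s
  rw [h2]
  have h3 := Int.Ioc_filter_modEq_card a b hr c
  set K := ((Ioc a b).filter (fun s => s ≡ c [ZMOD (p * p2)])).card with hK
  have hrQ : (0 : ℚ) < ((p * p2 : ℤ) : ℚ) := by exact_mod_cast hr
  have h4 : ((a : ℚ) - c) / ((p * p2 : ℤ) : ℚ) ≤ ((b : ℚ) - c) / ((p * p2 : ℤ) : ℚ) := by
    apply div_le_div_of_nonneg_right _ hrQ.le
    have : (a : ℚ) ≤ b := by exact_mod_cast hab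
    linarith
  have h5 := Int.floor_mono h4
  rw [max_eq_left (by linarith)] at h3
  have h6 : (K : ℚ) = (⌊((b : ℚ) - c) / ((p * p2 : ℤ) : ℚ)⌋ : ℚ) - (⌊((a : ℚ) - c) / ((p * p2 : ℤ) : ℚ)⌋ : ℚ) := by
    exact_mod_cast h3
  have h7 := Int.floor_le (((b : ℚ) - c) / ((p * p2 : ℤ) : ℚ))
  have h8 := Int.lt_floor_add_one (((b : ℚ) - c) / ((p * p2 : ℤ) : ℚ))
  have h9 := Int.floor_le (((a : ℚ) - c) / ((p * p2 : ℤ) : ℚ))
  have h10 := Int.lt_floor_add_one (((a : ℚ) - c) / ((p * p2 : ℤ) : ℚ))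
  have h11 : ((b : ℚ) - a) / ((p * p2 : ℤ) : ℚ) =
      ((b : ℚ) - c) / ((p * p2 : ℤ) : ℚ) - ((a : ℚ) - c) / ((p * p2 : ℤ) : ℚ) := by ring
  have h12 : |(K : ℚ) - ((b : ℚ) - a) / ((p * p2 : ℤ) : ℚ)| ≤ 1 := by
    rw [h11, abs_le]
    constructor <;> linarith
  have h13 : ((|(K : ℚ) - ((b : ℚ) - a) / ((p * p2 : ℤ) : ℚ)| : ℚ) : ℝ) ≤ 1 := by exact_mod_cast h12
  push_cast at h13
  exact h13

/-- the pairs with a given difference and the integers with two congruences -/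
lemma card_pairs {p p2 : ℕ} (hp : 0 < p) (hp2 : 0 < p2) (X : ℕ) (u : ℤ) :
    ((Icc 1 (X / p) ×ˢ Icc 1 (X / p2)).filter
      (fun x : ℕ × ℕ => (p : ℤ) * x.1 - p2 * x.2 = u)).card =
    ((Ioc (max 0 u) (min (X : ℤ) (X + u))).filter (fun s => (p : ℤ) ∣ s ∧ (p2 : ℤ) ∣ s - u)).card := by
  have hpz : (0 : ℤ) < p := by exact_mod_cast hp
  have hp2z : (0 : ℤ) < p2 := by exact_mod_cast hp2
  refine Finset.card_nbij' (fun x => (p : ℤ) * x.1) (fun s => ((s / p).toNat, ((s - u) / p2).toNat))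
    ?_ ?_ ?_ ?_
  · rintro ⟨b, c⟩ hx
    simp only [coe_filter, mem_product, mem_Icc, Set.mem_ofPred_eq] at hx
    obtain ⟨⟨⟨h1, h2⟩, h3, h4⟩, h5⟩ := hx
    rw [Nat.le_div_iff_mul_le hp] at h2
    rw [Nat.le_div_iff_mul_le hp2] at h4
    have h2' : (b : ℤ) * p ≤ X := by exact_mod_cast h2
    have h4' : (c : ℤ) * p2 ≤ X := by exact_mod_cast h4
    have h1' : (1 : ℤ) ≤ b := by exact_mod_cast h1
    have h3' : (1 : ℤ) ≤ c := by exact_mod_cast h3
    have h6 : 0 < (p : ℤ) * b := by positivity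
    have h7 : 0 < (p2 : ℤ) * c := by positivity
    simp only [coe_filter, mem_Ioc, Set.mem_ofPred_eq]
    refine ⟨⟨?_, ?_⟩, ⟨b, rfl⟩, ⟨c, by linarith⟩⟩
    · rw [max_lt_iff]
      constructor <;> linarith
    · rw [le_min_iff]
      constructor <;> linarith
  · intro s hs
    simp only [coe_filter, mem_Ioc, Set.mem_ofPred_eq] at hs
    obtain ⟨⟨h1, h2⟩, ⟨b, hb⟩, ⟨c, hc⟩⟩ := hs
    rw [max_lt_iff] at h1
    rw [le_min_iff] at h2
    have h3 : s / p = b := by rw [hb]; exact Int.mul_ediv_cancel_left _ hpz.ne'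
    have h4 : (s - u) / p2 = c := by rw [hc]; exact Int.mul_ediv_cancel_left _ hp2z.ne'
    have hb0 : 0 < b := by
      by_contra hno
      push Not at hno
      have : (p : ℤ) * b ≤ 0 := mul_nonpos_of_nonneg_of_nonpos hpz.le hno
      linarith
    have hc0 : 0 < c := by
      by_contra hno
      push Not at hno
      have : (p2 : ℤ) * c ≤ 0 := mul_nonpos_of_nonneg_of_nonpos hp2z.le hno
      linarith
    simp only [coe_filter, mem_product, mem_Icc, Set.mem_ofPred_eq, h3, h4]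
    lift b to ℕ using hb0.le
    lift c to ℕ using hc0.le
    simp only [Int.toNat_natCast]
    rw [Nat.le_div_iff_mul_le hp, Nat.le_div_iff_mul_le hp2]
    refine ⟨⟨⟨by exact_mod_cast hb0, ?_⟩, by exact_mod_cast hc0, ?_⟩, ?_⟩
    · have : (b : ℤ) * p ≤ X := by linarith [h2.1]
      exact_mod_cast this
    · have : (c : ℤ) * p2 ≤ X := by linarith [h2.2]
      exact_mod_cast this
    · linarith
  · rintro ⟨b, c⟩ hx
    simp only [coe_filter, mem_product, mem_Icc, Set.mem_ofPred_eq] at hx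
    obtain ⟨_, h5⟩ := hx
    have h6 : (p : ℤ) * b - u = p2 * c := by linarith
    simp only [h6]
    rw [Int.mul_ediv_cancel_left _ hpz.ne', Int.mul_ediv_cancel_left _ hp2z.ne']
    simp
  · intro s hs
    simp only [coe_filter, mem_Ioc, Set.mem_ofPred_eq] at hs
    obtain ⟨⟨h1, h2⟩, ⟨b, hb⟩, ⟨c, hc⟩⟩ := hs
    rw [max_lt_iff] at h1
    have h3 : s / p = b := by rw [hb]; exact Int.mul_ediv_cancel_left _ hpz.ne'
    have hb0 : 0 < b := by
      by_contra hno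
      push Not at hno
      have : (p : ℤ) * b ≤ 0 := mul_nonpos_of_nonneg_of_nonpos hpz.le hno
      linarith
    simp only [h3]
    rw [Int.toNat_of_nonneg hb0.le, ← hb]

/-- the number of the pairs with a given difference -/
lemma card_pairs_le {p p2 : ℕ} (hp : p.Prime) (hp2 : p2.Prime) (hne : p ≠ p2) (X : ℕ) (u : ℤ)
    (hu : |u| ≤ X) :
    |((((Icc 1 (X / p) ×ˢ Icc 1 (X / p2)).filter
      (fun x : ℕ × ℕ => (p : ℤ) * x.1 - p2 * x.2 = u)).card : ℕ) : ℝ) -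
        ((X : ℝ) - |(u : ℝ)|) / (p * p2)| ≤ 1 := by
  rw [card_pairs hp.pos hp2.pos]
  have hc : IsCoprime (p : ℤ) (p2 : ℤ) := by
    rw [Nat.isCoprime_iff_coprime]
    exact (Nat.coprime_primes hp hp2).mpr hne
  have h1 : min (X : ℤ) (X + u) - max 0 u = X - |u| := by
    rcases le_total 0 u with h | h
    · rw [max_eq_right h, abs_of_nonneg h, min_eq_left (by linarith)]
    · rw [max_eq_left h, abs_of_nonpos h, min_eq_right (by linarith)]
      ring
  have h2 : max 0 u ≤ min (X : ℤ) (X + u) := by linarith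
  have h3 := count_two (p := (p : ℤ)) (p2 := (p2 : ℤ)) (by exact_mod_cast hp.pos)
    (by exact_mod_cast hp2.pos) hc (max 0 u) (min (X : ℤ) (X + u)) u h2
  have h4 : ((min (X : ℤ) (X + u) : ℤ) : ℝ) - ((max 0 u : ℤ) : ℝ) = (X : ℝ) - |(u : ℝ)| := by
    have h5 : ((min (X : ℤ) (X + u) - max 0 u : ℤ) : ℝ) = ((X - |u| : ℤ) : ℝ) := by rw [h1]
    rw [Int.cast_sub] at h5
    rw [h5]
    push_cast
    ring
  rw [h4] at h3
  exact_mod_cast h3

/-- the multiples of `q` between `-X` and `X` -/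
lemma card_mult (q : ℕ) [NeZero q] (X : ℕ) (hX : 1 ≤ X) :
    ((((Ioo (-(X : ℤ)) X).filter (fun u => (q : ℤ) ∣ u)).card : ℕ) : ℝ) ≤ 2 * X / q + 1 := by
  have hq : 0 < q := Nat.pos_of_ne_zero (NeZero.ne q)
  have hqz : (0 : ℤ) < q := by exact_mod_cast hq
  have hqQ : (0 : ℚ) < ((q : ℤ) : ℚ) := by exact_mod_cast hq
  have h1 : Ioo (-(X : ℤ)) X = Ioc (-(X : ℤ)) (X - 1) := by
    ext x
    rw [mem_Ioo, mem_Ioc]
    omega
  rw [h1]
  have h2 := Int.Ioc_filter_dvd_card (-(X : ℤ)) (X - 1) hqz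
  set K := ((Ioc (-(X : ℤ)) (X - 1)).filter (fun u => (q : ℤ) ∣ u)).card with hK
  have h4 : ((-(X : ℤ) : ℤ) : ℚ) / ((q : ℤ) : ℚ) ≤ (((X : ℤ) - 1 : ℤ) : ℚ) / ((q : ℤ) : ℚ) := by
    apply div_le_div_of_nonneg_right _ hqQ.le
    have : (1 : ℚ) ≤ X := by exact_mod_cast hX
    push_cast
    linarith
  have h5 := Int.floor_mono h4
  rw [max_eq_left (by linarith)] at h2
  have h6 : (K : ℚ) = (⌊(((X : ℤ) - 1 : ℤ) : ℚ) / ((q : ℤ) : ℚ)⌋ : ℚ) -
      (⌊((-(X : ℤ) : ℤ) : ℚ) / ((q : ℤ) : ℚ)⌋ : ℚ) := by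
    exact_mod_cast h2
  have h7 := Int.floor_le ((((X : ℤ) - 1 : ℤ) : ℚ) / ((q : ℤ) : ℚ))
  have h10 := Int.lt_floor_add_one (((-(X : ℤ) : ℤ) : ℚ) / ((q : ℤ) : ℚ))
  have h11 : (((X : ℤ) - 1 : ℤ) : ℚ) / ((q : ℤ) : ℚ) ≤ (X : ℚ) / q := by
    push_cast
    apply div_le_div_of_nonneg_right _ (by exact_mod_cast hq.le)
    linarith
  have h12 : ((-(X : ℤ) : ℤ) : ℚ) / ((q : ℤ) : ℚ) = - ((X : ℚ) / q) := by
    push_cast
    ring
  have h13 : (K : ℚ) ≤ 2 * X / q + 1 := by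
    rw [h6]
    rw [h12] at h10 ⊢
    have : 2 * (X : ℚ) / q = X / q + X / q := by ring
    rw [this]
    linarith
  have h14 : ((K : ℚ) : ℝ) ≤ ((2 * X / q + 1 : ℚ) : ℝ) := by exact_mod_cast h13
  push_cast at h14
  exact h14

/-- the double sum over the pairs `(b, c)` with `p b = p' c` modulo `q`, as a sum over the differences -/
theorem pairs_eq (q : ℕ) [NeZero q] (X p p2 : ℕ) (hp : 0 < p) (hp2 : 0 < p2) (g : ℝ) :
    ∑ b ∈ Icc 1 (X / p), ∑ c ∈ Icc 1 (X / p2),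
        (if ((p * b : ℕ) : ZMod q) = ((p2 * c : ℕ) : ZMod q) then
          ee ((p * b : ℕ) * g) * (starRingEnd ℂ) (ee ((p2 * c : ℕ) * g)) else 0) =
      ∑ u ∈ (Ioo (-(X : ℤ)) X).filter (fun u => (q : ℤ) ∣ u),
        ((((Icc 1 (X / p) ×ˢ Icc 1 (X / p2)).filter
          (fun x : ℕ × ℕ => (p : ℤ) * x.1 - p2 * x.2 = u)).card : ℕ) : ℂ) * ee (u * g) := by
  classical
  set U := (Ioo (-(X : ℤ)) X).filter (fun u => (q : ℤ) ∣ u) with hU
  set S := Icc 1 (X / p) ×ˢ Icc 1 (X / p2) with hS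
  set f : ℕ × ℕ → ℤ := fun x => (p : ℤ) * x.1 - p2 * x.2 with hf
  have h0 : ∀ b c : ℕ, ee ((p * b : ℕ) * g) * (starRingEnd ℂ) (ee ((p2 * c : ℕ) * g)) =
      ee ((f (b, c) : ℤ) * g) := by
    intro b c
    have h1 : (starRingEnd ℂ) (ee ((p2 * c : ℕ) * g)) = ee (-((p2 * c : ℕ) * g)) := by
      unfold ee
      rw [← Complex.exp_conj]
      congr 1
      simp only [map_mul, Complex.conj_I, Complex.conj_ofReal, map_ofNat]
      push_cast
      ring
    rw [h1, ← ee_add]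
    congr 1
    rw [hf]
    push_cast
    ring
  have h1 : ∑ b ∈ Icc 1 (X / p), ∑ c ∈ Icc 1 (X / p2),
        (if ((p * b : ℕ) : ZMod q) = ((p2 * c : ℕ) : ZMod q) then
          ee ((p * b : ℕ) * g) * (starRingEnd ℂ) (ee ((p2 * c : ℕ) * g)) else 0) =
      ∑ x ∈ S.filter (fun x => (q : ℤ) ∣ f x), ee ((f x : ℤ) * g) := by
    rw [Finset.sum_filter, hS, Finset.sum_product]
    refine sum_congr rfl fun b _ => sum_congr rfl fun c _ => ?_
    rw [h0]
    have h2 : (((p * b : ℕ) : ZMod q) = ((p2 * c : ℕ) : ZMod q)) ↔ (q : ℤ) ∣ f (b, c) := by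
      rw [← ZMod.intCast_zmod_eq_zero_iff_dvd, hf]
      push_cast
      rw [sub_eq_zero]
    simp only [h2]
  have h2 : ∀ x ∈ S.filter (fun x => (q : ℤ) ∣ f x), f x ∈ U := by
    rintro ⟨b, c⟩ hx
    rw [mem_filter, hS, mem_product, mem_Icc, mem_Icc] at hx
    obtain ⟨⟨⟨h1, h2⟩, h3, h4⟩, h5⟩ := hx
    simp only at h1 h2 h3 h4
    rw [Nat.le_div_iff_mul_le hp] at h2
    rw [Nat.le_div_iff_mul_le hp2] at h4
    have h2' : (b : ℤ) * p ≤ X := by exact_mod_cast h2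
    have h4' : (c : ℤ) * p2 ≤ X := by exact_mod_cast h4
    have h1' : (1 : ℤ) ≤ b := by exact_mod_cast h1
    have h3' : (1 : ℤ) ≤ c := by exact_mod_cast h3
    have hpz : (0 : ℤ) < p := by exact_mod_cast hp
    have hp2z : (0 : ℤ) < p2 := by exact_mod_cast hp2
    have h6 : 0 < (p : ℤ) * b := by positivity
    have h7 : 0 < (p2 : ℤ) * c := by positivity
    rw [hU, mem_filter, mem_Ioo]
    refine ⟨⟨?_, ?_⟩, h5⟩
    · rw [hf]; simp only; linarith
    · rw [hf]; simp only; linarith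
  have h3 : ∀ u ∈ U, (∑ x ∈ (S.filter (fun x => (q : ℤ) ∣ f x)).filter (fun x => f x = u),
      ee ((f x : ℤ) * g)) = ((S.filter (fun x => f x = u)).card : ℂ) * ee (u * g) := by
    intro u hu
    have h4 : (S.filter (fun x => (q : ℤ) ∣ f x)).filter (fun x => f x = u) =
        S.filter (fun x => f x = u) := by
      ext x
      simp only [mem_filter]
      constructor
      · rintro ⟨⟨h1, _⟩, h2⟩
        exact ⟨h1, h2⟩
      · rintro ⟨h1, h2⟩
        refine ⟨⟨h1, ?_⟩, h2⟩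
        rw [h2]
        exact (mem_filter.1 hu).2
    rw [h4, sum_congr rfl (fun x hx => by rw [(mem_filter.1 hx).2]), sum_const, nsmul_eq_mul]
  rw [h1, ← Finset.sum_fiberwise_of_maps_to h2, sum_congr rfl h3]

/-- the pairs `(b, c)` with `p b = p' c` modulo `q` -/
theorem pairs (q : ℕ) [NeZero q] (X p p2 : ℕ) (hp : p.Prime) (hp2 : p2.Prime) (hne : p ≠ p2) (g : ℝ) :
    ‖∑ b ∈ Icc 1 (X / p), ∑ c ∈ Icc 1 (X / p2),
        (if ((p * b : ℕ) : ZMod q) = ((p2 * c : ℕ) : ZMod q) then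
          ee ((p * b : ℕ) * g) * (starRingEnd ℂ) (ee ((p2 * c : ℕ) * g)) else 0) -
      ((p : ℂ) * p2)⁻¹ * ∑ u ∈ (Ioo (-(X : ℤ)) X).filter (fun u => (q : ℤ) ∣ u),
        (((X : ℤ) - |u| : ℤ) : ℂ) * ee (u * g)‖ ≤ 2 * X / q + 1 := by
  classical
  rcases Nat.eq_zero_or_pos X with hX | hX
  · subst hX
    simp
  rw [pairs_eq q X p p2 hp.pos hp2.pos g, mul_sum, ← sum_sub_distrib]
  refine (norm_sum_le_of_le (f := _) _ (n := fun _ => 1) ?_).trans ?_
  · intro u hu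
    rw [mem_filter, mem_Ioo] at hu
    have h4 : |u| ≤ X := by rw [abs_le]; constructor <;> linarith [hu.1.1, hu.1.2]
    have h5 := card_pairs_le hp hp2 hne X u h4
    set S := (Icc 1 (X / p) ×ˢ Icc 1 (X / p2)).filter
      (fun x : ℕ × ℕ => (p : ℤ) * x.1 - p2 * x.2 = u) with hS
    have h6 : ((S.card : ℕ) : ℂ) * ee (u * g) -
        ((p : ℂ) * p2)⁻¹ * ((((X : ℤ) - |u| : ℤ) : ℂ) * ee (u * g)) =
        ((((S.card : ℕ) : ℝ) - ((X : ℝ) - |(u : ℝ)|) / (p * p2) : ℝ) : ℂ) *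
          ee (u * g) := by
      have h7 : ((|u| : ℤ) : ℂ) = ((|(u : ℝ)| : ℝ) : ℂ) := by
        rw [← Int.cast_abs, Complex.ofReal_intCast]
      rw [Int.cast_sub, h7]
      push_cast
      ring
    rw [h6, norm_mul, norm_ee, mul_one, Complex.norm_real]
    exact h5
  · rw [sum_const, nsmul_eq_mul, mul_one]
    exact card_mult q X hX

/-- the square of a sum over the classes -/
theorem sqexp {q : ℕ} [NeZero q] {ι : Type*} (I : Finset ι) (cls : ι → ZMod q) (z : ι → ℂ) :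
    ((∑ l : ZMod q, ‖∑ i ∈ I, (if cls i = l then z i else 0)‖ ^ 2 : ℝ) : ℂ) =
      ∑ i ∈ I, ∑ j ∈ I, (if cls i = cls j then z i * (starRingEnd ℂ) (z j) else 0) := by
  classical
  have h1 : ∀ l : ZMod q, ((‖∑ i ∈ I, (if cls i = l then z i else 0)‖ ^ 2 : ℝ) : ℂ) =
      ∑ i ∈ I, ∑ j ∈ I, (if cls i = l then z i else 0) *
        (starRingEnd ℂ) (if cls j = l then z j else 0) := by
    intro l
    rw [Complex.ofReal_pow, ← Complex.mul_conj', map_sum, Finset.sum_mul_sum]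
  rw [Complex.ofReal_sum, sum_congr rfl fun l _ => h1 l, sum_comm]
  refine sum_congr rfl fun i _ => ?_
  rw [sum_comm]
  refine sum_congr rfl fun j _ => ?_
  rw [Finset.sum_eq_single (cls i)]
  · rw [if_pos rfl]
    by_cases h : cls i = cls j
    · rw [if_pos h.symm, if_pos h]
    · rw [if_neg (fun h' => h h'.symm), if_neg h, map_zero, mul_zero]
  · intro l _ hl
    rw [if_neg (Ne.symm hl), zero_mul]
  · intro h
    exact absurd (mem_univ _) h

/-- the Fejér kernel as the mean square of the sums over the classes -/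
theorem fejer (q : ℕ) [NeZero q] (X : ℕ) (g : ℝ) :
    ∑ u ∈ (Ioo (-(X : ℤ)) X).filter (fun u => (q : ℤ) ∣ u), (((X : ℤ) - |u| : ℤ) : ℂ) * ee (u * g) =
      ((∑ l : ZMod q, ‖∑ b ∈ (Icc 1 X).filter (fun b : ℕ => (b : ZMod q) = l),
        ee (b * g)‖ ^ 2 : ℝ) : ℂ) := by
  classical
  simp_rw [Finset.sum_filter (fun b : ℕ => (b : ZMod q) = _)]
  rw [sqexp (Icc 1 X) (fun b : ℕ => (b : ZMod q)) (fun b : ℕ => ee (b * g))]
  have h1 := pairs_eq q X 1 1 one_pos one_pos g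
  simp only [Nat.div_one, one_mul] at h1
  rw [h1]
  refine sum_congr rfl fun u hu => ?_
  congr 1
  rw [mem_filter, mem_Ioo] at hu
  have h2 := card_pairs (p := 1) (p2 := 1) one_pos one_pos X u
  simp only [Nat.div_one, Nat.cast_one, one_mul, one_dvd, and_self, filter_true] at h2
  simp only [Nat.cast_one, one_mul]
  rw [h2, Int.card_Ioc]
  have h3 : min (X : ℤ) (X + u) - max 0 u = X - |u| := by
    rcases le_total 0 u with h | h
    · rw [max_eq_right h, abs_of_nonneg h, min_eq_left (by linarith)]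
    · rw [max_eq_left h, abs_of_nonpos h, min_eq_right (by linarith)]
      ring
  rw [h3]
  have h4 : |u| ≤ X := by rw [abs_le]; constructor <;> linarith [hu.1.1, hu.1.2]
  have h5 : (((X : ℤ) - |u|).toNat : ℤ) = X - |u| := Int.toNat_of_nonneg (by linarith)
  rw [← Int.cast_natCast (R := ℂ), h5]

end Pool.Agent.Helper34.GV
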