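import Pool.Agent.Helper34.GV.Stm
import Pool.Graph.R_seed8.Y297.GJ.Orth
import Pool.Graph.R_seed8.R460.GS.Ti2
import Pool.Graph.R_seed8.Y183.GJ.Bil1

/-!
# Sums of type I with primes: the mean square as a sum over pairs of primes
-/

set_option autoImplicit false

namespace Pool.Agent.Helper34.GV.TP

open Finset
open Pool.Agent.H807R2.Dav (ee norm_ee ee_add ee_zero)
open Pool.Agent.Y883.GJ

/-! ### Bessel's inequality -/

lemma inv_eq (q : ℕ) [NeZero q] (g : ZMod q → ℂ) (l : ZMod q) (hl : IsUnit l) :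
    (q.totient : ℂ)⁻¹ * ∑ χ : DirichletCharacter ℂ q, χ⁻¹ l * ∑ m, χ m * g m = g l := by
  have hq : (q.totient : ℂ) ≠ 0 := by
    have : 0 < q.totient := Nat.totient_pos.mpr (Nat.pos_of_ne_zero (NeZero.ne q))
    exact_mod_cast this.ne'
  have h1 : ∑ χ : DirichletCharacter ℂ q, χ⁻¹ l * ∑ m, χ m * g m = q.totient * g l := by
    calc ∑ χ : DirichletCharacter ℂ q, χ⁻¹ l * ∑ m, χ m * g m
        = ∑ χ : DirichletCharacter ℂ q, ∑ m : ZMod q, (χ l⁻¹ * χ m) * g m := by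
          refine Finset.sum_congr rfl fun χ _ => ?_
          rw [Finset.mul_sum]
          refine Finset.sum_congr rfl fun m _ => ?_
          have h2 : χ⁻¹ l = χ l⁻¹ := by
            rw [MulChar.inv_apply]
            congr 1
            rw [Ring.inverse_of_isUnit hl]
            have := ZMod.inv_coe_unit hl.unit
            simpa using this.symm
          rw [h2]
          ring
      _ = ∑ m : ZMod q, (∑ χ : DirichletCharacter ℂ q, χ l⁻¹ * χ m) * g m := by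
          rw [Finset.sum_comm]
          refine Finset.sum_congr rfl fun m _ => ?_
          rw [Finset.sum_mul]
      _ = ∑ m : ZMod q, (if l = m then (q.totient : ℂ) else 0) * g m := by
          refine Finset.sum_congr rfl fun m _ => ?_
          rw [DirichletCharacter.sum_char_inv_mul_char_eq ℂ hl m]
      _ = q.totient * g l := by
          simp [ite_mul]
  rw [h1, ← mul_assoc, inv_mul_cancel₀ hq, one_mul]

lemma bessel (q : ℕ) [NeZero q] (g : ZMod q → ℂ) (S : Finset (DirichletCharacter ℂ q)) :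
    ∑ χ ∈ S, ‖∑ l, χ l * g l‖ ^ 2 ≤ q * ∑ l, ‖g l‖ ^ 2 := by
  have hq0 : 0 < q := Nat.pos_of_ne_zero (NeZero.ne q)
  have hq : 0 < (q.totient : ℝ) := by exact_mod_cast Nat.totient_pos.mpr hq0
  have h1 := Pool.Agent.Y297.GJ.pars q univ (fun χ => ∑ m, χ m * g m)
  have h2 : ∑ l : ZMod q, ‖(q.totient : ℂ)⁻¹ * ∑ χ : DirichletCharacter ℂ q,
      χ⁻¹ l * ∑ m, χ m * g m‖ ^ 2 ≤ ∑ l, ‖g l‖ ^ 2 := by
    refine Finset.sum_le_sum fun l _ => ?_
    by_cases hl : IsUnit l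
    · rw [inv_eq q g l hl]
    · have h3 : ∑ χ : DirichletCharacter ℂ q, χ⁻¹ l * ∑ m, χ m * g m = 0 := by
        refine Finset.sum_eq_zero fun χ _ => ?_
        rw [MulChar.map_nonunit _ hl, zero_mul]
      rw [h3, mul_zero, norm_zero, zero_pow two_ne_zero]
      positivity
  rw [h1] at h2
  have h3 : ∑ χ ∈ S, ‖∑ l, χ l * g l‖ ^ 2 ≤
      ∑ χ : DirichletCharacter ℂ q, ‖∑ l, χ l * g l‖ ^ 2 :=
    Finset.sum_le_sum_of_subset_of_nonneg (Finset.subset_univ _) fun _ _ _ => by positivity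
  have h4 : ∑ χ : DirichletCharacter ℂ q, ‖∑ l, χ l * g l‖ ^ 2 ≤
      q.totient * ∑ l, ‖g l‖ ^ 2 := by
    rw [inv_mul_le_iff₀ hq] at h2
    exact h2
  have h5 : (q.totient : ℝ) ≤ q := by exact_mod_cast Nat.totient_le q
  exact h3.trans (h4.trans (mul_le_mul_of_nonneg_right h5 (by positivity)))

/-- nonprincipal characters -/
lemma bessel1 (q : ℕ) [NeZero q] (g : ZMod q → ℂ) (S : Finset (DirichletCharacter ℂ q))
    (hS : (1 : DirichletCharacter ℂ q) ∉ S) (E : ℂ) :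
    ∑ χ ∈ S, ‖∑ l, χ l * g l‖ ^ 2 ≤ q * ∑ l, ‖g l - E‖ ^ 2 := by
  refine le_trans (le_of_eq ?_) (bessel q (fun l => g l - E) S)
  refine Finset.sum_congr rfl fun χ hχ => ?_
  have h1 : χ ≠ 1 := fun h => hS (h ▸ hχ)
  have h2 : ∑ l, χ l * (g l - E) = ∑ l, χ l * g l := by
    simp only [mul_sub]
    rw [Finset.sum_sub_distrib, ← Finset.sum_mul, MulChar.sum_eq_zero_of_ne_one h1, zero_mul,
      sub_zero]
  rw [h2]

/-! ### The mean square as a double sum -/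

section Var

variable {ι : Type*} (I : Finset ι) (a : ι → ℂ) {q : ℕ} [NeZero q] (ν : ι → ZMod q)

lemma sq_cl (l : ZMod q) : ((‖∑ t ∈ I.filter (fun t => ν t = l), a t‖ ^ 2 : ℝ) : ℂ) =
    ∑ t ∈ I, ∑ t' ∈ I, (if ν t = l then 1 else 0) * (if ν t' = l then 1 else 0) *
      (a t * (starRingEnd ℂ) (a t')) := by
  have h1 : ∑ t ∈ I.filter (fun t => ν t = l), a t = ∑ t ∈ I, (if ν t = l then 1 else 0) * a t := by
    rw [Finset.sum_filter]
    refine Finset.sum_congr rfl fun t _ => ?_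
    split_ifs <;> simp
  rw [h1]
  push_cast
  rw [← Complex.mul_conj', map_sum, Finset.sum_mul_sum]
  refine Finset.sum_congr rfl fun t _ => Finset.sum_congr rfl fun t' _ => ?_
  rw [map_mul]
  have h2 : (starRingEnd ℂ) (if ν t' = l then (1 : ℂ) else 0) = if ν t' = l then 1 else 0 := by
    split_ifs <;> simp
  rw [h2]
  ring

lemma var0 : ((∑ l, ‖∑ t ∈ I.filter (fun t => ν t = l), a t‖ ^ 2 : ℝ) : ℂ) =
    ∑ t ∈ I, ∑ t' ∈ I, (if ν t = ν t' then 1 else 0) * (a t * (starRingEnd ℂ) (a t')) := by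
  rw [Complex.ofReal_sum, Finset.sum_congr rfl fun l _ => sq_cl I a ν l, Finset.sum_comm]
  refine Finset.sum_congr rfl fun t _ => ?_
  rw [Finset.sum_comm]
  refine Finset.sum_congr rfl fun t' _ => ?_
  rw [← Finset.sum_mul]
  congr 1
  simp only [ite_mul, one_mul, zero_mul]
  rw [Finset.sum_ite_eq]
  simp only [Finset.mem_univ, if_true]
  by_cases h : ν t = ν t'
  · rw [if_pos h, if_pos h.symm]
  · rw [if_neg h, if_neg (fun h' => h h'.symm)]

lemma sum_cl : ∑ l, ∑ t ∈ I.filter (fun t => ν t = l), a t = ∑ t ∈ I, a t :=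
  Finset.sum_fiberwise I ν a

lemma var1 : ((∑ l, ‖∑ t ∈ I.filter (fun t => ν t = l), a t - (q : ℂ)⁻¹ * ∑ t ∈ I, a t‖ ^ 2 : ℝ) : ℂ) =
    ∑ t ∈ I, ∑ t' ∈ I, ((if ν t = ν t' then 1 else 0) - (q : ℂ)⁻¹) *
      (a t * (starRingEnd ℂ) (a t')) := by
  have hq : (q : ℂ) ≠ 0 := by exact_mod_cast NeZero.ne q
  set A : ℂ := ∑ t ∈ I, a t with hA
  set g : ZMod q → ℂ := fun l => ∑ t ∈ I.filter (fun t => ν t = l), a t with hg
  have h1 : ∀ l, ((‖g l - (q : ℂ)⁻¹ * A‖ ^ 2 : ℝ) : ℂ) = ((‖g l‖ ^ 2 : ℝ) : ℂ) -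
      g l * ((q : ℂ)⁻¹ * (starRingEnd ℂ) A) - (q : ℂ)⁻¹ * A * (starRingEnd ℂ) (g l) +
      (q : ℂ)⁻¹ * A * ((q : ℂ)⁻¹ * (starRingEnd ℂ) A) := by
    intro l
    push_cast
    rw [← Complex.mul_conj', ← Complex.mul_conj', map_sub, map_mul, map_inv₀, Complex.conj_natCast]
    ring
  have h2 : ∑ l, g l = A := sum_cl I a ν
  have h3 : ∑ l, (starRingEnd ℂ) (g l) = (starRingEnd ℂ) A := by rw [← map_sum, h2]
  have h4 : ((∑ l, ‖g l‖ ^ 2 : ℝ) : ℂ) = ∑ t ∈ I, ∑ t' ∈ I, (if ν t = ν t' then 1 else 0) *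
      (a t * (starRingEnd ℂ) (a t')) := var0 I a ν
  have h5 : ((∑ l, ‖g l - (q : ℂ)⁻¹ * A‖ ^ 2 : ℝ) : ℂ) =
      ((∑ l, ‖g l‖ ^ 2 : ℝ) : ℂ) - (q : ℂ)⁻¹ * (A * (starRingEnd ℂ) A) := by
    rw [Complex.ofReal_sum, Finset.sum_congr rfl fun l _ => h1 l, Finset.sum_add_distrib,
      Finset.sum_sub_distrib, Finset.sum_sub_distrib, ← Finset.sum_mul, ← Finset.mul_sum, h2, h3,
      Finset.sum_const, Finset.card_univ, ZMod.card, nsmul_eq_mul, ← Complex.ofReal_sum]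
    field_simp
    ring
  rw [h5, h4, hA, map_sum, Finset.sum_mul_sum, Finset.mul_sum, ← Finset.sum_sub_distrib]
  refine Finset.sum_congr rfl fun t _ => ?_
  rw [Finset.mul_sum, ← Finset.sum_sub_distrib]
  refine Finset.sum_congr rfl fun t' _ => ?_
  ring

end Var

end Pool.Agent.Helper34.GV.TP
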