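import Pool.Agent.Helper34.GV.Tp0

/-!
# Sums of type I with primes: the lattice points with a given difference
-/

set_option autoImplicit false

namespace Pool.Agent.Helper34.GV.TP

open Finset

lemma crt {p p' : ℕ} (hco : p.Coprime p') (u : ℤ) : ∃ s₀ : ℤ, ∀ s : ℤ,
    ((p : ℤ) ∣ s ∧ (p' : ℤ) ∣ s - u) ↔ s ≡ s₀ [ZMOD ((p : ℤ) * p')] := by
  have h : IsCoprime (p : ℤ) (p' : ℤ) := Nat.isCoprime_iff_coprime.2 hco
  obtain ⟨x, y, hxy⟩ := h
  refine ⟨u * x * p, fun s => ?_⟩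
  have e1 : u - u * x * p = u * y * p' := by linear_combination (-u) * hxy
  rw [Int.modEq_comm, Int.modEq_iff_dvd]
  constructor
  · rintro ⟨h1, h2⟩
    refine IsCoprime.mul_dvd ⟨x, y, hxy⟩ ?_ ?_
    · exact dvd_sub h1 (dvd_mul_left _ _)
    · have e2 : s - u * x * p = (s - u) + u * y * p' := by rw [← e1]; ring
      rw [e2]
      exact dvd_add h2 (dvd_mul_left _ _)
  · intro h
    have h1 : (p : ℤ) ∣ s - u * x * p := (dvd_mul_right _ _).trans h
    have h2 : (p' : ℤ) ∣ s - u * x * p := (dvd_mul_left _ _).trans h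
    refine ⟨?_, ?_⟩
    · have := dvd_add h1 (dvd_mul_left (p : ℤ) (u * x))
      rwa [sub_add_cancel] at this
    · have e2 : s - u = (s - u * x * p) - u * y * p' := by rw [← e1]; ring
      rw [e2]
      exact dvd_sub h2 (dvd_mul_left _ _)

lemma card_class {a b r : ℤ} (hab : a ≤ b) (hr : 0 < r) (v : ℤ) :
    |(((Ioc a b).filter (fun x => x ≡ v [ZMOD r])).card : ℝ) - ((b : ℝ) - a) / r| ≤ 1 := by
  have h1 := Int.Ioc_filter_modEq_card a b hr v
  have hr' : (0 : ℚ) < r := by exact_mod_cast hr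
  have h2 : ⌊((a - v : ℤ) : ℚ) / r⌋ ≤ ⌊((b - v : ℤ) : ℚ) / r⌋ := by
    apply Int.floor_le_floor
    apply div_le_div_of_nonneg_right _ hr'.le
    exact_mod_cast (by omega : a - v ≤ b - v)
  push_cast at h2
  rw [max_eq_left (by omega)] at h1
  have h3 := Int.floor_le (((b : ℚ) - v) / r)
  have h4 := Int.lt_floor_add_one (((b : ℚ) - v) / r)
  have h5 := Int.floor_le (((a : ℚ) - v) / r)
  have h6 := Int.lt_floor_add_one (((a : ℚ) - v) / r)
  set F := ⌊((b : ℚ) - v) / r⌋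
  set G := ⌊((a : ℚ) - v) / r⌋
  have h7 : ((b : ℚ) - v) / r - ((a : ℚ) - v) / r = ((b : ℚ) - a) / r := by ring
  have h8 : |((F - G : ℤ) : ℚ) - ((b : ℚ) - a) / r| ≤ 1 := by
    rw [← h7, abs_le]
    push_cast
    constructor <;> linarith
  have h9 : (((Ioc a b).filter (fun x => x ≡ v [ZMOD r])).card : ℝ) = ((F - G : ℤ) : ℝ) := by
    exact_mod_cast h1
  rw [h9]
  exact_mod_cast h8

/-- the pairs with `p b - p' b' = u` -/
noncomputable def fib (p p' X : ℕ) (u : ℤ) : Finset (ℕ × ℕ) :=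
  (Icc 1 (X / p) ×ˢ Icc 1 (X / p')).filter (fun t => (p : ℤ) * t.1 - p' * t.2 = u)

lemma count_u {p p' X : ℕ} (hp : 0 < p) (hp' : 0 < p') (hco : p.Coprime p') {u : ℤ}
    (hu : u ∈ Ioo (-(X : ℤ)) X) :
    |((fib p p' X u).card : ℝ) - ((X : ℝ) - |u|) / ((p : ℝ) * p')| ≤ 1 := by
  rw [mem_Ioo] at hu
  obtain ⟨s₀, hs₀⟩ := crt hco u
  have hpp : (0 : ℤ) < (p : ℤ) * p' := by positivity
  have hcard : (fib p p' X u).card =
      ((Ioc (max 0 u) (min (X : ℤ) (X + u))).filter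
        (fun x => x ≡ s₀ [ZMOD ((p : ℤ) * p')])).card := by
    refine Finset.card_bij (fun t _ => (p : ℤ) * t.1) ?_ ?_ ?_
    · intro t ht
      rw [fib, mem_filter, mem_product, mem_Icc, mem_Icc] at ht
      obtain ⟨⟨⟨h1, h2⟩, h3, h4⟩, h5⟩ := ht
      rw [mem_filter, mem_Ioc, ← hs₀]
      have h6 : p * t.1 ≤ X := by
        rw [mul_comm]; exact (Nat.le_div_iff_mul_le hp).1 h2
      have h7 : p' * t.2 ≤ X := by
        rw [mul_comm]; exact (Nat.le_div_iff_mul_le hp').1 h4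
      have h8 : 0 < p * t.1 := Nat.mul_pos hp h1
      have h9 : 0 < p' * t.2 := Nat.mul_pos hp' h3
      have h6' : (p : ℤ) * t.1 ≤ X := by exact_mod_cast h6
      have h7' : (p' : ℤ) * t.2 ≤ X := by exact_mod_cast h7
      have h8' : (0 : ℤ) < (p : ℤ) * t.1 := by exact_mod_cast h8
      have h9' : (0 : ℤ) < (p' : ℤ) * t.2 := by exact_mod_cast h9
      refine ⟨⟨max_lt h8' (by linarith), le_min h6' (by linarith)⟩, dvd_mul_right _ _, ?_⟩
      have : (p : ℤ) * t.1 - u = p' * t.2 := by linarith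
      rw [this]
      exact dvd_mul_right _ _
    · intro t ht t' ht' h
      rw [fib, mem_filter] at ht ht'
      have hp0 : (p : ℤ) ≠ 0 := by exact_mod_cast hp.ne'
      have hp0' : (p' : ℤ) ≠ 0 := by exact_mod_cast hp'.ne'
      have h1 : (t.1 : ℤ) = t'.1 := mul_left_cancel₀ hp0 h
      have h2 : (p' : ℤ) * t.2 = p' * t'.2 := by
        have e1 := ht.2
        have e2 := ht'.2
        have e3 : (p : ℤ) * t.1 = p * t'.1 := h
        linarith
      have h3 : (t.2 : ℤ) = t'.2 := mul_left_cancel₀ hp0' h2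
      exact Prod.ext (by exact_mod_cast h1) (by exact_mod_cast h3)
    · intro s hs
      rw [mem_filter, mem_Ioc, ← hs₀] at hs
      obtain ⟨⟨h1, h2⟩, ⟨b, hb⟩, ⟨b', hb'⟩⟩ := hs
      have h3 : 0 < s := lt_of_le_of_lt (le_max_left _ _) h1
      have h4 : u < s := lt_of_le_of_lt (le_max_right _ _) h1
      have h5 : s ≤ X := h2.trans (min_le_left _ _)
      have h6 : s ≤ X + u := h2.trans (min_le_right _ _)
      have hpZ : (0 : ℤ) < p := by exact_mod_cast hp
      have hpZ' : (0 : ℤ) < p' := by exact_mod_cast hp'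
      have hb0 : 0 < b := by
        by_contra hcon
        push Not at hcon
        have := mul_nonpos_of_nonneg_of_nonpos hpZ.le hcon
        omega
      have hb0' : 0 < b' := by
        by_contra hcon
        push Not at hcon
        have := mul_nonpos_of_nonneg_of_nonpos hpZ'.le hcon
        omega
      obtain ⟨c, rfl⟩ := Int.eq_ofNat_of_zero_le hb0.le
      obtain ⟨c', rfl⟩ := Int.eq_ofNat_of_zero_le hb0'.le
      refine ⟨(c, c'), ?_, hb.symm⟩
      rw [fib, mem_filter, mem_product, mem_Icc, mem_Icc]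
      refine ⟨⟨⟨by exact_mod_cast hb0, ?_⟩, by exact_mod_cast hb0', ?_⟩, ?_⟩
      · rw [Nat.le_div_iff_mul_le hp, mul_comm]
        have : (p : ℤ) * c ≤ X := by rw [← hb]; exact h5
        exact_mod_cast this
      · rw [Nat.le_div_iff_mul_le hp', mul_comm]
        have : (p' : ℤ) * c' ≤ X := by rw [← hb']; linarith
        exact_mod_cast this
      · show (p : ℤ) * c - p' * c' = u
        rw [← hb, ← hb']
        ring
  have hab : max 0 u ≤ min (X : ℤ) (X + u) := by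
    apply max_le <;> apply le_min <;> omega
  have h1 := card_class hab hpp s₀
  rw [hcard]
  have h2 : (((min (X : ℤ) (X + u) : ℤ) : ℝ) - ((max 0 u : ℤ) : ℝ)) = (X : ℝ) - |u| := by
    have h3 : min (X : ℤ) (X + u) - max 0 u = X - |u| := by
      rcases le_total 0 u with h | h
      · rw [max_eq_right h, min_eq_left (by omega), abs_of_nonneg h]
      · rw [max_eq_left h, min_eq_right (by omega), abs_of_nonpos h]; ring
    exact_mod_cast h3
  rw [h2] at h1
  push_cast at h1 ⊢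
  exact h1

/-- the main lemma for two different primes -/
lemma pair {p p' X : ℕ} (hp : 0 < p) (hp' : 0 < p') (hco : p.Coprime p') (G : ℤ → ℂ) :
    ‖∑ b ∈ Icc 1 (X / p), ∑ b' ∈ Icc 1 (X / p'), G ((p : ℤ) * b - p' * b')‖ ≤
      ((p : ℝ) * p')⁻¹ * ‖∑ u ∈ Ioo (-(X : ℤ)) X, ((((X : ℝ) - |u|) : ℝ) : ℂ) * G u‖ +
        ∑ u ∈ Ioo (-(X : ℤ)) X, ‖G u‖ := by
  have h1 : ∑ b ∈ Icc 1 (X / p), ∑ b' ∈ Icc 1 (X / p'), G ((p : ℤ) * b - p' * b') =
      ∑ u ∈ Ioo (-(X : ℤ)) X, ((fib p p' X u).card : ℂ) * G u := by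
    rw [← Finset.sum_product']
    rw [← Finset.sum_fiberwise_of_maps_to (t := Ioo (-(X : ℤ)) X)
      (g := fun t : ℕ × ℕ => (p : ℤ) * t.1 - p' * t.2)]
    · refine Finset.sum_congr rfl fun u _ => ?_
      have h2 : ∀ t ∈ (Icc 1 (X / p) ×ˢ Icc 1 (X / p')).filter
          (fun t : ℕ × ℕ => (p : ℤ) * t.1 - p' * t.2 = u), G ((p : ℤ) * t.1 - p' * t.2) = G u := by
        intro t ht
        rw [(mem_filter.1 ht).2]
      rw [Finset.sum_congr rfl h2, Finset.sum_const, nsmul_eq_mul]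
      rfl
    · intro t ht
      rw [mem_product, mem_Icc, mem_Icc] at ht
      obtain ⟨⟨h1, h2⟩, h3, h4⟩ := ht
      have h6 : p * t.1 ≤ X := by
        rw [mul_comm]; exact (Nat.le_div_iff_mul_le hp).1 h2
      have h7 : p' * t.2 ≤ X := by
        rw [mul_comm]; exact (Nat.le_div_iff_mul_le hp').1 h4
      have h8 : 0 < p * t.1 := Nat.mul_pos hp h1
      have h9 : 0 < p' * t.2 := Nat.mul_pos hp' h3
      have h6' : (p : ℤ) * t.1 ≤ X := by exact_mod_cast h6
      have h7' : (p' : ℤ) * t.2 ≤ X := by exact_mod_cast h7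
      have h8' : (0 : ℤ) < (p : ℤ) * t.1 := by exact_mod_cast h8
      have h9' : (0 : ℤ) < (p' : ℤ) * t.2 := by exact_mod_cast h9
      show (p : ℤ) * t.1 - p' * t.2 ∈ Ioo (-(X : ℤ)) X
      rw [mem_Ioo]
      constructor <;> linarith
  rw [h1]
  have h2 : ∑ u ∈ Ioo (-(X : ℤ)) X, ((fib p p' X u).card : ℂ) * G u =
      (((p : ℝ) * p')⁻¹ : ℝ) * (∑ u ∈ Ioo (-(X : ℤ)) X, ((((X : ℝ) - |u|) : ℝ) : ℂ) * G u) +
        ∑ u ∈ Ioo (-(X : ℤ)) X,
          ((((fib p p' X u).card : ℝ) - ((X : ℝ) - |u|) / ((p : ℝ) * p') : ℝ) : ℂ) * G u := by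
    rw [Finset.mul_sum, ← Finset.sum_add_distrib]
    refine Finset.sum_congr rfl fun u _ => ?_
    push_cast
    ring
  rw [h2]
  refine (norm_add_le _ _).trans (add_le_add (le_of_eq ?_) ?_)
  · rw [norm_mul, Complex.norm_real, Real.norm_of_nonneg (by positivity)]
  · refine (norm_sum_le _ _).trans (Finset.sum_le_sum fun u hu => ?_)
    rw [norm_mul, Complex.norm_real, Real.norm_eq_abs]
    have h3 := count_u hp hp' hco hu
    exact mul_le_of_le_one_left (norm_nonneg _) h3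

/-- the number of the multiples of `q` in `(-X, X)` -/
lemma card_mult (q X : ℕ) (hq : 0 < q) :
    (((Ioo (-(X : ℤ)) X).filter (fun u => (q : ℤ) ∣ u)).card : ℝ) ≤ 2 * X / q + 1 := by
  have hqZ : (0 : ℤ) < q := by exact_mod_cast hq
  have h1 := card_class (a := -(X : ℤ)) (b := X) (by omega) hqZ 0
  have h2 : (Ioo (-(X : ℤ)) X).filter (fun u => (q : ℤ) ∣ u) ⊆
      (Ioc (-(X : ℤ)) X).filter (fun u => u ≡ 0 [ZMOD q]) := by
    intro u hu
    rw [mem_filter, mem_Ioo] at hu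
    rw [mem_filter, mem_Ioc]
    exact ⟨⟨hu.1.1, hu.1.2.le⟩, (Int.modEq_zero_iff_dvd).2 hu.2⟩
  have h3 : (((Ioo (-(X : ℤ)) X).filter (fun u => (q : ℤ) ∣ u)).card : ℝ) ≤
      (((Ioc (-(X : ℤ)) X).filter (fun u => u ≡ 0 [ZMOD q])).card : ℝ) := by
    exact_mod_cast Finset.card_le_card h2
  have h4 := (abs_le.1 h1).2
  push_cast at h4
  have h5 : ((X : ℝ) - -(X : ℝ)) / q = 2 * X / q := by ring
  rw [h5] at h4
  linarith

/-- pairs with the same prime -/
lemma same_prime (q X p : ℕ) (hq : 0 < q) (hp : 0 < p) (hco : p.Coprime q) :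
    ∑ b ∈ Icc 1 (X / p), ∑ b' ∈ Icc 1 (X / p),
      (if (q : ℤ) ∣ (p : ℤ) * b - p * b' then (1 : ℝ) else 0) ≤
      (X / p : ℝ) * (X / p / q + 1) := by
  have hXp : ((X / p : ℕ) : ℝ) ≤ (X : ℝ) / p := Nat.cast_div_le
  have h1 : ∀ b ∈ Icc 1 (X / p), ∑ b' ∈ Icc 1 (X / p),
      (if (q : ℤ) ∣ (p : ℤ) * b - p * b' then (1 : ℝ) else 0) ≤ (X : ℝ) / p / q + 1 := by
    intro b _
    rw [← Finset.sum_filter, Finset.sum_const, nsmul_eq_mul, mul_one]
    have hqZ : (0 : ℤ) < q := by exact_mod_cast hq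
    have h2 := card_class (a := 0) (b := ((X / p : ℕ) : ℤ)) (by positivity) hqZ b
    have h3 : ((Icc 1 (X / p)).filter (fun b' : ℕ => (q : ℤ) ∣ (p : ℤ) * b - p * b')).card ≤
        ((Ioc (0 : ℤ) ((X / p : ℕ) : ℤ)).filter (fun x => x ≡ b [ZMOD q])).card := by
      refine Finset.card_le_card_of_injOn (fun n : ℕ => (n : ℤ)) ?_ ?_
      · intro n hn
        rw [Finset.mem_coe, mem_filter, mem_Icc] at hn
        rw [Finset.mem_coe, mem_filter, mem_Ioc]
        refine ⟨⟨show (0 : ℤ) < (n : ℤ) by exact_mod_cast hn.1.1,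
          show (n : ℤ) ≤ ((X / p : ℕ) : ℤ) by exact_mod_cast hn.1.2⟩, ?_⟩
        show (n : ℤ) ≡ b [ZMOD q]
        rw [Int.modEq_iff_dvd]
        have h4 : (q : ℤ) ∣ (p : ℤ) * (b - n) := by rw [mul_sub]; exact hn.2
        exact IsCoprime.dvd_of_dvd_mul_left (Nat.isCoprime_iff_coprime.2 hco.symm) h4
      · intro n _ n' _ h
        have h' : (n : ℤ) = n' := h
        exact_mod_cast h'
    have h4 := (abs_le.1 h2).2
    have h5 : (((Icc 1 (X / p)).filter (fun b' : ℕ => (q : ℤ) ∣ (p : ℤ) * b - p * b')).card : ℝ) ≤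
        (((Ioc (0 : ℤ) ((X / p : ℕ) : ℤ)).filter (fun x => x ≡ b [ZMOD q])).card : ℝ) := by
      exact_mod_cast h3
    rw [Int.cast_zero, sub_zero, Int.cast_natCast, Int.cast_natCast] at h4
    have h6 : ((X / p : ℕ) : ℝ) / q ≤ (X : ℝ) / p / q :=
      div_le_div_of_nonneg_right hXp (by positivity)
    linarith
  refine (Finset.sum_le_sum h1).trans ?_
  rw [Finset.sum_const, nsmul_eq_mul, Nat.card_Icc, Nat.add_sub_cancel]
  exact mul_le_mul_of_nonneg_right hXp (by positivity)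

end Pool.Agent.Helper34.GV.TP
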