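import Pool.Agent.Helper34.GV.Tp1

/-!
# Sums of type I with primes: the main term, a weighted sum over the multiples of `q`
-/

set_option autoImplicit false

namespace Pool.Agent.Helper34.GV.TP

open Finset
open Pool.Agent.H807R2.Dav (ee norm_ee ee_add ee_zero)

/-- the hat function times an exponential -/
noncomputable def hat (X : ℕ) (γ : ℝ) (u : ℤ) : ℂ := ((max ((X : ℝ) - |u|) 0 : ℝ) : ℂ) * ee (u * γ)

lemma hat_lip (X : ℕ) (γ : ℝ) (u v : ℤ) :
    ‖hat X γ u - hat X γ v‖ ≤ |(u : ℝ) - v| * (1 + 7 * |γ| * X) := by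
  unfold hat
  set A : ℝ := max ((X : ℝ) - |u|) 0 with hA
  set B : ℝ := max ((X : ℝ) - |v|) 0 with hB
  have h1 : (A : ℂ) * ee (u * γ) - (B : ℂ) * ee (v * γ) =
      ((A - B : ℝ) : ℂ) * ee (u * γ) + (B : ℂ) * (ee (u * γ) - ee (v * γ)) := by
    push_cast
    ring
  rw [h1]
  have h2 : |A - B| ≤ |(u : ℝ) - v| := by
    rw [hA, hB]
    refine (abs_max_sub_max_le_abs _ _ _).trans ?_
    have : (X : ℝ) - |(u : ℤ)| - ((X : ℝ) - |(v : ℤ)|) = -(((|u| : ℤ) : ℝ) - ((|v| : ℤ) : ℝ)) := by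
      ring
    rw [this, abs_neg]
    push_cast
    exact abs_abs_sub_abs_le_abs_sub _ _
  have hB0 : 0 ≤ B := le_max_right _ _
  have hBX : B ≤ X := by
    rw [hB]
    apply max_le _ (Nat.cast_nonneg _)
    have : (0 : ℝ) ≤ ((|v| : ℤ) : ℝ) := by exact_mod_cast abs_nonneg v
    linarith
  have h3 : ‖ee (u * γ) - ee (v * γ)‖ ≤ 7 * (|(u : ℝ) - v| * |γ|) := by
    refine (Pool.Agent.Y183.GJ.ee_sub _ _).trans (le_of_eq ?_)
    rw [← abs_mul, sub_mul]
  refine (norm_add_le _ _).trans ?_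
  rw [norm_mul, norm_mul, norm_ee, Complex.norm_real, Complex.norm_real, Real.norm_eq_abs,
    Real.norm_of_nonneg hB0, mul_one]
  have h4 : B * ‖ee (u * γ) - ee (v * γ)‖ ≤ X * (7 * (|(u : ℝ) - v| * |γ|)) :=
    mul_le_mul hBX h3 (norm_nonneg _) (Nat.cast_nonneg _)
  calc |A - B| + B * ‖ee (u * γ) - ee (v * γ)‖ ≤ |(u : ℝ) - v| + X * (7 * (|(u : ℝ) - v| * |γ|)) :=
        add_le_add h2 h4
    _ = |(u : ℝ) - v| * (1 + 7 * |γ| * X) := by ring

lemma blocks (q K : ℕ) (f : ℕ → ℂ) :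
    ∑ j ∈ range (K * q), f j = ∑ k ∈ range K, ∑ r ∈ range q, f (k * q + r) := by
  induction K with
  | zero => simp
  | succ K ih => rw [add_mul, one_mul, Finset.sum_range_add, ih, Finset.sum_range_succ]

lemma main_term (q X : ℕ) (hq : 0 < q) (γ : ℝ) :
    ‖∑ u ∈ Ioo (-(X : ℤ)) X, ((((X : ℝ) - |u|) : ℝ) : ℂ) *
      (((if (q : ℤ) ∣ u then 1 else 0) - (q : ℂ)⁻¹) * ee (u * γ))‖ ≤
      (2 * X + 2 * q) * (1 + 7 * |γ| * X) := by
  have hq' : (0 : ℝ) < q := by exact_mod_cast hq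
  set M : ℕ := X / q + 1 with hM
  have hMq : X < M * q := by
    rw [hM, add_mul, one_mul]
    have := Nat.div_add_mod X q
    have := Nat.mod_lt X hq
    have e : q * (X / q) = X / q * q := mul_comm _ _
    omega
  have hMq2 : M * q ≤ X + q := by
    rw [hM, add_mul, one_mul]
    have := Nat.div_mul_le_self X q
    omega
  set c : ℤ → ℂ := fun u => (if (q : ℤ) ∣ u then 1 else 0) - (q : ℂ)⁻¹ with hc
  -- the sum over a larger interval
  have h1 : ∑ u ∈ Ioo (-(X : ℤ)) X, ((((X : ℝ) - |u|) : ℝ) : ℂ) * (c u * ee (u * γ)) =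
      ∑ u ∈ Ico (-((M * q : ℕ) : ℤ)) ((M * q : ℕ) : ℤ), c u * hat X γ u := by
    have h2 : ∑ u ∈ Ioo (-(X : ℤ)) X, ((((X : ℝ) - |u|) : ℝ) : ℂ) * (c u * ee (u * γ)) =
        ∑ u ∈ Ioo (-(X : ℤ)) X, c u * hat X γ u := by
      refine Finset.sum_congr rfl fun u hu => ?_
      rw [mem_Ioo, ← abs_lt] at hu
      have h3 : max ((X : ℝ) - |u|) 0 = (X : ℝ) - |u| := by
        apply max_eq_left
        have : ((|u| : ℤ) : ℝ) < X := by exact_mod_cast hu
        linarith
      rw [hat, h3]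
      ring
    rw [h2]
    refine Finset.sum_subset ?_ ?_
    · intro u hu
      rw [mem_Ioo] at hu
      rw [mem_Ico]
      omega
    · intro u _ hu
      rw [mem_Ioo, ← abs_lt] at hu
      have h3 : max ((X : ℝ) - |u|) 0 = 0 := by
        apply max_eq_right
        have : (X : ℝ) ≤ ((|u| : ℤ) : ℝ) := by exact_mod_cast not_lt.1 hu
        linarith
      rw [hat, h3]
      simp
  have h2 : ∑ u ∈ Ico (-((M * q : ℕ) : ℤ)) ((M * q : ℕ) : ℤ), c u * hat X γ u =
      ∑ j ∈ range (2 * M * q), c ((j : ℤ) - (M * q : ℕ)) * hat X γ ((j : ℤ) - (M * q : ℕ)) := by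
    symm
    refine Finset.sum_bij (fun (j : ℕ) _ => (j : ℤ) - (M * q : ℕ)) ?_ ?_ ?_ ?_
    · intro j hj
      rw [mem_range] at hj
      rw [mem_Ico]
      have : 2 * M * q = M * q + M * q := by ring
      omega
    · intro j _ j' _ h
      have h' : (j : ℤ) - (M * q : ℕ) = (j' : ℤ) - (M * q : ℕ) := h
      omega
    · intro u hu
      rw [mem_Ico] at hu
      refine ⟨(u + (M * q : ℕ)).toNat, ?_, ?_⟩
      · rw [mem_range]
        have : 2 * M * q = M * q + M * q := by ring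
        omega
      · show (((u + (M * q : ℕ)).toNat : ℕ) : ℤ) - (M * q : ℕ) = u
        rw [Int.toNat_of_nonneg (by omega)]
        ring
    · intro j _
      rfl
  have h3 : ∀ k ∈ range (2 * M), ‖∑ r ∈ range q, c (((k * q + r : ℕ) : ℤ) - (M * q : ℕ)) *
      hat X γ (((k * q + r : ℕ) : ℤ) - (M * q : ℕ))‖ ≤ q * (1 + 7 * |γ| * X) := by
    intro k _
    set a : ℤ := ((k * q : ℕ) : ℤ) - (M * q : ℕ) with ha
    have haq : (q : ℤ) ∣ a := by
      rw [ha]
      push_cast
      exact dvd_sub (dvd_mul_left _ _) (dvd_mul_left _ _)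
    have h4 : ∀ r ∈ range q, c (((k * q + r : ℕ) : ℤ) - (M * q : ℕ)) *
        hat X γ (((k * q + r : ℕ) : ℤ) - (M * q : ℕ)) =
        (if r = 0 then hat X γ a else 0) - (q : ℂ)⁻¹ * hat X γ (a + r) := by
      intro r hr
      rw [mem_range] at hr
      have e1 : ((k * q + r : ℕ) : ℤ) - (M * q : ℕ) = a + r := by rw [ha]; push_cast; ring
      rw [e1, hc]
      have e2 : (q : ℤ) ∣ a + r ↔ r = 0 := by
        rw [dvd_add_right haq]
        constructor
        · intro h
          have h' : q ∣ r := by exact_mod_cast h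
          exact Nat.eq_zero_of_dvd_of_lt h' hr
        · rintro rfl
          simp
      simp only [e2]
      by_cases h : r = 0
      · subst h
        simp only [if_true]
        push_cast
        rw [add_zero]
        ring
      · simp only [h, if_false]
        ring
    rw [Finset.sum_congr rfl h4, Finset.sum_sub_distrib]
    have h5 : ∑ r ∈ range q, (if r = 0 then hat X γ a else 0) = hat X γ a := by
      rw [Finset.sum_ite_eq' (range q) 0 (fun _ => hat X γ a)]
      simp [hq]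
    have h6 : hat X γ a - ∑ r ∈ range q, (q : ℂ)⁻¹ * hat X γ (a + r) =
        (q : ℂ)⁻¹ * ∑ r ∈ range q, (hat X γ a - hat X γ (a + r)) := by
      rw [Finset.sum_sub_distrib, Finset.sum_const, card_range, nsmul_eq_mul, mul_sub, ← mul_assoc,
        inv_mul_cancel₀ (by exact_mod_cast hq.ne'), one_mul, Finset.mul_sum]
    rw [h5, h6, norm_mul, norm_inv, Complex.norm_natCast]
    have h7 : ‖∑ r ∈ range q, (hat X γ a - hat X γ (a + r))‖ ≤ q * (q * (1 + 7 * |γ| * X)) := by
      refine (norm_sum_le _ _).trans ?_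
      have h8 : ∀ r ∈ range q, ‖hat X γ a - hat X γ (a + r)‖ ≤ q * (1 + 7 * |γ| * X) := by
        intro r hr
        rw [mem_range] at hr
        refine (hat_lip X γ _ _).trans ?_
        apply mul_le_mul_of_nonneg_right _ (by positivity)
        push_cast
        rw [sub_add_cancel_left, abs_neg, abs_of_nonneg (Nat.cast_nonneg r)]
        exact_mod_cast hr.le
      refine (Finset.sum_le_sum h8).trans ?_
      rw [Finset.sum_const, card_range, nsmul_eq_mul]
    rw [inv_mul_le_iff₀ hq']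
    exact h7
  rw [h1, h2, blocks]
  refine (norm_sum_le _ _).trans ((Finset.sum_le_sum h3).trans ?_)
  rw [Finset.sum_const, card_range, nsmul_eq_mul]
  have h4 : ((M * q : ℕ) : ℝ) ≤ ((X + q : ℕ) : ℝ) := by exact_mod_cast hMq2
  push_cast at h4 ⊢
  have h5 : 0 ≤ 1 + 7 * |γ| * X := by positivity
  calc 2 * (M : ℝ) * (q * (1 + 7 * |γ| * X)) = 2 * (M * q) * (1 + 7 * |γ| * X) := by ring
    _ ≤ (2 * X + 2 * q) * (1 + 7 * |γ| * X) := by
        apply mul_le_mul_of_nonneg_right _ h5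
        linarith

end Pool.Agent.Helper34.GV.TP
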