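import Pool.Agent.Helper34.GV.Tp2

/-!
# Sums of type I with primes: reduction to the sums over pairs of primes
-/

set_option autoImplicit false

namespace Pool.Agent.Helper34.GV.TP

open Finset
open Pool.Agent.H807R2.Dav (ee norm_ee ee_add ee_zero)
open Pool.Agent.Y883.GJ

/-- the pairs `(p, b)` with `p b ≤ X` -/
def II (X : ℕ) : Finset (Σ _ : ℕ, ℕ) := (Icc 1 X).sigma fun p => Icc 1 (X / p)

/-- `log p` for the primes `Z < p ≤ Y` which do not divide `q` -/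
noncomputable def wp (N q p : ℕ) : ℝ := if p.Coprime q then lp N p else 0

/-- the coefficients -/
noncomputable def aa (N q : ℕ) (γ : ℝ) (t : Σ _ : ℕ, ℕ) : ℂ :=
  (wp N q t.1 : ℂ) * ee (((t.1 * t.2 : ℕ) : ℝ) * γ)

/-- the classes -/
def nn (q : ℕ) (t : Σ _ : ℕ, ℕ) : ZMod q := ((t.1 * t.2 : ℕ) : ZMod q)

/-- the part in the class `l` -/
noncomputable def gg (N q X : ℕ) (γ : ℝ) (l : ZMod q) : ℂ :=
  ∑ t ∈ (II X).filter (fun t => nn q t = l), aa N q γ t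

lemma tp_eq {q : ℕ} [NeZero q] (N X d : ℕ) (S : Finset (DirichletCharacter ℂ q)) (η : ℝ) :
    tp N X d (ev S η) = ∑ t ∈ II X, (lp N t.1 : ℂ) • ev S η (t.1 * t.2 * d) := by
  rw [tp, II, Finset.sum_sigma]
  refine Finset.sum_congr rfl fun p _ => ?_
  rw [Finset.smul_sum]

lemma tp_le {q : ℕ} [NeZero q] (N X d : ℕ) (S : Finset (DirichletCharacter ℂ q)) (η : ℝ) :
    ‖tp N X d (ev S η)‖ ^ 2 ≤ ∑ χ ∈ S, ‖∑ l, χ l * gg N q X (η * d) l‖ ^ 2 := by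
  rw [tp_eq, Pool.Agent.R460.GS.norm_ev1 S η (II X) (fun t => (lp N t.1 : ℂ))
    (fun t => t.1 * t.2 * d)]
  refine Finset.sum_le_sum fun χ _ => pow_le_pow_left₀ (norm_nonneg _) ?_ 2
  have h1 : ∑ l, χ l * gg N q X (η * d) l = ∑ t ∈ II X, χ (nn q t) * aa N q (η * d) t := by
    rw [← Finset.sum_fiberwise (II X) (nn q)]
    refine Finset.sum_congr rfl fun l _ => ?_
    rw [gg, Finset.mul_sum]
    refine Finset.sum_congr rfl fun t ht => ?_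
    rw [(mem_filter.1 ht).2]
  have h2 : ∑ t ∈ II X, (lp N t.1 : ℂ) * (χ ((t.1 * t.2 * d : ℕ) : ZMod q) *
      ee (((t.1 * t.2 * d : ℕ) : ℝ) * η)) = χ (d : ZMod q) *
      ∑ t ∈ II X, χ (nn q t) * aa N q (η * d) t := by
    rw [Finset.mul_sum]
    refine Finset.sum_congr rfl fun t _ => ?_
    have e1 : ((t.1 * t.2 * d : ℕ) : ℝ) * η = ((t.1 * t.2 : ℕ) : ℝ) * (η * d) := by
      push_cast; ring
    have e2 : χ ((t.1 * t.2 * d : ℕ) : ZMod q) = χ (nn q t) * χ (d : ZMod q) := by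
      rw [nn, ← map_mul]
      congr 1
      push_cast
      ring
    rw [e1, e2, aa, wp]
    by_cases hco : t.1.Coprime q
    · rw [if_pos hco]
      ring
    · rw [if_neg hco]
      have h3 : χ (nn q t) = 0 := by
        apply MulChar.map_nonunit
        intro h
        apply hco
        rw [nn, ZMod.isUnit_iff_coprime] at h
        exact Nat.Coprime.coprime_dvd_left (dvd_mul_right _ _) h
      rw [h3]
      ring
  rw [h2, h1, norm_mul]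
  exact mul_le_of_le_one_left (norm_nonneg _) (DirichletCharacter.norm_le_one χ _)

lemma zmod_iff (q a b : ℕ) : ((a : ZMod q) = (b : ZMod q)) ↔ (q : ℤ) ∣ (a : ℤ) - b := by
  rw [← ZMod.intCast_zmod_eq_zero_iff_dvd, ← sub_eq_zero]
  push_cast
  rfl

lemma wp_nonneg (N q p : ℕ) : 0 ≤ wp N q p := by
  unfold wp lp
  split_ifs with h1 h2
  · exact Real.log_natCast_nonneg p
  · exact le_rfl
  · exact le_rfl

lemma aa_mul (N q : ℕ) (γ : ℝ) (t t' : Σ _ : ℕ, ℕ) :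
    aa N q γ t * (starRingEnd ℂ) (aa N q γ t') = ((wp N q t.1 * wp N q t'.1 : ℝ) : ℂ) *
      ee ((((t.1 : ℤ) * t.2 - t'.1 * t'.2 : ℤ) : ℝ) * γ) := by
  unfold aa
  rw [map_mul, Complex.conj_ofReal]
  have h1 : (starRingEnd ℂ) (ee (((t'.1 * t'.2 : ℕ) : ℝ) * γ)) =
      ee (-(((t'.1 * t'.2 : ℕ) : ℝ) * γ)) := by
    have h2 : ee (((t'.1 * t'.2 : ℕ) : ℝ) * γ) * ee (-(((t'.1 * t'.2 : ℕ) : ℝ) * γ)) = 1 := by
      rw [← ee_add, add_neg_cancel, ee_zero]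
    have h3 : ee (((t'.1 * t'.2 : ℕ) : ℝ) * γ) *
        (starRingEnd ℂ) (ee (((t'.1 * t'.2 : ℕ) : ℝ) * γ)) = 1 := by
      rw [Complex.mul_conj', norm_ee]
      norm_num
    have h4 : ee (((t'.1 * t'.2 : ℕ) : ℝ) * γ) ≠ 0 := by
      intro h
      rw [h, zero_mul] at h2
      exact zero_ne_one h2
    exact mul_left_cancel₀ h4 (h3.trans h2.symm)
  rw [h1]
  have h5 : (((t.1 : ℤ) * t.2 - t'.1 * t'.2 : ℤ) : ℝ) * γ =
      ((t.1 * t.2 : ℕ) : ℝ) * γ + -(((t'.1 * t'.2 : ℕ) : ℝ) * γ) := by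
    push_cast
    ring
  rw [h5, ee_add]
  push_cast
  ring

/-- the double sum for a kernel `c` -/
lemma dsum (N q X : ℕ) (γ : ℝ) (c : ℤ → ℂ) :
    ∑ t ∈ II X, ∑ t' ∈ II X, c ((t.1 : ℤ) * t.2 - t'.1 * t'.2) *
      (aa N q γ t * (starRingEnd ℂ) (aa N q γ t')) =
    ∑ p ∈ Icc 1 X, ∑ p' ∈ Icc 1 X, ((wp N q p * wp N q p' : ℝ) : ℂ) *
      ∑ b ∈ Icc 1 (X / p), ∑ b' ∈ Icc 1 (X / p'),
        (fun u : ℤ => c u * ee (u * γ)) ((p : ℤ) * b - p' * b') := by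
  rw [II, Finset.sum_sigma]
  refine Finset.sum_congr rfl fun p _ => ?_
  have h1 : ∀ b ∈ Icc 1 (X / p), ∑ t' ∈ (Icc 1 X).sigma (fun p => Icc 1 (X / p)),
      c (((⟨p, b⟩ : Σ _ : ℕ, ℕ).1 : ℤ) * (⟨p, b⟩ : Σ _ : ℕ, ℕ).2 - t'.1 * t'.2) *
        (aa N q γ ⟨p, b⟩ * (starRingEnd ℂ) (aa N q γ t')) =
      ∑ p' ∈ Icc 1 X, ∑ b' ∈ Icc 1 (X / p'), ((wp N q p * wp N q p' : ℝ) : ℂ) *
        (fun u : ℤ => c u * ee (u * γ)) ((p : ℤ) * b - p' * b') := by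
    intro b _
    rw [Finset.sum_sigma]
    refine Finset.sum_congr rfl fun p' _ => Finset.sum_congr rfl fun b' _ => ?_
    rw [aa_mul]
    simp only []
    ring
  rw [Finset.sum_congr rfl h1, Finset.sum_comm]
  refine Finset.sum_congr rfl fun p' _ => ?_
  simp only [Finset.mul_sum]

/-- the bound for the double sum -/
lemma dsum_le (N q X : ℕ) (γ : ℝ) (c : ℤ → ℂ) (D : ℕ → ℕ → ℝ)
    (hD : ∀ p ∈ Icc 1 X, ∀ p' ∈ Icc 1 X, wp N q p ≠ 0 → wp N q p' ≠ 0 →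
      ‖∑ b ∈ Icc 1 (X / p), ∑ b' ∈ Icc 1 (X / p'),
        (fun u : ℤ => c u * ee (u * γ)) ((p : ℤ) * b - p' * b')‖ ≤ D p p') :
    ‖∑ t ∈ II X, ∑ t' ∈ II X, c ((t.1 : ℤ) * t.2 - t'.1 * t'.2) *
      (aa N q γ t * (starRingEnd ℂ) (aa N q γ t'))‖ ≤
    ∑ p ∈ Icc 1 X, ∑ p' ∈ Icc 1 X, wp N q p * wp N q p' * D p p' := by
  rw [dsum]
  refine (norm_sum_le _ _).trans (Finset.sum_le_sum fun p hp => ?_)
  refine (norm_sum_le _ _).trans (Finset.sum_le_sum fun p' hp' => ?_)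
  rw [norm_mul, Complex.norm_real, Real.norm_of_nonneg (mul_nonneg (wp_nonneg _ _ _) (wp_nonneg _ _ _))]
  by_cases h1 : wp N q p = 0
  · rw [h1]; simp
  · by_cases h2 : wp N q p' = 0
    · rw [h2]; simp
    · exact mul_le_mul_of_nonneg_left (hD p hp p' hp' h1 h2)
        (mul_nonneg (wp_nonneg _ _ _) (wp_nonneg _ _ _))

/-- nonprincipal characters -/
lemma tp_maj {q : ℕ} [NeZero q] (N X d : ℕ) (S : Finset (DirichletCharacter ℂ q))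
    (hS : (1 : DirichletCharacter ℂ q) ∉ S) (η : ℝ) (D : ℕ → ℕ → ℝ)
    (hD : ∀ p ∈ Icc 1 X, ∀ p' ∈ Icc 1 X, wp N q p ≠ 0 → wp N q p' ≠ 0 →
      ‖∑ b ∈ Icc 1 (X / p), ∑ b' ∈ Icc 1 (X / p'),
        (fun u : ℤ => ((if (q : ℤ) ∣ u then 1 else 0) - (q : ℂ)⁻¹) * ee (u * (η * d)))
          ((p : ℤ) * b - p' * b')‖ ≤ D p p') :
    ‖tp N X d (ev S η)‖ ^ 2 ≤ q * ∑ p ∈ Icc 1 X, ∑ p' ∈ Icc 1 X, wp N q p * wp N q p' * D p p' := by
  refine (tp_le N X d S η).trans ((bessel1 q _ S hS ((q : ℂ)⁻¹ * ∑ t ∈ II X, aa N q (η * d) t)).trans ?_)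
  apply mul_le_mul_of_nonneg_left _ (Nat.cast_nonneg _)
  have h1 := var1 (II X) (aa N q (η * d)) (nn q)
  have h2 := dsum_le N q X (η * d) (fun u => (if (q : ℤ) ∣ u then 1 else 0) - (q : ℂ)⁻¹) D hD
  have h3 : ∑ t ∈ II X, ∑ t' ∈ II X, ((if nn q t = nn q t' then 1 else 0) - (q : ℂ)⁻¹) *
      (aa N q (η * d) t * (starRingEnd ℂ) (aa N q (η * d) t')) =
      ∑ t ∈ II X, ∑ t' ∈ II X, (fun u : ℤ => (if (q : ℤ) ∣ u then (1 : ℂ) else 0) - (q : ℂ)⁻¹)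
        ((t.1 : ℤ) * t.2 - t'.1 * t'.2) *
      (aa N q (η * d) t * (starRingEnd ℂ) (aa N q (η * d) t')) := by
    refine Finset.sum_congr rfl fun t _ => Finset.sum_congr rfl fun t' _ => ?_
    have h4 : (nn q t = nn q t') ↔ (q : ℤ) ∣ (t.1 : ℤ) * t.2 - t'.1 * t'.2 := by
      rw [nn, nn, zmod_iff]
      push_cast
      rfl
    simp only [h4]
  rw [h3] at h1
  rw [← h1, Complex.norm_real, Real.norm_of_nonneg (by positivity)] at h2
  exact h2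

/-- all characters -/
lemma tp_min {q : ℕ} [NeZero q] (N X d : ℕ) (S : Finset (DirichletCharacter ℂ q))
    (η : ℝ) (D : ℕ → ℕ → ℝ)
    (hD : ∀ p ∈ Icc 1 X, ∀ p' ∈ Icc 1 X, wp N q p ≠ 0 → wp N q p' ≠ 0 →
      ‖∑ b ∈ Icc 1 (X / p), ∑ b' ∈ Icc 1 (X / p'),
        (fun u : ℤ => (if (q : ℤ) ∣ u then 1 else 0) * ee (u * (η * d)))
          ((p : ℤ) * b - p' * b')‖ ≤ D p p') :
    ‖tp N X d (ev S η)‖ ^ 2 ≤ q * ∑ p ∈ Icc 1 X, ∑ p' ∈ Icc 1 X, wp N q p * wp N q p' * D p p' := by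
  refine (tp_le N X d S η).trans ((bessel q _ S).trans ?_)
  apply mul_le_mul_of_nonneg_left _ (Nat.cast_nonneg _)
  have h1 := var0 (II X) (aa N q (η * d)) (nn q)
  have h2 := dsum_le N q X (η * d) (fun u => if (q : ℤ) ∣ u then 1 else 0) D hD
  have h3 : ∑ t ∈ II X, ∑ t' ∈ II X, (if nn q t = nn q t' then 1 else 0) *
      (aa N q (η * d) t * (starRingEnd ℂ) (aa N q (η * d) t')) =
      ∑ t ∈ II X, ∑ t' ∈ II X, (fun u : ℤ => if (q : ℤ) ∣ u then (1 : ℂ) else 0)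
        ((t.1 : ℤ) * t.2 - t'.1 * t'.2) *
      (aa N q (η * d) t * (starRingEnd ℂ) (aa N q (η * d) t')) := by
    refine Finset.sum_congr rfl fun t _ => Finset.sum_congr rfl fun t' _ => ?_
    have h4 : (nn q t = nn q t') ↔ (q : ℤ) ∣ (t.1 : ℤ) * t.2 - t'.1 * t'.2 := by
      rw [nn, nn, zmod_iff]
      push_cast
      rfl
    simp only [h4]
  rw [h3] at h1
  rw [← h1, Complex.norm_real, Real.norm_of_nonneg (by positivity)] at h2
  exact h2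

end Pool.Agent.Helper34.GV.TP
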