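import Pool.Agent.Helper34.GV.Tp3

/-!
# Sums of type I with primes: the sums of the weights
-/

set_option autoImplicit false

namespace Pool.Agent.Helper34.GV.TP

open Finset
open Pool.Agent.H807R2.Dav (ee norm_ee ee_add ee_zero)

lemma wp_ne {N q p : ℕ} (h : wp N q p ≠ 0) : p.Prime ∧ ZZ N < p ∧ p ≤ YY N ∧ p.Coprime q := by
  unfold wp lp at h
  split_ifs at h with h1 h2
  · exact ⟨h2.1, h2.2.1, h2.2.2, h1⟩
  · exact absurd rfl h
  · exact absurd rfl h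

lemma YY_le_rpow (N : ℕ) : (YY N : ℝ) ≤ (N : ℝ) ^ (499 / 1000 : ℝ) :=
  Nat.floor_le (by positivity)

lemma YY_le (N : ℕ) (hN : 1 ≤ N) : YY N ≤ N := by
  have h1 := YY_le_rpow N
  have h2 : (N : ℝ) ^ (499 / 1000 : ℝ) ≤ (N : ℝ) ^ (1 : ℝ) :=
    Real.rpow_le_rpow_of_exponent_le (by exact_mod_cast hN) (by norm_num)
  rw [Real.rpow_one] at h2
  exact_mod_cast h1.trans h2

lemma wp_le {N q p : ℕ} (hN : 1 ≤ N) : wp N q p ≤ Real.log N := by
  by_cases h : wp N q p = 0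
  · rw [h]; exact Real.log_natCast_nonneg N
  · obtain ⟨h1, h2, h3, h4⟩ := wp_ne h
    rw [wp, if_pos h4, lp, if_pos ⟨h1, h2, h3⟩]
    apply Real.log_le_log (by exact_mod_cast h1.pos)
    exact_mod_cast h3.trans (YY_le N hN)

lemma inv_le {N q p : ℕ} (hN : 1 ≤ N) (h : wp N q p ≠ 0) :
    1 / (p : ℝ) ≤ 1 / (N : ℝ) ^ (1 / 5 : ℝ) := by
  obtain ⟨h1, h2, -, -⟩ := wp_ne h
  have hN' : (0 : ℝ) < N := by exact_mod_cast hN
  apply one_div_le_one_div_of_le (by positivity)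
  have h3 : (N : ℝ) ^ (1 / 5 : ℝ) < ZZ N + 1 := Nat.lt_floor_add_one _
  have h4 : ((ZZ N : ℝ) + 1) ≤ p := by exact_mod_cast h2
  linarith

lemma harm {N X : ℕ} (hX : X ≤ N) (hN : 1 ≤ N) : ∑ p ∈ Icc 1 X, 1 / (p : ℝ) ≤ 1 + Real.log N := by
  have h1 : ∑ p ∈ Icc 1 X, 1 / (p : ℝ) ≤ ∑ p ∈ Icc 1 N, 1 / (p : ℝ) :=
    Finset.sum_le_sum_of_subset_of_nonneg (Finset.Icc_subset_Icc_right hX)
      fun _ _ _ => by positivity
  have h2 := harmonic_le_one_add_log N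
  rw [harmonic_eq_sum_Icc] at h2
  push_cast at h2
  simp only [one_div]
  simp only [one_div] at h1
  exact h1.trans h2

lemma sum1 {N X q : ℕ} (hX : X ≤ N) (hN : 1 ≤ N) :
    ∑ p ∈ Icc 1 X, wp N q p / p ≤ Real.log N * (1 + Real.log N) := by
  calc ∑ p ∈ Icc 1 X, wp N q p / p ≤ ∑ p ∈ Icc 1 X, Real.log N * (1 / (p : ℝ)) := by
        refine Finset.sum_le_sum fun p _ => ?_
        rw [div_eq_mul_one_div]
        exact mul_le_mul_of_nonneg_right (wp_le hN) (by positivity)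
    _ = Real.log N * ∑ p ∈ Icc 1 X, 1 / (p : ℝ) := by rw [Finset.mul_sum]
    _ ≤ _ := mul_le_mul_of_nonneg_left (harm hX hN) (Real.log_natCast_nonneg N)

lemma sum0 {N X q : ℕ} (hN : 1 ≤ N) :
    ∑ p ∈ Icc 1 X, wp N q p ≤ Real.log N * YY N := by
  have h1 : ∑ p ∈ Icc 1 X, wp N q p ≤ ∑ p ∈ Icc 1 X, if p ∈ Icc 1 (YY N) then Real.log N else 0 := by
    refine Finset.sum_le_sum fun p hp => ?_
    by_cases h : wp N q p = 0
    · rw [h]
      split_ifs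
      · exact Real.log_natCast_nonneg N
      · exact le_rfl
    · obtain ⟨h1, h2, h3, h4⟩ := wp_ne h
      rw [if_pos (mem_Icc.2 ⟨h1.one_lt.le, h3⟩)]
      exact wp_le hN
  refine h1.trans ?_
  rw [← Finset.sum_filter, Finset.sum_const, nsmul_eq_mul, mul_comm]
  apply mul_le_mul_of_nonneg_left _ (Real.log_natCast_nonneg N)
  have h2 : (Icc 1 X).filter (fun p => p ∈ Icc 1 (YY N)) ⊆ Icc 1 (YY N) := by
    intro p hp
    exact (mem_filter.1 hp).2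
  have h3 := Finset.card_le_card h2
  rw [Nat.card_Icc, Nat.add_sub_cancel] at h3
  exact_mod_cast h3

/-- the diagonal -/
lemma sum2 {N X q : ℕ} (hX : X ≤ N) (hN : 1 ≤ N) :
    ∑ p ∈ Icc 1 X, wp N q p * wp N q p * ((X / p : ℝ) * (X / p / q + 1)) ≤
      Real.log N ^ 2 * (1 + Real.log N) * ((X : ℝ) ^ 2 / (q * (N : ℝ) ^ (1 / 5 : ℝ)) + X) := by
  have hN' : (0 : ℝ) < N := by exact_mod_cast hN
  have hL := Real.log_natCast_nonneg N
  have h1 : ∀ p ∈ Icc 1 X, wp N q p * wp N q p * ((X / p : ℝ) * (X / p / q + 1)) ≤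
      Real.log N ^ 2 * ((X : ℝ) ^ 2 / (q * (N : ℝ) ^ (1 / 5 : ℝ)) + X) * (1 / (p : ℝ)) := by
    intro p hp
    rw [mem_Icc] at hp
    have hp0 : (0 : ℝ) < p := by exact_mod_cast hp.1
    by_cases h : wp N q p = 0
    · rw [h, zero_mul, zero_mul]
      positivity
    · have h2 := inv_le hN h
      have h3 : wp N q p * wp N q p ≤ Real.log N ^ 2 := by
        rw [sq]
        exact mul_le_mul (wp_le hN) (wp_le hN) (wp_nonneg _ _ _) hL
      have h4 : (X / p : ℝ) * (X / p / q + 1) =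
          ((X : ℝ) ^ 2 / q * (1 / (p : ℝ)) + X) * (1 / (p : ℝ)) := by
        ring
      have h5 : ((X : ℝ) ^ 2 / q * (1 / (p : ℝ)) + X) * (1 / (p : ℝ)) ≤
          ((X : ℝ) ^ 2 / (q * (N : ℝ) ^ (1 / 5 : ℝ)) + X) * (1 / (p : ℝ)) := by
        apply mul_le_mul_of_nonneg_right _ (by positivity)
        have h6 : (X : ℝ) ^ 2 / q * (1 / (p : ℝ)) ≤ (X : ℝ) ^ 2 / q * (1 / (N : ℝ) ^ (1 / 5 : ℝ)) :=
          mul_le_mul_of_nonneg_left h2 (by positivity)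
        have h7 : (X : ℝ) ^ 2 / q * (1 / (N : ℝ) ^ (1 / 5 : ℝ)) =
            (X : ℝ) ^ 2 / (q * (N : ℝ) ^ (1 / 5 : ℝ)) := by
          rw [div_mul_div_comm, mul_one]
        linarith
      rw [h4]
      calc wp N q p * wp N q p * (((X : ℝ) ^ 2 / q * (1 / (p : ℝ)) + X) * (1 / (p : ℝ)))
          ≤ Real.log N ^ 2 * (((X : ℝ) ^ 2 / (q * (N : ℝ) ^ (1 / 5 : ℝ)) + X) * (1 / (p : ℝ))) :=
            mul_le_mul h3 h5 (by positivity) (by positivity)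
        _ = _ := by ring
  refine (Finset.sum_le_sum h1).trans ?_
  rw [← Finset.mul_sum]
  have h2 := mul_le_mul_of_nonneg_left (harm hX hN)
    (show 0 ≤ Real.log N ^ 2 * ((X : ℝ) ^ 2 / (q * (N : ℝ) ^ (1 / 5 : ℝ)) + X) by positivity)
  refine h2.trans (le_of_eq ?_)
  ring

/-- the total with the bounds `Q₁ / (p p') + Q₂` for all pairs and `c (X / p) (X / (p q) + 1)` for equal
primes -/
lemma total {N X q : ℕ} (hX : X ≤ N) (hN : 1 ≤ N) (Q₁ Q₂ c : ℝ) (h1 : 0 ≤ Q₁) (h2 : 0 ≤ Q₂)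
    (hc : 0 ≤ c) :
    ∑ p ∈ Icc 1 X, ∑ p' ∈ Icc 1 X, wp N q p * wp N q p' *
      (((p : ℝ) * p')⁻¹ * Q₁ + Q₂ + if p = p' then c * ((X / p : ℝ) * (X / p / q + 1)) else 0) ≤
      Q₁ * (Real.log N * (1 + Real.log N)) ^ 2 + Q₂ * (Real.log N * YY N) ^ 2 +
        c * (Real.log N ^ 2 * (1 + Real.log N) *
          ((X : ℝ) ^ 2 / (q * (N : ℝ) ^ (1 / 5 : ℝ)) + X)) := by
  have hL := Real.log_natCast_nonneg N
  have e1 : ∑ p ∈ Icc 1 X, ∑ p' ∈ Icc 1 X, wp N q p * wp N q p' *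
      (((p : ℝ) * p')⁻¹ * Q₁ + Q₂ + if p = p' then c * ((X / p : ℝ) * (X / p / q + 1)) else 0) =
      Q₁ * ((∑ p ∈ Icc 1 X, wp N q p / p) * ∑ p ∈ Icc 1 X, wp N q p / p) +
      Q₂ * ((∑ p ∈ Icc 1 X, wp N q p) * ∑ p ∈ Icc 1 X, wp N q p) +
      c * ∑ p ∈ Icc 1 X, wp N q p * wp N q p * ((X / p : ℝ) * (X / p / q + 1)) := by
    rw [Finset.sum_mul_sum, Finset.sum_mul_sum, Finset.mul_sum, Finset.mul_sum, Finset.mul_sum,
      ← Finset.sum_add_distrib, ← Finset.sum_add_distrib]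
    refine Finset.sum_congr rfl fun p hp => ?_
    have e2 : c * (wp N q p * wp N q p * ((X / p : ℝ) * (X / p / q + 1))) =
        ∑ p' ∈ Icc 1 X, if p = p' then c * (wp N q p * wp N q p' * ((X / p : ℝ) * (X / p / q + 1)))
          else 0 := by
      rw [Finset.sum_ite_eq, if_pos hp]
    rw [e2, Finset.mul_sum, Finset.mul_sum, ← Finset.sum_add_distrib, ← Finset.sum_add_distrib]
    refine Finset.sum_congr rfl fun p' _ => ?_
    by_cases h : p = p'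
    · rw [if_pos h, if_pos h, mul_inv]
      ring
    · rw [if_neg h, if_neg h, mul_inv]
      ring
  rw [e1]
  have hs0 : 0 ≤ ∑ p ∈ Icc 1 X, wp N q p := Finset.sum_nonneg fun p _ => wp_nonneg _ _ _
  have hs1 : 0 ≤ ∑ p ∈ Icc 1 X, wp N q p / p :=
    Finset.sum_nonneg fun p _ => div_nonneg (wp_nonneg _ _ _) (Nat.cast_nonneg _)
  have e3 : (∑ p ∈ Icc 1 X, wp N q p / p) * ∑ p ∈ Icc 1 X, wp N q p / p ≤
      (Real.log N * (1 + Real.log N)) ^ 2 := by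
    rw [← sq]
    exact pow_le_pow_left₀ hs1 (sum1 hX hN) 2
  have e4 : (∑ p ∈ Icc 1 X, wp N q p) * ∑ p ∈ Icc 1 X, wp N q p ≤ (Real.log N * YY N) ^ 2 := by
    rw [← sq]
    exact pow_le_pow_left₀ hs0 (sum0 hN) 2
  exact add_le_add (add_le_add (mul_le_mul_of_nonneg_left e3 h1) (mul_le_mul_of_nonneg_left e4 h2))
    (mul_le_mul_of_nonneg_left (sum2 hX hN) hc)

/-- logarithms against powers -/
lemma log_pow_le (K : ℝ) (m : ℕ) (ε : ℝ) (hε : 0 < ε) : ∃ N₀ : ℕ, ∀ N : ℕ, N₀ ≤ N →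
    K * (1 + Real.log N) ^ m ≤ (N : ℝ) ^ ε := by
  set K' : ℝ := |K| + 1 with hK
  have hK0 : 0 < K' := by positivity
  have h1 := isLittleO_log_rpow_rpow_atTop (m : ℝ) hε
  have h2 := h1.bound (show 0 < 1 / (K' * 2 ^ m) by positivity)
  have h3 := (tendsto_natCast_atTop_atTop (R := ℝ)).eventually h2
  obtain ⟨N₁, hN₁⟩ := Filter.eventually_atTop.1 h3
  refine ⟨max N₁ 3, fun N hN => ?_⟩
  have h4 := hN₁ N ((le_max_left _ _).trans hN)
  have hN3 : 3 ≤ N := (le_max_right _ _).trans hN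
  have hN3' : (3 : ℝ) ≤ N := by exact_mod_cast hN3
  have hl : 1 ≤ Real.log N := by
    rw [Real.le_log_iff_exp_le (by linarith)]
    have := Real.exp_one_lt_d9
    linarith
  rw [Real.rpow_natCast, Real.norm_of_nonneg (by positivity), Real.norm_of_nonneg (by positivity)] at h4
  have h5 : (1 + Real.log N) ^ m ≤ 2 ^ m * Real.log N ^ m := by
    rw [← mul_pow]
    exact pow_le_pow_left₀ (by linarith) (by linarith) m
  have h6 : (1 + Real.log N) ^ m ≤ 2 ^ m * (1 / (K' * 2 ^ m) * (N : ℝ) ^ ε) :=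
    h5.trans (mul_le_mul_of_nonneg_left h4 (by positivity))
  have h7 : 2 ^ m * (1 / (K' * 2 ^ m) * (N : ℝ) ^ ε) = (N : ℝ) ^ ε / K' := by
    field_simp
  rw [h7, le_div_iff₀ hK0] at h6
  have h8 : K ≤ K' := by rw [hK]; linarith [le_abs_self K]
  have h9 : K * (1 + Real.log N) ^ m ≤ K' * (1 + Real.log N) ^ m :=
    mul_le_mul_of_nonneg_right h8 (by positivity)
  linarith

end Pool.Agent.Helper34.GV.TP
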