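import Pool.Agent.Helper34.GV.Tp4

/-!
# Sums of type I with primes on the major arcs
-/

set_option autoImplicit false

namespace Pool.Agent.Helper34.GV

open Finset
open Pool.Agent.H807R2.Dav (ee norm_ee ee_add ee_zero)
open Pool.Agent.Y883.GJ
open TP

namespace TP

/-- the kernel is small -/
lemma kernel_norm (q : ℕ) (u : ℤ) (x : ℝ) :
    ‖((if (q : ℤ) ∣ u then 1 else 0) - (q : ℂ)⁻¹) * ee x‖ ≤
      (if (q : ℤ) ∣ u then (1 : ℝ) else 0) + (q : ℝ)⁻¹ := by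
  rw [norm_mul, norm_ee, mul_one]
  refine (norm_sub_le _ _).trans (le_of_eq ?_)
  rw [norm_inv, Complex.norm_natCast]
  congr 1
  split_ifs <;> simp

/-- the bound for a pair of primes -/
lemma pair_maj {N q X : ℕ} (hq : 0 < q) (γ : ℝ) {p p' : ℕ} (h : wp N q p ≠ 0) (h' : wp N q p' ≠ 0) :
    ‖∑ b ∈ Icc 1 (X / p), ∑ b' ∈ Icc 1 (X / p'),
      (fun u : ℤ => ((if (q : ℤ) ∣ u then 1 else 0) - (q : ℂ)⁻¹) * ee (u * γ))
        ((p : ℤ) * b - p' * b')‖ ≤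
      ((p : ℝ) * p')⁻¹ * ((2 * X + 2 * q) * (1 + 7 * |γ| * X)) + (4 * X / q + 1) +
        if p = p' then 2 * ((X / p : ℝ) * (X / p / q + 1)) else 0 := by
  obtain ⟨hp, -, -, hco⟩ := wp_ne h
  obtain ⟨hp', -, -, hco'⟩ := wp_ne h'
  have hq' : (0 : ℝ) < q := by exact_mod_cast hq
  have hp0 : (0 : ℝ) < p := by exact_mod_cast hp.pos
  by_cases hpp : p = p'
  · rw [if_pos hpp]
    subst hpp
    have h1 : ‖∑ b ∈ Icc 1 (X / p), ∑ b' ∈ Icc 1 (X / p),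
        (fun u : ℤ => ((if (q : ℤ) ∣ u then 1 else 0) - (q : ℂ)⁻¹) * ee (u * γ))
          ((p : ℤ) * b - p * b')‖ ≤ ∑ b ∈ Icc 1 (X / p), ∑ b' ∈ Icc 1 (X / p),
        ((if (q : ℤ) ∣ (p : ℤ) * b - p * b' then (1 : ℝ) else 0) + (q : ℝ)⁻¹) := by
      refine (norm_sum_le _ _).trans (Finset.sum_le_sum fun b _ => ?_)
      refine (norm_sum_le _ _).trans (Finset.sum_le_sum fun b' _ => ?_)
      exact kernel_norm q _ _
    have h2 : ∑ b ∈ Icc 1 (X / p), ∑ b' ∈ Icc 1 (X / p),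
        ((if (q : ℤ) ∣ (p : ℤ) * b - p * b' then (1 : ℝ) else 0) + (q : ℝ)⁻¹) =
        (∑ b ∈ Icc 1 (X / p), ∑ b' ∈ Icc 1 (X / p),
          (if (q : ℤ) ∣ (p : ℤ) * b - p * b' then (1 : ℝ) else 0)) +
          ((X / p : ℕ) : ℝ) * (((X / p : ℕ) : ℝ) * (q : ℝ)⁻¹) := by
      simp only [Finset.sum_add_distrib, Finset.sum_const, Nat.card_Icc, Nat.add_sub_cancel,
        nsmul_eq_mul]
    have h3 := same_prime q X p hq hp.pos hco
    have hXp : ((X / p : ℕ) : ℝ) ≤ (X : ℝ) / p := Nat.cast_div_le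
    have h4 : ((X / p : ℕ) : ℝ) * (((X / p : ℕ) : ℝ) * (q : ℝ)⁻¹) ≤
        (X / p : ℝ) * (X / p / q + 1) := by
      have h5 : ((X / p : ℕ) : ℝ) * (q : ℝ)⁻¹ ≤ (X : ℝ) / p / q + 1 := by
        have : ((X / p : ℕ) : ℝ) * (q : ℝ)⁻¹ ≤ (X : ℝ) / p * (q : ℝ)⁻¹ :=
          mul_le_mul_of_nonneg_right hXp (by positivity)
        rw [← div_eq_mul_inv ((X : ℝ) / p)] at this
        linarith
      exact mul_le_mul hXp h5 (by positivity) (by positivity)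
    rw [h2] at h1
    have h5 : 0 ≤ ((p : ℝ) * p)⁻¹ * ((2 * X + 2 * q) * (1 + 7 * |γ| * X)) + (4 * X / q + 1) := by
      positivity
    linarith
  · rw [if_neg hpp, add_zero]
    have hcop : p.Coprime p' := (Nat.coprime_primes hp hp').2 hpp
    have h1 := pair (X := X) hp.pos hp'.pos hcop
      (fun u : ℤ => ((if (q : ℤ) ∣ u then 1 else 0) - (q : ℂ)⁻¹) * ee (u * γ))
    have h2 := main_term q X hq γ
    have h3 : ∑ u ∈ Ioo (-(X : ℤ)) X,
        ‖(fun u : ℤ => ((if (q : ℤ) ∣ u then 1 else 0) - (q : ℂ)⁻¹) * ee (u * γ)) u‖ ≤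
        4 * X / q + 1 := by
      have h4 : ∑ u ∈ Ioo (-(X : ℤ)) X,
          ‖(fun u : ℤ => ((if (q : ℤ) ∣ u then 1 else 0) - (q : ℂ)⁻¹) * ee (u * γ)) u‖ ≤
          ∑ u ∈ Ioo (-(X : ℤ)) X, ((if (q : ℤ) ∣ u then (1 : ℝ) else 0) + (q : ℝ)⁻¹) :=
        Finset.sum_le_sum fun u _ => kernel_norm q u _
      refine h4.trans ?_
      rw [Finset.sum_add_distrib, ← Finset.sum_filter, Finset.sum_const, Finset.sum_const,
        nsmul_eq_mul, nsmul_eq_mul, mul_one]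
      have h5 := card_mult q X hq
      have h6 : ((Ioo (-(X : ℤ)) X).card : ℝ) ≤ 2 * X := by
        rw [Int.card_Ioo]
        have : ((X : ℤ) - -(X : ℤ) - 1).toNat ≤ 2 * X := by omega
        exact_mod_cast this
      have h7 : ((Ioo (-(X : ℤ)) X).card : ℝ) * (q : ℝ)⁻¹ ≤ 2 * X / q := by
        rw [div_eq_mul_inv]
        exact mul_le_mul_of_nonneg_right h6 (by positivity)
      have h8 : 4 * (X : ℝ) / q = 2 * X / q + 2 * X / q := by ring
      linarith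
    refine h1.trans (add_le_add (mul_le_mul_of_nonneg_left h2 (by positivity)) h3)

end TP

theorem tpMaj : TpMajStm := by
  intro C ρ hρ
  obtain ⟨N₀, hN₀⟩ := log_pow_le 43 (C + 4) (4 / 10000) (by norm_num)
  refine ⟨max N₀ 1, ?_⟩
  intro N hN q _ hq S hS η hη d y hd hy
  have hN1 : 1 ≤ N := (le_max_right _ _).trans hN
  have hlog := hN₀ N ((le_max_left _ _).trans hN)
  have hN1' : (1 : ℝ) ≤ N := by exact_mod_cast hN1
  have hN0 : (0 : ℝ) < N := by linarith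
  have hq0 : 0 < q := Nat.pos_of_ne_zero (NeZero.ne q)
  have hq0' : (0 : ℝ) < q := by exact_mod_cast hq0
  set X : ℕ := y / d with hX
  have hXN : X ≤ N := (Nat.div_le_self y d).trans hy
  have hXN' : (X : ℝ) ≤ N := by exact_mod_cast hXN
  have hX0 : (0 : ℝ) ≤ X := Nat.cast_nonneg X
  set L := Real.log N with hL
  have hL0 : 0 ≤ L := Real.log_natCast_nonneg N
  have hqN : (q : ℝ) ≤ (N : ℝ) ^ (4 / 5 : ℝ) :=
    hq.trans (Real.rpow_le_rpow_of_exponent_le hN1' (by linarith))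
  have hqN1 : (q : ℝ) ≤ N := by
    refine hqN.trans ?_
    have := Real.rpow_le_rpow_of_exponent_le hN1' (show (4 / 5 : ℝ) ≤ 1 by norm_num)
    rwa [Real.rpow_one] at this
  -- the frequency
  have hγ : |η * d| * X ≤ L ^ C := by
    rw [abs_mul, Nat.abs_cast]
    have h1 : (d : ℝ) * X ≤ N := by
      have : d * X ≤ N := (Nat.mul_div_le y d).trans hy
      exact_mod_cast this
    calc |η| * d * X = |η| * (d * X) := by ring
      _ ≤ (L ^ C / N) * N := mul_le_mul hη h1 (by positivity) (by positivity)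
      _ = L ^ C := by field_simp
  set Q₁ : ℝ := (2 * X + 2 * q) * (1 + 7 * |η * d| * X) with hQ₁
  set Q₂ : ℝ := 4 * X / q + 1 with hQ₂
  have hQ₁0 : 0 ≤ Q₁ := by positivity
  have hQ₂0 : 0 ≤ Q₂ := by positivity
  have h1 := tp_maj N X d S hS η (fun p p' => ((p : ℝ) * p')⁻¹ * Q₁ + Q₂ +
    if p = p' then 2 * ((X / p : ℝ) * (X / p / q + 1)) else 0)
    (fun p _ p' _ h h' => pair_maj hq0 (η * d) h h')
  have h2 := total (q := q) hXN hN1 Q₁ Q₂ 2 hQ₁0 hQ₂0 (by norm_num)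
  have h3 := h1.trans (mul_le_mul_of_nonneg_left h2 hq0'.le)
  -- powers of `N`
  have e95 : (N : ℝ) ^ (4 / 5 : ℝ) * N = (N : ℝ) ^ (9 / 5 : ℝ) := by
    nth_rewrite 2 [← Real.rpow_one (N : ℝ)]
    rw [← Real.rpow_add hN0]
    norm_num
  have e15 : (N : ℝ) ^ (9 / 5 : ℝ) * (N : ℝ) ^ (1 / 5 : ℝ) = (N : ℝ) ^ 2 := by
    rw [← Real.rpow_add hN0, ← Real.rpow_natCast]
    norm_num
  have hN15 : 0 < (N : ℝ) ^ (1 / 5 : ℝ) := by positivity
  have hN95 : 0 < (N : ℝ) ^ (9 / 5 : ℝ) := by positivity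
  have eY : (YY N : ℝ) ^ 2 * N ≤ (N : ℝ) ^ (1998 / 1000 : ℝ) := by
    have h4 := pow_le_pow_left₀ (Nat.cast_nonneg _) (TP.YY_le_rpow N) 2
    have h5 : ((N : ℝ) ^ (499 / 1000 : ℝ)) ^ 2 * N = (N : ℝ) ^ (1998 / 1000 : ℝ) := by
      rw [← Real.rpow_natCast, ← Real.rpow_mul hN0.le]
      nth_rewrite 2 [← Real.rpow_one (N : ℝ)]
      rw [← Real.rpow_add hN0]
      norm_num
    rw [← h5]
    exact mul_le_mul_of_nonneg_right h4 hN0.le
  have h9519 : (N : ℝ) ^ (9 / 5 : ℝ) ≤ (N : ℝ) ^ (1998 / 1000 : ℝ) :=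
    Real.rpow_le_rpow_of_exponent_le hN1' (by norm_num)
  set M : ℝ := (N : ℝ) ^ (1998 / 1000 : ℝ) with hM
  have hM0 : 0 < M := by positivity
  set R : ℝ := 1 + L with hR
  have hR1 : 1 ≤ R := by linarith
  have hLR : L ≤ R := by linarith
  -- the three parts
  have p1 : q * (Q₁ * (L * (1 + L)) ^ 2) ≤ 32 * M * R ^ (C + 4) := by
    have h4 : Q₁ ≤ 4 * N * (8 * R ^ C) := by
      have h5 : 1 + 7 * |η * d| * X ≤ 8 * R ^ C := by
        have h6 : L ^ C ≤ R ^ C := pow_le_pow_left₀ hL0 hLR C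
        have h7 : (1 : ℝ) ≤ R ^ C := one_le_pow₀ hR1
        have h8 : 7 * |η * d| * X = 7 * (|η * d| * X) := by ring
        rw [h8]
        linarith
      exact mul_le_mul (by linarith) h5 (by positivity) (by positivity)
    have h5 : (L * (1 + L)) ^ 2 ≤ R ^ 4 := by
      have h6 : L * (1 + L) ≤ R ^ 2 := by rw [sq]; exact mul_le_mul_of_nonneg_right hLR (by linarith)
      calc (L * (1 + L)) ^ 2 ≤ (R ^ 2) ^ 2 := pow_le_pow_left₀ (by positivity) h6 2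
        _ = R ^ 4 := by ring
    calc q * (Q₁ * (L * (1 + L)) ^ 2) ≤ (N : ℝ) ^ (4 / 5 : ℝ) * (4 * N * (8 * R ^ C) * R ^ 4) := by
          apply mul_le_mul hqN _ (by positivity) (by positivity)
          exact mul_le_mul h4 h5 (by positivity) (by positivity)
      _ = 32 * ((N : ℝ) ^ (4 / 5 : ℝ) * N) * R ^ (C + 4) := by rw [pow_add]; ring
      _ = 32 * (N : ℝ) ^ (9 / 5 : ℝ) * R ^ (C + 4) := by rw [e95]
      _ ≤ 32 * M * R ^ (C + 4) := by
          apply mul_le_mul_of_nonneg_right _ (by positivity)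
          linarith
  have hR2 : R ^ 2 ≤ R ^ (C + 4) := pow_le_pow_right₀ hR1 (by omega)
  have hR3 : R ^ 3 ≤ R ^ (C + 4) := pow_le_pow_right₀ hR1 (by omega)
  have p2 : q * (Q₂ * (L * YY N) ^ 2) ≤ 5 * M * R ^ (C + 4) := by
    have h4 : q * Q₂ = 4 * X + q := by rw [hQ₂]; field_simp
    have h5 : L ^ 2 ≤ R ^ 2 := pow_le_pow_left₀ hL0 hLR 2
    calc q * (Q₂ * (L * YY N) ^ 2) = (q * Q₂) * (L ^ 2 * (YY N : ℝ) ^ 2) := by ring
      _ = (4 * X + q) * (L ^ 2 * (YY N : ℝ) ^ 2) := by rw [h4]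
      _ ≤ (5 * N) * (L ^ 2 * (YY N : ℝ) ^ 2) :=
          mul_le_mul_of_nonneg_right (by linarith) (by positivity)
      _ = 5 * L ^ 2 * ((YY N : ℝ) ^ 2 * N) := by ring
      _ ≤ 5 * L ^ 2 * M := mul_le_mul_of_nonneg_left eY (by positivity)
      _ ≤ 5 * R ^ (C + 4) * M := by
          apply mul_le_mul_of_nonneg_right _ hM0.le
          linarith
      _ = _ := by ring
  have p3 : q * (2 * (L ^ 2 * (1 + L) * ((X : ℝ) ^ 2 / (q * (N : ℝ) ^ (1 / 5 : ℝ)) + X))) ≤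
      4 * M * R ^ (C + 4) := by
    have h4 : q * ((X : ℝ) ^ 2 / (q * (N : ℝ) ^ (1 / 5 : ℝ)) + X) =
        (X : ℝ) ^ 2 / (N : ℝ) ^ (1 / 5 : ℝ) + q * X := by
      field_simp
    have h5 : (X : ℝ) ^ 2 / (N : ℝ) ^ (1 / 5 : ℝ) ≤ (N : ℝ) ^ (9 / 5 : ℝ) := by
      rw [div_le_iff₀ hN15, e15]
      exact pow_le_pow_left₀ hX0 hXN' 2
    have h6 : (q : ℝ) * X ≤ (N : ℝ) ^ (9 / 5 : ℝ) := by
      rw [← e95]
      exact mul_le_mul hqN hXN' hX0 (by positivity)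
    have h7 : L ^ 2 * (1 + L) ≤ R ^ 3 := by
      have h8 : L ^ 2 ≤ R ^ 2 := pow_le_pow_left₀ hL0 hLR 2
      calc L ^ 2 * (1 + L) ≤ R ^ 2 * R := mul_le_mul_of_nonneg_right h8 (by linarith)
        _ = R ^ 3 := by ring
    calc q * (2 * (L ^ 2 * (1 + L) * ((X : ℝ) ^ 2 / (q * (N : ℝ) ^ (1 / 5 : ℝ)) + X)))
        = 2 * (L ^ 2 * (1 + L)) * (q * ((X : ℝ) ^ 2 / (q * (N : ℝ) ^ (1 / 5 : ℝ)) + X)) := by ring
      _ = 2 * (L ^ 2 * (1 + L)) * ((X : ℝ) ^ 2 / (N : ℝ) ^ (1 / 5 : ℝ) + q * X) := by rw [h4]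
      _ ≤ 2 * R ^ 3 * (2 * M) := by
          apply mul_le_mul _ _ (by positivity) (by positivity)
          · linarith
          · linarith
      _ ≤ 2 * R ^ (C + 4) * (2 * M) := by
          apply mul_le_mul_of_nonneg_right _ (by positivity)
          linarith
      _ = _ := by ring
  have h4 : ‖tp N X d (ev S η)‖ ^ 2 ≤ 43 * R ^ (C + 4) * M := by
    refine h3.trans ?_
    rw [mul_add, mul_add]
    have : 0 < M * R ^ (C + 4) := by positivity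
    linarith
  have h5 : ‖tp N X d (ev S η)‖ ^ 2 ≤ ((N : ℝ) ^ (9992 / 10000 : ℝ)) ^ 2 := by
    refine h4.trans ((mul_le_mul_of_nonneg_right hlog hM0.le).trans (le_of_eq ?_))
    rw [hM, ← Real.rpow_add hN0, ← Real.rpow_natCast, ← Real.rpow_mul hN0.le]
    norm_num
  exact le_of_pow_le_pow_left₀ two_ne_zero (by positivity) h5

end Pool.Agent.Helper34.GV
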