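import Pool.Agent.Helper34.GV.Pairs
import Pool.Graph.R_seed8.Y412.GJ.TiMinA

/-!
# Project GV: mean square over the classes of the sums `∑ w(p) e(p b g)`
-/

set_option autoImplicit false

namespace Pool.Agent.Helper34.GV

open Finset
open Pool.Agent.H807R2.Dav
open Pool.Agent.Y412.GJ (prog_bound)

/-- the double sum for two primes -/
noncomputable def PP (q X : ℕ) (g : ℝ) (p p2 : ℕ) : ℂ :=
  ∑ b ∈ Icc 1 (X / p), ∑ c ∈ Icc 1 (X / p2),
    (if ((p * b : ℕ) : ZMod q) = ((p2 * c : ℕ) : ZMod q) then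
      ee ((p * b : ℕ) * g) * (starRingEnd ℂ) (ee ((p2 * c : ℕ) * g)) else 0)

lemma card_class (q y : ℕ) [NeZero q] (l : ZMod q) :
    ((((Icc 1 y).filter (fun b : ℕ => (b : ZMod q) = l)).card : ℕ) : ℝ) ≤ 3 * ((y : ℝ) / q + 1) := by
  have h1 := prog_bound q y l 0 ((y : ℝ) / q + 1) le_rfl
  have h2 := KK_le (M := (y : ℝ) / q + 1) (by positivity) (q * (0 : ℝ))
  have h3 : ∑ b ∈ (Icc 1 y).filter (fun b : ℕ => (b : ZMod q) = l), ee (b * (0 : ℝ)) =
      ((((Icc 1 y).filter (fun b : ℕ => (b : ZMod q) = l)).card : ℕ) : ℂ) := by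
    simp [ee_zero]
  rw [h3, Complex.norm_natCast] at h1
  exact h1.trans h2

lemma PP_diag (q : ℕ) [NeZero q] (X : ℕ) (g : ℝ) (p : ℕ) (hp : p.Prime) (hpq : ¬ p ∣ q) :
    ‖PP q X g p p‖ ≤ 3 * ((X : ℝ) / p * ((X : ℝ) / p / q + 1)) := by
  have hu : IsUnit ((p : ℕ) : ZMod q) := by
    rw [ZMod.isUnit_iff_coprime]
    exact (Nat.Prime.coprime_iff_not_dvd hp).mpr hpq
  have hX : ((X / p : ℕ) : ℝ) ≤ (X : ℝ) / p := Nat.cast_div_le
  have hX0 : (0 : ℝ) ≤ ((X / p : ℕ) : ℝ) := Nat.cast_nonneg _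
  unfold PP
  have h1 : ∀ b ∈ Icc 1 (X / p), ‖∑ c ∈ Icc 1 (X / p),
      (if ((p * b : ℕ) : ZMod q) = ((p * c : ℕ) : ZMod q) then
        ee ((p * b : ℕ) * g) * (starRingEnd ℂ) (ee ((p * c : ℕ) * g)) else 0)‖ ≤
      3 * (((X / p : ℕ) : ℝ) / q + 1) := by
    intro b _
    refine le_trans ?_ (card_class q (X / p) (b : ZMod q))
    rw [← Finset.sum_filter]
    have h2 : (Icc 1 (X / p)).filter (fun c : ℕ => ((p * b : ℕ) : ZMod q) = ((p * c : ℕ) : ZMod q)) =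
        (Icc 1 (X / p)).filter (fun c : ℕ => (c : ZMod q) = (b : ZMod q)) := by
      refine filter_congr fun c _ => ?_
      rw [Nat.cast_mul, Nat.cast_mul, hu.mul_right_inj]
      exact eq_comm
    rw [h2]
    refine (norm_sum_le_of_le (n := fun _ => (1 : ℝ)) _ ?_).trans ?_
    · intro c _
      rw [norm_mul, norm_ee, RCLike.norm_conj, norm_ee, mul_one]
    · rw [sum_const, nsmul_eq_mul, mul_one]
  refine (norm_sum_le_of_le _ h1).trans ?_
  rw [sum_const, Nat.card_Icc, nsmul_eq_mul, Nat.add_sub_cancel]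
  have h3 : ((X / p : ℕ) : ℝ) / q ≤ (X : ℝ) / p / q :=
    div_le_div_of_nonneg_right hX (Nat.cast_nonneg _)
  have h4 : (0 : ℝ) ≤ ((X / p : ℕ) : ℝ) / q := by positivity
  calc ((X / p : ℕ) : ℝ) * (3 * (((X / p : ℕ) : ℝ) / q + 1))
      ≤ (X : ℝ) / p * (3 * ((X : ℝ) / p / q + 1)) := by gcongr
    _ = _ := by ring

/-- the value of the Fejér kernel -/
noncomputable def FF (q X : ℕ) [NeZero q] (g : ℝ) : ℝ :=
  ∑ l : ZMod q, ‖∑ b ∈ (Icc 1 X).filter (fun b : ℕ => (b : ZMod q) = l), ee (b * g)‖ ^ 2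

lemma FF_nonneg (q X : ℕ) [NeZero q] (g : ℝ) : 0 ≤ FF q X g := by
  unfold FF
  positivity

lemma FF_le (q X : ℕ) [NeZero q] (g K : ℝ) (hK : (X : ℝ) / q + 1 ≤ K) :
    FF q X g ≤ q * KK K (q * g) ^ 2 := by
  unfold FF
  refine (sum_le_sum fun l _ => pow_le_pow_left₀ (norm_nonneg _) (prog_bound q X l g K hK) 2).trans ?_
  rw [sum_const, card_univ, ZMod.card, nsmul_eq_mul]

lemma PP_off (q : ℕ) [NeZero q] (X : ℕ) (g : ℝ) (p p2 : ℕ) (hp : p.Prime) (hp2 : p2.Prime)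
    (hne : p ≠ p2) : ‖PP q X g p p2‖ ≤ FF q X g / (p * p2) + (2 * X / q + 1) := by
  have h1 := pairs q X p p2 hp hp2 hne g
  rw [fejer q X g] at h1
  change ‖PP q X g p p2 - ((p : ℂ) * p2)⁻¹ * ((FF q X g : ℝ) : ℂ)‖ ≤ _ at h1
  have h2 : ‖((p : ℂ) * p2)⁻¹ * ((FF q X g : ℝ) : ℂ)‖ = FF q X g / (p * p2) := by
    rw [norm_mul, norm_inv, norm_mul, Complex.norm_natCast, Complex.norm_natCast, Complex.norm_real,
      Real.norm_of_nonneg (FF_nonneg q X g)]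
    rw [div_eq_inv_mul]
  have h3 := norm_add_le (PP q X g p p2 - ((p : ℂ) * p2)⁻¹ * ((FF q X g : ℝ) : ℂ))
    (((p : ℂ) * p2)⁻¹ * ((FF q X g : ℝ) : ℂ))
  rw [sub_add_cancel, h2] at h3
  linarith

/-- mean square over the classes -/
theorem classes (q : ℕ) [NeZero q] (X : ℕ) (w : ℕ → ℝ) (hw0 : ∀ p, 0 ≤ w p)
    (hwp : ∀ p, w p ≠ 0 → p.Prime ∧ ¬ p ∣ q) (g : ℝ) :
    ∑ l : ZMod q, ‖∑ p ∈ Icc 1 X, ∑ b ∈ Icc 1 (X / p),
        (if ((p * b : ℕ) : ZMod q) = l then (w p : ℂ) * ee ((p * b : ℕ) * g) else 0)‖ ^ 2 ≤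
      (∑ p ∈ Icc 1 X, w p / p) ^ 2 * FF q X g +
      (∑ p ∈ Icc 1 X, w p) ^ 2 * (2 * X / q + 1) +
      3 * ∑ p ∈ Icc 1 X, w p ^ 2 * ((X : ℝ) / p * ((X : ℝ) / p / q + 1)) := by
  classical
  set I := (Icc 1 X).sigma (fun p => Icc 1 (X / p)) with hI
  set z : (Σ _ : ℕ, ℕ) → ℂ := fun i => (w i.1 : ℂ) * ee ((i.1 * i.2 : ℕ) * g) with hz
  set cls : (Σ _ : ℕ, ℕ) → ZMod q := fun i => ((i.1 * i.2 : ℕ) : ZMod q) with hcls
  set LHS := ∑ l : ZMod q, ‖∑ p ∈ Icc 1 X, ∑ b ∈ Icc 1 (X / p),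
        (if ((p * b : ℕ) : ZMod q) = l then (w p : ℂ) * ee ((p * b : ℕ) * g) else 0)‖ ^ 2 with hL
  have h1 : LHS = ∑ l : ZMod q, ‖∑ i ∈ I, (if cls i = l then z i else 0)‖ ^ 2 := by
    rw [hL]
    refine sum_congr rfl fun l _ => ?_
    rw [hI, Finset.sum_sigma]
  have h2 : ((LHS : ℝ) : ℂ) = ∑ p ∈ Icc 1 X, ∑ p2 ∈ Icc 1 X, ((w p * w p2 : ℝ) : ℂ) * PP q X g p p2 := by
    rw [h1, sqexp, hI, Finset.sum_sigma]
    refine sum_congr rfl fun p _ => ?_
    have h3 : ∀ b, (∑ j ∈ (Icc 1 X).sigma (fun p => Icc 1 (X / p)),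
        (if cls ⟨p, b⟩ = cls j then z ⟨p, b⟩ * (starRingEnd ℂ) (z j) else 0)) =
        ∑ p2 ∈ Icc 1 X, ∑ c ∈ Icc 1 (X / p2),
          (if ((p * b : ℕ) : ZMod q) = ((p2 * c : ℕ) : ZMod q) then
            z ⟨p, b⟩ * (starRingEnd ℂ) (z ⟨p2, c⟩) else 0) := by
      intro b
      rw [Finset.sum_sigma]
    rw [sum_congr rfl fun b _ => h3 b, sum_comm]
    refine sum_congr rfl fun p2 _ => ?_
    unfold PP
    rw [mul_sum]
    refine sum_congr rfl fun b _ => ?_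
    rw [mul_sum]
    refine sum_congr rfl fun c _ => ?_
    rw [hz]
    simp only
    split_ifs
    · rw [map_mul, Complex.conj_ofReal]
      push_cast
      ring
    · rw [mul_zero]
  have hLn : LHS = ‖((LHS : ℝ) : ℂ)‖ := by
    rw [Complex.norm_real, Real.norm_of_nonneg]
    rw [hL]
    positivity
  have hX1 : (0 : ℝ) ≤ 2 * X / q + 1 := by positivity
  have h4 : ∀ p ∈ Icc 1 X, ∀ p2 ∈ Icc 1 X, ‖((w p * w p2 : ℝ) : ℂ) * PP q X g p p2‖ ≤
      (w p / p) * (w p2 / p2) * FF q X g + w p * w p2 * (2 * X / q + 1) +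
        (if p = p2 then 3 * (w p ^ 2 * ((X : ℝ) / p * ((X : ℝ) / p / q + 1))) else 0) := by
    intro p _ p2 _
    have hww : 0 ≤ w p * w p2 := mul_nonneg (hw0 p) (hw0 p2)
    rw [norm_mul, Complex.norm_real, Real.norm_of_nonneg hww]
    have hF := FF_nonneg q X g
    have hA : 0 ≤ (w p / p) * (w p2 / p2) * FF q X g :=
      mul_nonneg (mul_nonneg (div_nonneg (hw0 p) (Nat.cast_nonneg _))
        (div_nonneg (hw0 p2) (Nat.cast_nonneg _))) hF
    have hB : 0 ≤ w p * w p2 * (2 * X / q + 1) := mul_nonneg hww hX1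
    have hC : 0 ≤ w p ^ 2 * ((X : ℝ) / p * ((X : ℝ) / p / q + 1)) := by positivity
    by_cases h0 : w p * w p2 = 0
    · rw [h0, zero_mul]
      split_ifs
      · positivity
      · rw [h0] at hB
        linarith
    · have hwp1 : w p ≠ 0 := left_ne_zero_of_mul h0
      have hwp2 : w p2 ≠ 0 := right_ne_zero_of_mul h0
      obtain ⟨hp, hpq⟩ := hwp p hwp1
      obtain ⟨hp2, _⟩ := hwp p2 hwp2
      by_cases he : p = p2
      · subst he
        rw [if_pos rfl]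
        have h5 := mul_le_mul_of_nonneg_left (PP_diag q X g p hp hpq) hww
        have h6 : w p * w p * (3 * ((X : ℝ) / p * ((X : ℝ) / p / q + 1))) =
          3 * (w p ^ 2 * ((X : ℝ) / p * ((X : ℝ) / p / q + 1))) := by ring
        linarith
      · rw [if_neg he]
        have h5 := mul_le_mul_of_nonneg_left (PP_off q X g p p2 hp hp2 he) hww
        have h6 : w p * w p2 * (FF q X g / (p * p2) + (2 * X / q + 1)) =
          (w p / p) * (w p2 / p2) * FF q X g + w p * w p2 * (2 * X / q + 1) := by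
          rw [mul_add]
          congr 1
          rw [div_mul_div_comm, mul_div_assoc', div_mul_eq_mul_div]
        linarith
  rw [hLn, h2]
  refine (norm_sum_le _ _).trans ?_
  refine (sum_le_sum fun p hp => (norm_sum_le _ _).trans (sum_le_sum fun p2 hp2 => h4 p hp p2 hp2)).trans ?_
  simp only [sum_add_distrib]
  refine add_le_add (add_le_add (le_of_eq ?_) (le_of_eq ?_)) (le_of_eq ?_)
  · rw [pow_two, Finset.sum_mul_sum, Finset.sum_mul]
    refine sum_congr rfl fun p _ => ?_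
    rw [Finset.sum_mul]
  · rw [pow_two, Finset.sum_mul_sum, Finset.sum_mul]
    refine sum_congr rfl fun p _ => ?_
    rw [Finset.sum_mul]
  · rw [mul_sum]
    refine sum_congr rfl fun p hp => ?_
    rw [Finset.sum_ite_eq, if_pos hp]

end Pool.Agent.Helper34.GV
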