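import Pool.Agent.Helper34.GV.Stm
import Pool.Agent.Helper34.GV.TpbA
import Pool.Graph.R_seed8.Y412.GJ.TiMin
import Pool.Graph.R_seed8.Y883.T3.Vin

/-!
# Project GV: sums of type I with the primes up to `N ^ (499 / 1000)`, minor arcs
-/

set_option autoImplicit false

namespace Pool.Agent.Helper34.GV

open Finset
open Pool.Agent.H807R2.Dav
open Pool.Agent.Y412.GJ (planch)
open Pool.Agent.Y883.GJ (ev)
open Pool.Agent.Y883.T3 (ev_log_rpow)

/-- the weights of the primes which do not divide `q` -/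
noncomputable def wq (N q p : ℕ) : ℝ := if p ∣ q then 0 else lp N p

lemma lp_nonneg (N p : ℕ) : 0 ≤ lp N p := by
  unfold lp
  split_ifs with h
  · exact Real.log_nonneg (by exact_mod_cast h.1.one_lt.le)
  · exact le_rfl

lemma wq_nonneg (N q p : ℕ) : 0 ≤ wq N q p := by
  unfold wq
  split_ifs
  · exact le_rfl
  · exact lp_nonneg N p

lemma wq_prime (N q p : ℕ) (h : wq N q p ≠ 0) :
    p.Prime ∧ ¬ p ∣ q ∧ ZZ N < p ∧ p ≤ YY N := by
  unfold wq lp at h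
  split_ifs at h with h1 h2
  · exact absurd rfl h
  · exact ⟨h2.1, h1, h2.2.1, h2.2.2⟩
  · exact absurd rfl h

lemma YY_le_self {N : ℕ} (hN : 1 ≤ N) : YY N ≤ N := by
  have h1 : (1 : ℝ) ≤ N := by exact_mod_cast hN
  have h2 : ((YY N : ℕ) : ℝ) ≤ (N : ℝ) ^ (499 / 1000 : ℝ) := Nat.floor_le (by positivity)
  have h3 : (N : ℝ) ^ (499 / 1000 : ℝ) ≤ (N : ℝ) ^ (1 : ℝ) :=
    Real.rpow_le_rpow_of_exponent_le h1 (by norm_num)
  rw [Real.rpow_one] at h3
  exact_mod_cast h2.trans h3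

lemma wq_le (N q p : ℕ) (hN : 1 ≤ N) : wq N q p ≤ Real.log N := by
  have h1 : (1 : ℝ) ≤ N := by exact_mod_cast hN
  have h0 : 0 ≤ Real.log N := Real.log_nonneg h1
  unfold wq lp
  split_ifs with h h2
  · exact h0
  · refine Real.log_le_log (by exact_mod_cast h2.1.pos) ?_
    exact_mod_cast h2.2.2.trans (YY_le_self hN)
  · exact h0

lemma sum_inv_Icc (X : ℕ) : ∑ p ∈ Icc 1 X, 1 / (p : ℝ) ≤ 1 + Real.log X := by
  have h := harmonic_le_one_add_log X
  rw [harmonic_eq_sum_Icc] at h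
  push_cast at h
  simpa [one_div] using h

/-- the vector in terms of the sums over the classes -/
theorem tp_norm (N X d q : ℕ) [NeZero q] (β : ℝ) :
    ‖tp N X d (ev (univ : Finset (DirichletCharacter ℂ q)) β)‖ ^ 2 ≤
      q * ∑ l : ZMod q, ‖∑ p ∈ Icc 1 X, ∑ b ∈ Icc 1 (X / p),
        (if ((p * b : ℕ) : ZMod q) = l then (wq N q p : ℂ) * ee ((p * b : ℕ) * (d * β)) else 0)‖ ^ 2 := by
  classical
  set C : ZMod q → ℂ := fun l => ∑ p ∈ Icc 1 X, ∑ b ∈ Icc 1 (X / p),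
    (if ((p * b : ℕ) : ZMod q) = l then (wq N q p : ℂ) * ee ((p * b : ℕ) * (d * β)) else 0) with hC
  have h1 : ∀ χ : DirichletCharacter ℂ q,
      (tp N X d (ev (univ : Finset (DirichletCharacter ℂ q)) β)) χ = χ (d : ZMod q) * ∑ a, χ a * C a := by
    intro χ
    have h2 : (tp N X d (ev (univ : Finset (DirichletCharacter ℂ q)) β)) χ =
        ∑ p ∈ Icc 1 X, ((lp N p : ℝ) : ℂ) * ∑ b ∈ Icc 1 (X / p),
          (χ ((p * b * d : ℕ) : ZMod q) * ee ((p * b * d : ℕ) * β)) := by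
      unfold tp
      rw [WithLp.ofLp_sum, Finset.sum_apply]
      refine sum_congr rfl fun p _ => ?_
      rw [WithLp.ofLp_smul, Pi.smul_apply, smul_eq_mul, WithLp.ofLp_sum, Finset.sum_apply]
      congr 1
      refine sum_congr rfl fun b _ => ?_
      unfold ev
      simp only [mem_univ, if_true]
    have h3 : ∑ a, χ a * C a = ∑ p ∈ Icc 1 X, ∑ b ∈ Icc 1 (X / p),
        (χ ((p * b : ℕ) : ZMod q) * ((wq N q p : ℂ) * ee ((p * b : ℕ) * (d * β)))) := by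
      rw [hC]
      simp_rw [mul_sum]
      rw [sum_comm]
      refine sum_congr rfl fun p _ => ?_
      rw [sum_comm]
      refine sum_congr rfl fun b _ => ?_
      rw [Finset.sum_eq_single ((p * b : ℕ) : ZMod q)]
      · rw [if_pos rfl]
      · intro l _ hl
        rw [if_neg (Ne.symm hl), mul_zero]
      · intro h
        exact absurd (mem_univ _) h
    rw [h2, h3, mul_sum]
    refine sum_congr rfl fun p hp => ?_
    rw [mul_sum, mul_sum]
    refine sum_congr rfl fun b _ => ?_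
    have h4 : ((p * b * d : ℕ) : ℝ) * β = ((p * b : ℕ) : ℝ) * (d * β) := by push_cast; ring
    rw [h4, Nat.cast_mul (p * b) d, map_mul]
    by_cases hpq : p ∣ q
    · by_cases hp1 : p = 1
      · subst hp1
        have h5 : lp N 1 = 0 := by
          unfold lp
          rw [if_neg (fun h => Nat.not_prime_one h.1)]
        have h6 : wq N q 1 = 0 := by
          unfold wq
          rw [if_pos hpq]
        rw [h5, h6]
        simp
      · have h5 : χ ((p * b : ℕ) : ZMod q) = 0 := by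
          rw [Nat.cast_mul, map_mul]
          have h6 : ¬ IsUnit ((p : ℕ) : ZMod q) := by
            rw [ZMod.isUnit_iff_coprime]
            intro h7
            exact hp1 (Nat.eq_one_of_dvd_coprimes h7 dvd_rfl hpq)
          rw [MulChar.map_nonunit χ h6, zero_mul]
        rw [h5]
        simp
    · have h6 : wq N q p = lp N p := by
        unfold wq
        rw [if_neg hpq]
      rw [h6]
      ring
  rw [EuclideanSpace.norm_sq_eq]
  have h2 : ∀ χ : DirichletCharacter ℂ q,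
      ‖(tp N X d (ev (univ : Finset (DirichletCharacter ℂ q)) β)) χ‖ ^ 2 ≤ ‖∑ a, χ a * C a‖ ^ 2 := by
    intro χ
    rw [h1, norm_mul]
    have h5 : ‖χ (d : ZMod q)‖ ≤ 1 := DirichletCharacter.norm_le_one χ _
    have h6 : ‖χ (d : ZMod q)‖ * ‖∑ a, χ a * C a‖ ≤ ‖∑ a, χ a * C a‖ :=
      mul_le_of_le_one_left (norm_nonneg _) h5
    exact pow_le_pow_left₀ (by positivity) h6 2
  refine (sum_le_sum fun χ _ => h2 χ).trans ((planch q C).trans ?_)
  have h4 : (q.totient : ℝ) ≤ q := by exact_mod_cast Nat.totient_le q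
  exact mul_le_mul_of_nonneg_right h4 (by positivity)

/-- the estimate of one vector -/
theorem tp_bound (N X d q : ℕ) [NeZero q] (β K : ℝ) (hN : 1 ≤ N) (hX : X ≤ N)
    (hq : (q : ℝ) ≤ (N : ℝ) ^ (4 / 5 : ℝ)) (hK : (X : ℝ) / q + 1 ≤ K) :
    ‖tp N X d (ev (univ : Finset (DirichletCharacter ℂ q)) β)‖ ≤
      q * (1 + Real.log N) ^ 2 * KK K (q * (d * β)) +
        3 * (N : ℝ) ^ (999 / 1000 : ℝ) * (1 + Real.log N) ^ 2 := by
  have hNr : (1 : ℝ) ≤ N := by exact_mod_cast hN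
  have hN0 : (0 : ℝ) < N := by linarith
  have hq0 : (0 : ℝ) < q := by exact_mod_cast NeZero.pos q
  have hXr : (X : ℝ) ≤ N := by exact_mod_cast hX
  have hX0 : (0 : ℝ) ≤ X := Nat.cast_nonneg _
  obtain ⟨L, hL⟩ : ∃ L, L = Real.log (N : ℝ) := ⟨_, rfl⟩
  have hL0 : 0 ≤ L := by rw [hL]; exact Real.log_nonneg hNr
  have hlogX : Real.log X ≤ L := by
    rcases Nat.eq_zero_or_pos X with h | h
    · rw [h]; simpa using hL0
    · rw [hL]
      exact Real.log_le_log (by exact_mod_cast h) hXr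
  have hK0 : 0 ≤ K := le_trans (by positivity) hK
  have h1 := tp_norm N X d q β
  have h2 := classes q X (wq N q) (wq_nonneg N q)
    (fun p hp => ⟨(wq_prime N q p hp).1, (wq_prime N q p hp).2.1⟩) (d * β)
  have hqN : (q : ℝ) ≤ N := by
    calc (q : ℝ) ≤ (N : ℝ) ^ (4 / 5 : ℝ) := hq
      _ ≤ (N : ℝ) ^ (1 : ℝ) := Real.rpow_le_rpow_of_exponent_le hNr (by norm_num)
      _ = N := Real.rpow_one _
  have hs1 : ∑ p ∈ Icc 1 X, wq N q p / p ≤ L * (1 + L) := by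
    calc ∑ p ∈ Icc 1 X, wq N q p / p ≤ ∑ p ∈ Icc 1 X, L * (1 / (p : ℝ)) := by
          refine sum_le_sum fun p _ => ?_
          rw [mul_one_div]
          apply div_le_div_of_nonneg_right _ (Nat.cast_nonneg _)
          rw [hL]
          exact wq_le N q p hN
      _ = L * ∑ p ∈ Icc 1 X, 1 / (p : ℝ) := by rw [mul_sum]
      _ ≤ L * (1 + L) := mul_le_mul_of_nonneg_left ((sum_inv_Icc X).trans (by linarith)) hL0
  have hs10 : 0 ≤ ∑ p ∈ Icc 1 X, wq N q p / p :=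
    sum_nonneg fun p _ => div_nonneg (wq_nonneg N q p) (Nat.cast_nonneg _)
  have hYle : ((YY N : ℕ) : ℝ) ≤ (N : ℝ) ^ (499 / 1000 : ℝ) := Nat.floor_le (by positivity)
  have hs2 : ∑ p ∈ Icc 1 X, wq N q p ≤ (N : ℝ) ^ (499 / 1000 : ℝ) * L := by
    calc ∑ p ∈ Icc 1 X, wq N q p = ∑ p ∈ (Icc 1 X).filter (fun p => wq N q p ≠ 0), wq N q p := by
          rw [Finset.sum_filter_ne_zero]
      _ ≤ ∑ p ∈ Icc 1 (YY N), L := by
          refine (sum_le_sum_of_subset_of_nonneg ?_ (fun p _ _ => wq_nonneg N q p)).trans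
            (sum_le_sum fun p _ => ?_)
          · intro p hp
            rw [mem_filter, mem_Icc] at hp
            rw [mem_Icc]
            exact ⟨hp.1.1, (wq_prime N q p hp.2).2.2.2⟩
          · rw [hL]
            exact wq_le N q p hN
      _ = (YY N : ℝ) * L := by rw [sum_const, Nat.card_Icc, nsmul_eq_mul, Nat.add_sub_cancel]
      _ ≤ _ := mul_le_mul_of_nonneg_right hYle hL0
  have hs20 : 0 ≤ ∑ p ∈ Icc 1 X, wq N q p := sum_nonneg fun p _ => wq_nonneg N q p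
  have hs3 : q * ∑ p ∈ Icc 1 X, wq N q p ^ 2 * ((X : ℝ) / p * ((X : ℝ) / p / q + 1)) ≤
      2 * (N : ℝ) ^ (9 / 5 : ℝ) * L ^ 2 * (1 + L) := by
    have h3 : ∀ p ∈ Icc 1 X, q * (wq N q p ^ 2 * ((X : ℝ) / p * ((X : ℝ) / p / q + 1))) ≤
        2 * (N : ℝ) ^ (9 / 5 : ℝ) * L ^ 2 * (1 / (p : ℝ)) := by
      intro p hp
      rw [mem_Icc] at hp
      have hp0 : (0 : ℝ) < p := by exact_mod_cast hp.1
      by_cases h0 : wq N q p = 0
      · rw [h0]
        simp only [ne_eq, OfNat.ofNat_ne_zero, not_false_eq_true, zero_pow, zero_mul, mul_zero]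
        positivity
      · have h4 := (wq_prime N q p h0).2.2.1
        have h5 : (N : ℝ) ^ (1 / 5 : ℝ) ≤ p := by
          have h6 : (N : ℝ) ^ (1 / 5 : ℝ) < (ZZ N : ℝ) + 1 := Nat.lt_floor_add_one _
          have h7 : (ZZ N : ℝ) + 1 ≤ p := by exact_mod_cast h4
          linarith
        have h6 : (X : ℝ) / p ≤ (N : ℝ) ^ (4 / 5 : ℝ) := by
          rw [div_le_iff₀ hp0]
          calc (X : ℝ) ≤ N := hXr
            _ = (N : ℝ) ^ (4 / 5 : ℝ) * (N : ℝ) ^ (1 / 5 : ℝ) := by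
                rw [← Real.rpow_add hN0]
                norm_num
            _ ≤ _ := by gcongr
        have h7 : wq N q p ^ 2 ≤ L ^ 2 := by
          apply pow_le_pow_left₀ (wq_nonneg N q p)
          rw [hL]
          exact wq_le N q p hN
        have h8 : (X : ℝ) / p ≤ N / p := div_le_div_of_nonneg_right hXr hp0.le
        calc q * (wq N q p ^ 2 * ((X : ℝ) / p * ((X : ℝ) / p / q + 1)))
            = wq N q p ^ 2 * ((X : ℝ) / p) * ((X : ℝ) / p + q) := by field_simp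
          _ ≤ L ^ 2 * (N / p) * ((N : ℝ) ^ (4 / 5 : ℝ) + (N : ℝ) ^ (4 / 5 : ℝ)) := by gcongr
          _ = 2 * ((N : ℝ) ^ (4 / 5 : ℝ) * N) * L ^ 2 * (1 / (p : ℝ)) := by ring
          _ = _ := by
              congr 3
              nth_rewrite 2 [← Real.rpow_one (N : ℝ)]
              rw [← Real.rpow_add hN0]
              norm_num
    rw [mul_sum]
    refine (sum_le_sum h3).trans ?_
    rw [← mul_sum]
    exact mul_le_mul_of_nonneg_left ((sum_inv_Icc X).trans (by linarith)) (by positivity)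
  have hF := FF_le q X (d * β) K hK
  have hF0 := FF_nonneg q X (d * β)
  have hKK0 : 0 ≤ KK K (q * (d * β)) := KK_nonneg hK0 _
  have hsq : ‖tp N X d (ev (univ : Finset (DirichletCharacter ℂ q)) β)‖ ^ 2 ≤
      (q * (1 + L) ^ 2 * KK K (q * (d * β)) + 3 * (N : ℝ) ^ (999 / 1000 : ℝ) * (1 + L) ^ 2) ^ 2 := by
    have e1 : q * ((∑ p ∈ Icc 1 X, wq N q p / p) ^ 2 * FF q X (d * β)) ≤
        (q * (1 + L) ^ 2 * KK K (q * (d * β))) ^ 2 := by
      calc q * ((∑ p ∈ Icc 1 X, wq N q p / p) ^ 2 * FF q X (d * β))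
          ≤ q * ((L * (1 + L)) ^ 2 * (q * KK K (q * (d * β)) ^ 2)) := by gcongr
        _ ≤ q * (((1 + L) * (1 + L)) ^ 2 * (q * KK K (q * (d * β)) ^ 2)) := by
            gcongr
            linarith
        _ = _ := by ring
    have e2 : q * ((∑ p ∈ Icc 1 X, wq N q p) ^ 2 * (2 * X / q + 1)) ≤
        3 * (N : ℝ) ^ (1998 / 1000 : ℝ) * (1 + L) ^ 4 := by
      calc q * ((∑ p ∈ Icc 1 X, wq N q p) ^ 2 * (2 * X / q + 1))
          = (∑ p ∈ Icc 1 X, wq N q p) ^ 2 * (2 * X + q) := by field_simp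
        _ ≤ ((N : ℝ) ^ (499 / 1000 : ℝ) * L) ^ 2 * (2 * N + N) := by
            gcongr
        _ = 3 * (((N : ℝ) ^ (499 / 1000 : ℝ)) ^ 2 * N) * L ^ 2 := by ring
        _ = 3 * (N : ℝ) ^ (1998 / 1000 : ℝ) * L ^ 2 := by
            congr 2
            rw [← Real.rpow_natCast, ← Real.rpow_mul hN0.le]
            nth_rewrite 2 [← Real.rpow_one (N : ℝ)]
            rw [← Real.rpow_add hN0]
            norm_num
        _ ≤ 3 * (N : ℝ) ^ (1998 / 1000 : ℝ) * (1 + L) ^ 4 := by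
            gcongr
            calc L ^ 2 ≤ (1 + L) ^ 2 := by gcongr; linarith
              _ ≤ (1 + L) ^ 4 := pow_le_pow_right₀ (by linarith) (by norm_num)
    have e30 : (N : ℝ) ^ (9 / 5 : ℝ) ≤ (N : ℝ) ^ (1998 / 1000 : ℝ) :=
      Real.rpow_le_rpow_of_exponent_le hNr (by norm_num)
    have e31 : L ^ 2 * (1 + L) ≤ (1 + L) ^ 4 := by
      calc L ^ 2 * (1 + L) ≤ (1 + L) ^ 2 * (1 + L) := by gcongr; linarith
        _ = (1 + L) ^ 3 := by ring
        _ ≤ (1 + L) ^ 4 := pow_le_pow_right₀ (by linarith) (by norm_num)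
    have e3 : q * (3 * ∑ p ∈ Icc 1 X, wq N q p ^ 2 * ((X : ℝ) / p * ((X : ℝ) / p / q + 1))) ≤
        6 * (N : ℝ) ^ (1998 / 1000 : ℝ) * (1 + L) ^ 4 := by
      calc q * (3 * ∑ p ∈ Icc 1 X, wq N q p ^ 2 * ((X : ℝ) / p * ((X : ℝ) / p / q + 1)))
          = 3 * ((q : ℝ) * ∑ p ∈ Icc 1 X, wq N q p ^ 2 * ((X : ℝ) / p * ((X : ℝ) / p / q + 1))) := by ring
        _ ≤ 3 * (2 * (N : ℝ) ^ (9 / 5 : ℝ) * L ^ 2 * (1 + L)) := by gcongr
        _ = 6 * (N : ℝ) ^ (9 / 5 : ℝ) * (L ^ 2 * (1 + L)) := by ring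
        _ ≤ 6 * (N : ℝ) ^ (1998 / 1000 : ℝ) * (1 + L) ^ 4 :=
            mul_le_mul (mul_le_mul_of_nonneg_left e30 (by norm_num)) e31 (by positivity) (by positivity)
    have e4 : (N : ℝ) ^ (1998 / 1000 : ℝ) = ((N : ℝ) ^ (999 / 1000 : ℝ)) ^ 2 := by
      rw [← Real.rpow_natCast, ← Real.rpow_mul hN0.le]
      norm_num
    refine h1.trans ((mul_le_mul_of_nonneg_left h2 hq0.le).trans ?_)
    rw [mul_add, mul_add]
    refine (add_le_add (add_le_add e1 e2) e3).trans ?_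
    rw [e4]
    have e5 : 0 ≤ q * (1 + L) ^ 2 * KK K (q * (d * β)) := by positivity
    have e6 : 0 ≤ 3 * (N : ℝ) ^ (999 / 1000 : ℝ) * (1 + L) ^ 2 := by positivity
    have e7 := mul_nonneg e5 e6
    nlinarith
  rw [← hL]
  exact le_of_sq_le_sq hsq (by positivity)

/-- the sum of the kernels over the multiples -/
lemma sum_KK (q N D r : ℕ) [NeZero q] (h : ℤ) (β : ℝ) (hD : 1 ≤ D) (hDN : D ≤ N)
    (hr : 1 ≤ r) (hrN : r ≤ N) (hcop : IsCoprime h (r : ℤ)) (hβ : |q * β - h / r| ≤ 1 / (r : ℝ) ^ 2) :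
    ∑ c ∈ Icc 1 D, (q : ℝ) * KK (2 * ((N / q + 1 + D : ℕ) : ℝ) / c) (c * (q * β)) ≤
      3600 * ((N : ℝ) / r + q * D + q * r) * (1 + Real.log N) ^ 2 := by
  have hq : 0 < q := Nat.pos_of_ne_zero (NeZero.ne q)
  have hq0 : (0 : ℝ) < q := by exact_mod_cast hq
  have hr0 : (0 : ℝ) < r := by exact_mod_cast hr
  have hr1 : (1 : ℝ) ≤ r := by exact_mod_cast hr
  have hD1 : (1 : ℝ) ≤ D := by exact_mod_cast hD
  have hN1 : (1 : ℝ) ≤ N := by exact_mod_cast hD.trans hDN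
  set M : ℕ := N / q + 1 + D with hM
  have hM1 : 1 ≤ M := hD.trans (Nat.le_add_left D _)
  rw [← mul_sum]
  have h1 := Pool.Agent.H373R2.T7.typeI_lin hr hcop hβ M D hM1 hD
  have hlog0 : 0 ≤ Real.log N := Real.log_nonneg hN1
  have hlogr : Real.log r ≤ Real.log N := Real.log_le_log hr0 (by exact_mod_cast hrN)
  have hlogr0 : 0 ≤ Real.log r := Real.log_nonneg hr1
  have hlog2 : (Nat.log 2 D : ℝ) + 1 ≤ 2 * (1 + Real.log N) := by
    have h2 : (2 : ℝ) ^ (Nat.log 2 D) ≤ D := by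
      exact_mod_cast Nat.pow_log_le_self 2 (by omega)
    have h3 : (Nat.log 2 D : ℝ) * Real.log 2 ≤ Real.log D := by
      have := Real.log_le_log (by positivity) h2
      rwa [Real.log_pow] at this
    have h4 : Real.log D ≤ Real.log N := Real.log_le_log (by linarith) (by exact_mod_cast hDN)
    have h5 := Real.log_two_gt_d9
    have h6 : (0 : ℝ) ≤ Nat.log 2 D := Nat.cast_nonneg _
    nlinarith
  have hsum : (q : ℝ) * ((M : ℝ) / r + D + r) ≤ 3 * ((N : ℝ) / r + q * D + q * r) := by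
    have h4 : (M : ℝ) ≤ (N : ℝ) / q + 1 + D := by
      rw [hM]
      push_cast
      have : ((N / q : ℕ) : ℝ) ≤ (N : ℝ) / q := Nat.cast_div_le
      linarith
    have h5 : (q : ℝ) * ((M : ℝ) / r) ≤ (N : ℝ) / r + q * (1 + D) := by
      have h6 : (q : ℝ) * M ≤ N + q * (1 + D) := by
        calc (q : ℝ) * M ≤ q * ((N : ℝ) / q + 1 + D) := mul_le_mul_of_nonneg_left h4 hq0.le
          _ = N + q * (1 + D) := by field_simp; ring
      have h7 : (q : ℝ) * ((M : ℝ) / r) = (q * M) / r := by ring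
      rw [h7]
      have h8 : (q * M : ℝ) / r ≤ (N + q * (1 + D)) / r := div_le_div_of_nonneg_right h6 hr0.le
      have h9 : (q * (1 + D) : ℝ) / r ≤ q * (1 + D) := div_le_self (by positivity) hr1
      have h10 : ((N : ℝ) + q * (1 + D)) / r = N / r + (q * (1 + D)) / r := by ring
      linarith
    have h11 : (0 : ℝ) ≤ (N : ℝ) / r := by positivity
    have h12 : (0 : ℝ) ≤ q * r := by positivity
    have h13 : (q : ℝ) ≤ q * D := le_mul_of_one_le_right hq0.le hD1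
    nlinarith
  have hX0 : (0 : ℝ) ≤ (N : ℝ) / r + q * D + q * r := by positivity
  calc (q : ℝ) * ∑ c ∈ Icc 1 D, KK (2 * M / c) (c * (q * β))
      ≤ q * (600 * (Nat.log 2 D + 1 : ℝ) * ((M : ℝ) / r + D + r) * (1 + Real.log r)) :=
        mul_le_mul_of_nonneg_left h1 hq0.le
    _ = 600 * (Nat.log 2 D + 1 : ℝ) * ((q : ℝ) * ((M : ℝ) / r + D + r)) * (1 + Real.log r) := by ring
    _ ≤ 600 * (2 * (1 + Real.log N)) * (3 * ((N : ℝ) / r + q * D + q * r)) * (1 + Real.log N) := by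
        gcongr
    _ = 3600 * ((N : ℝ) / r + q * D + q * r) * (1 + Real.log N) ^ 2 := by ring

/-- the length of the progressions -/
lemma len_le (q N D c y : ℕ) [NeZero q] (hc1 : 1 ≤ c) (hc : c ≤ D) (hy : y ≤ N) :
    ((y / c : ℕ) : ℝ) / q + 1 ≤ 2 * ((N / q + 1 + D : ℕ) : ℝ) / c := by
  have hq : 0 < q := Nat.pos_of_ne_zero (NeZero.ne q)
  have hq0 : (0 : ℝ) < q := by exact_mod_cast hq
  have hc0 : (0 : ℝ) < c := by exact_mod_cast hc1
  have h1 : ((y / c : ℕ) : ℝ) ≤ (N : ℝ) / c := by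
    have h2 : ((y / c : ℕ) : ℝ) ≤ (y : ℝ) / c := Nat.cast_div_le
    exact h2.trans (div_le_div_of_nonneg_right (by exact_mod_cast hy) hc0.le)
  have h2 : (N : ℝ) / q ≤ ((N / q : ℕ) : ℝ) + 1 := by
    rw [div_le_iff₀ hq0]
    have h3 := Nat.lt_div_mul_add (a := N) hq
    have h4 : N ≤ (N / q + 1) * q := by
      rw [add_mul, one_mul]
      omega
    exact_mod_cast h4
  have h3 : (c : ℝ) ≤ D := by exact_mod_cast hc
  rw [le_div_iff₀ hc0]
  push_cast
  have h5 : ((y / c : ℕ) : ℝ) / q * c ≤ (N : ℝ) / q := by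
    rw [div_mul_eq_mul_div, div_le_div_iff_of_pos_right hq0]
    rw [le_div_iff₀ hc0] at h1
    exact h1
  have h6 : (0 : ℝ) ≤ ((N / q : ℕ) : ℝ) := Nat.cast_nonneg _
  calc (((y / c : ℕ) : ℝ) / q + 1) * c = ((y / c : ℕ) : ℝ) / q * c + c := by ring
    _ ≤ (((N / q : ℕ) : ℝ) + 1) + D := add_le_add (h5.trans h2) h3
    _ ≤ 2 * (((N / q : ℕ) : ℝ) + 1 + D) := by linarith

/-- TPMIN -/
theorem tpMin : TpMinStm := by
  intro A ρ hρ
  obtain ⟨C, hC⟩ : ∃ C, C = A + 5 := ⟨_, rfl⟩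
  obtain ⟨N₁, hN₁⟩ := ev_log_rpow C 1 (1 / 2000) (by norm_num)
  obtain ⟨N₂, hN₂⟩ := Filter.eventually_atTop.1
    ((Real.tendsto_log_atTop.comp (tendsto_natCast_atTop_atTop (R := ℝ))).eventually_ge_atTop 172812)
  refine ⟨C, max (max N₁ N₂) 1, fun N hN q _ hq k h β hk1 hk2 hcop hβ y hy => ?_⟩
  have hNN₁ : N₁ ≤ N := le_trans (le_trans (le_max_left _ _) (le_max_left _ _)) hN
  have hNN₂ : N₂ ≤ N := le_trans (le_trans (le_max_right _ _) (le_max_left _ _)) hN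
  have hN1 : 1 ≤ N := le_trans (le_max_right _ _) hN
  have hNr1 : (1 : ℝ) ≤ N := by exact_mod_cast hN1
  have hN0 : (0 : ℝ) < N := by linarith
  have hq0 : (0 : ℝ) < q := by exact_mod_cast NeZero.pos q
  have hq1 : (1 : ℝ) ≤ q := by exact_mod_cast NeZero.pos q
  have hq45 : (q : ℝ) ≤ (N : ℝ) ^ (4 / 5 : ℝ) :=
    hq.trans (Real.rpow_le_rpow_of_exponent_le hNr1 (by linarith))
  have hLbig : (172812 : ℝ) ≤ Real.log N := hN₂ N hNN₂
  have hLp := hN₁ N hNN₁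
  obtain ⟨L, hL⟩ : ∃ L, L = Real.log (N : ℝ) := ⟨_, rfl⟩
  rw [← hL] at hLbig hLp hk1 hk2
  rw [one_mul] at hLp
  have hL1 : 1 ≤ L := by linarith
  have hL0 : 0 < L := by linarith
  have hLC1 : 1 ≤ L ^ C := one_le_pow₀ hL1
  have hk0 : (0 : ℝ) < k := lt_of_lt_of_le (by positivity) hk1
  have hkn : 1 ≤ k := by exact_mod_cast hk0
  have hkN : k ≤ N := by
    have : (k : ℝ) ≤ N := by
      calc (k : ℝ) = 1 * k * 1 := by ring
        _ ≤ q * k * L ^ C := by gcongr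
        _ ≤ N := hk2
    exact_mod_cast this
  have hD1 : 1 ≤ WW N := by
    unfold WW
    rw [Nat.one_le_floor_iff]
    exact Real.one_le_rpow hNr1 (by norm_num)
  have hDle : (WW N : ℝ) ≤ (N : ℝ) ^ (1 / 2000 : ℝ) := Nat.floor_le (by positivity)
  have hDN : WW N ≤ N := by
    have : (WW N : ℝ) ≤ N := by
      calc (WW N : ℝ) ≤ (N : ℝ) ^ (1 / 2000 : ℝ) := hDle
        _ ≤ (N : ℝ) ^ (1 : ℝ) := Real.rpow_le_rpow_of_exponent_le hNr1 (by norm_num)
        _ = N := Real.rpow_one _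
    exact_mod_cast this
  obtain ⟨X, hX⟩ : ∃ X, X = N / L ^ C := ⟨_, rfl⟩
  have hX0 : 0 ≤ X := by rw [hX]; positivity
  have hqk : (q : ℝ) * k ≤ X := by
    rw [hX, le_div_iff₀ (by positivity)]
    exact hk2
  have hNk : (N : ℝ) / k ≤ X := by
    rw [hX]
    gcongr
  have hqD : (q : ℝ) * WW N ≤ X := by
    rw [hX, le_div_iff₀ (by positivity)]
    calc (q : ℝ) * WW N * L ^ C ≤ (N : ℝ) ^ (4 / 5 : ℝ) * (N : ℝ) ^ (1 / 2000 : ℝ) * (N : ℝ) ^ (1 / 2000 : ℝ) := by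
          gcongr
      _ = (N : ℝ) ^ (801 / 1000 : ℝ) := by
          rw [← Real.rpow_add hN0, ← Real.rpow_add hN0]
          norm_num
      _ ≤ (N : ℝ) ^ (1 : ℝ) := Real.rpow_le_rpow_of_exponent_le hNr1 (by norm_num)
      _ = N := Real.rpow_one _
  have hDX : (WW N : ℝ) * (N : ℝ) ^ (999 / 1000 : ℝ) ≤ X := by
    rw [hX, le_div_iff₀ (by positivity)]
    calc (WW N : ℝ) * (N : ℝ) ^ (999 / 1000 : ℝ) * L ^ C
        ≤ (N : ℝ) ^ (1 / 2000 : ℝ) * (N : ℝ) ^ (999 / 1000 : ℝ) * (N : ℝ) ^ (1 / 2000 : ℝ) := by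
          gcongr
      _ = (N : ℝ) ^ (1 : ℝ) := by
          rw [← Real.rpow_add hN0, ← Real.rpow_add hN0]
          norm_num
      _ = N := Real.rpow_one _
  have h1 : ∀ d ∈ Icc 1 (WW N), ‖tp N (y / d) d (ev (univ : Finset (DirichletCharacter ℂ q)) β)‖ ≤
      (1 + L) ^ 2 * ((q : ℝ) * KK (2 * ((N / q + 1 + WW N : ℕ) : ℝ) / d) (d * (q * β))) +
        3 * (N : ℝ) ^ (999 / 1000 : ℝ) * (1 + L) ^ 2 := by
    intro d hd
    rw [mem_Icc] at hd
    have h2 := tp_bound N (y / d) d q β _ hN1 ((Nat.div_le_self y d).trans hy) hq45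
      (len_le q N (WW N) d y hd.1 hd.2 hy)
    rw [← hL] at h2
    have h3 : (q : ℝ) * (d * β) = d * (q * β) := by ring
    rw [h3] at h2
    linarith
  refine (sum_le_sum h1).trans ?_
  rw [sum_add_distrib, ← mul_sum, sum_const, Nat.card_Icc, nsmul_eq_mul, Nat.add_sub_cancel]
  have h2 := sum_KK q N (WW N) k h β hD1 hDN hkn hkN hcop hβ
  rw [← hL] at h2
  have h3 : (N : ℝ) / k + q * WW N + q * k ≤ 3 * X := by linarith
  have h30 : 0 ≤ (N : ℝ) / k + q * WW N + q * k := by positivity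
  have h4 : (1 + L) ^ 2 ≤ 4 * L ^ 2 := by nlinarith
  calc (1 + L) ^ 2 * ∑ c ∈ Icc 1 (WW N), (q : ℝ) * KK (2 * ((N / q + 1 + WW N : ℕ) : ℝ) / c) (c * (q * β)) +
        (WW N : ℝ) * (3 * (N : ℝ) ^ (999 / 1000 : ℝ) * (1 + L) ^ 2)
      ≤ (1 + L) ^ 2 * (3600 * ((N : ℝ) / k + q * WW N + q * k) * (1 + L) ^ 2) +
        (WW N : ℝ) * (3 * (N : ℝ) ^ (999 / 1000 : ℝ) * (1 + L) ^ 2) := by gcongr
    _ = 3600 * ((N : ℝ) / k + q * WW N + q * k) * ((1 + L) ^ 2 * (1 + L) ^ 2) +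
        3 * ((WW N : ℝ) * (N : ℝ) ^ (999 / 1000 : ℝ)) * (1 + L) ^ 2 := by ring
    _ ≤ 3600 * (3 * X) * ((4 * L ^ 2) * (4 * L ^ 2)) + 3 * X * (4 * L ^ 2) := by gcongr
    _ = X * (172800 * L ^ 4 + 12 * L ^ 2) := by ring
    _ ≤ X * (172800 * L ^ 4 + 12 * L ^ 4) := by
        gcongr
        norm_num
    _ = X * (172812 * L ^ 4) := by ring
    _ ≤ X * (L * L ^ 4) := by gcongr
    _ = N / L ^ A := by
        rw [hX, hC, pow_add]
        field_simp
    _ = N / Real.log N ^ A := by rw [hL]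

end Pool.Agent.Helper34.GV
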